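import Mathlib
import Pool.Agent.Lib.MP_fd6ff4_co.Defs

/-!
# Characteristic 2: definitions

In characteristic 2 the determinant of a square matrix is the sum over all the bijections between
the rows and the columns, no signs and no order are needed. `pdet a F` is the determinant of the
columns in `F` of the matrix `a`, `cof a R i` the determinant of the columns in `R` without the row
`i`, `bet a F` is, for a facet `F`, the restriction to `F` followed by the isomorphism of the
polynomial ring in the variables `x_v`, `v ∈ F`, with the polynomial ring in the `θ_i`.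
-/

set_option autoImplicit false

open Finset

namespace Pool.Agent.Lib.MP_fd6ff4_co.Two

variable {d n : ℕ}

/-- A vertex-induced triangulation of the simplex with the vertex set `Fin d`: for every `U` the
complex `Γ_U` is a `Z/2`-homology ball of dimension `#U - 1` whose interior faces are exactly those
with carrier `U`. -/
structure Ball (Γ : Finset (Finset (Fin n))) (σ : Fin n → Finset (Fin d)) : Prop where
  empty_mem : ∅ ∈ Γ
  down : ∀ F ∈ Γ, ∀ G, G ⊆ F → G ∈ Γ
  vertex : ∀ j, {j} ∈ Γ
  nonempty : ∀ j, (σ j).Nonempty
  ball : ∀ U : Finset (Fin d), ∀ F ∈ Γ, car σ F ⊆ U → BallAt Γ σ U F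

theorem Ball.tri {Γ : Finset (Finset (Fin n))} {σ : Fin n → Finset (Fin d)} (h : Ball Γ σ) :
    Tri Γ σ :=
  ⟨h.empty_mem, h.down, h.vertex, h.nonempty, fun U _ => h.ball U⟩

/-- the faces with `j` vertices -/
abbrev Fac (Γ : Finset (Finset (Fin n))) (j : ℕ) : Type := {F : Finset (Fin n) // F ∈ Γ ∧ #F = j}

universe u

variable {K : Type u} [Field K] (a : Fin d → Fin n → K)

/-- the determinant (in characteristic 2) of the columns in `F`, `#F = d` -/
def pdet (F : Finset (Fin n)) : K :=
  ∑ I ∈ univ.filter (fun I : Fin d → Fin n => univ.image I = F), ∏ i, a i (I i)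

/-- the determinant (in characteristic 2) of the columns in `R`, `#R = d - 1`, without the row
`i` -/
def cof (R : Finset (Fin n)) (i : Fin d) : K :=
  ∑ I ∈ univ.filter (fun I : {j : Fin d // j ≠ i} → Fin n => univ.image I = R), ∏ j, a j.1 (I j)

variable {a} in
/-- the linear form with the coefficients `c` -/
noncomputable def lf (c : Fin d → K) : MvPolynomial (Fin d) K :=
  ∑ i, MvPolynomial.C (c i) * MvPolynomial.X i

/-- For a facet `F` the ring homomorphism which maps `θ_i` to the variable `i` and the `x_v`,
`v ∉ F`, to `0`. -/
noncomputable def bet (F : Finset (Fin n)) :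
    MvPolynomial (Fin n) K →ₐ[K] MvPolynomial (Fin d) K :=
  MvPolynomial.aeval fun v => if v ∈ F then lf fun i => cof a (F.erase v) i / pdet a F else 0

/-- the ideal generated by the linear forms which vanish on the columns in `G`; the quotient is the
polynomial ring in the `x_v`, `v ∈ G` -/
noncomputable def Jd (G : Finset (Fin n)) : Ideal (MvPolynomial (Fin d) K) :=
  Ideal.span {p | ∃ c : Fin d → K, (∀ v ∈ G, ∑ i, c i * a i v = 0) ∧ p = lf c}

variable (Γ : Finset (Finset (Fin n)))

/-- the restrictions to all the facets -/
noncomputable def tau : MvPolynomial (Fin n) K →ₐ[K] (Fac Γ d → MvPolynomial (Fin d) K) :=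
  AlgHom.pi fun F => bet a F.1

/-- the interior ideal of the face ring as a module over the polynomial ring in the `θ_i` -/
noncomputable def Z0 : Submodule (MvPolynomial (Fin d) K) (Fac Γ d → MvPolynomial (Fin d) K) where
  carrier := {z | ∀ R ∈ Γ, #R + 1 = d →
    ∑ F ∈ univ.filter (fun F : Fac Γ d => R ⊆ F.1), z F ∈ Jd a R}
  add_mem' := by
    intro z w hz hw R hR hd
    simp only [Pi.add_apply, Finset.sum_add_distrib]
    exact add_mem (hz R hR hd) (hw R hR hd)
  zero_mem' := by
    intro R _ _
    simp
  smul_mem' := by
    intro s z hz R hR hd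
    simp only [Pi.smul_apply, ← Finset.smul_sum]
    exact (Jd a R).smul_mem s (hz R hR hd)

/-- the chain module of the faces with `j` vertices -/
abbrev Ch (j : ℕ) : Type u := (G : Fac Γ j) → (MvPolynomial (Fin d) K ⧸ Jd a G.1)

end Pool.Agent.Lib.MP_fd6ff4_co.Two
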