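import Mathlib
import Pool.Agent.Lib.MP_fd6ff4_co.Two.Defs

/-!
# Facets, ridges and strong connectivity
-/

set_option autoImplicit false

open Finset

namespace Pool.Agent.Lib.MP_fd6ff4_co.Two

variable {d n : ℕ} {Γ : Finset (Finset (Fin n))} {σ : Fin n → Finset (Fin d)}

private theorem mem_lk {U : Finset (Fin d)} {F G : Finset (Fin n)} :
    G ∈ link Γ σ U F ↔ G ∈ Γ ∧ Disjoint G F ∧ G ∪ F ∈ Γ ∧ car σ (G ∪ F) ⊆ U := by
  rw [link, mem_filter]

private theorem empty_lk (h : Ball Γ σ) {U : Finset (Fin d)} {F : Finset (Fin n)} (hF : F ∈ Γ)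
    (hU : car σ F ⊆ U) : ∅ ∈ link Γ σ U F := by
  rw [mem_lk, empty_union]
  exact ⟨h.empty_mem, disjoint_empty_left _, hF, hU⟩

private theorem empty_cycle (h : Ball Γ σ) {U : Finset (Fin d)} {F : Finset (Fin n)} (hF : F ∈ Γ)
    (hU : car σ F ⊆ U) : IsCycle (link Γ σ U F) 0 {∅} := by
  refine ⟨?_, ?_, ?_⟩
  · rw [singleton_subset_iff]
    exact empty_lk h hF hU
  · intro G hG
    rw [mem_singleton.mp hG, card_empty]
  · intro E hE
    omega

/-- PROOF. `dim` of `BallAt Γ σ univ F` for the empty face of the link. -/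
theorem card_le (h : Ball Γ σ) {F : Finset (Fin n)} (hF : F ∈ Γ) : #F ≤ d := by
  have h1 := (h.ball univ F hF (subset_univ _)).dim ∅ (empty_lk h hF (subset_univ _))
  rwa [card_empty, zero_add, card_univ, Fintype.card_fin] at h1

/-- More generally the carrier of a face has at least as many elements as the face. PROOF. `dim` of
`BallAt Γ σ (car σ F) F`. -/
theorem card_le_car (h : Ball Γ σ) {F : Finset (Fin n)} (hF : F ∈ Γ) : #F ≤ #(car σ F) := by
  have h1 := (h.ball (car σ F) F hF (Subset.refl _)).dim ∅ (empty_lk h hF (Subset.refl _))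
  rwa [card_empty, zero_add] at h1

/-- Every face is in a facet. PROOF. Take `F ⊇ G` in `Γ` with `#F` maximal. If `#F < d`: the link
of `F` in `Γ` (`U = univ`) is `{∅}`; `{∅}` is a cycle with `s = 0`, so by `low` it is the boundary of
a set `D` of one-element faces of the link; `D = ∅`, but `∅ ∈ {∅}` says that `#D` is odd. -/
theorem exists_facet (h : Ball Γ σ) {G : Finset (Fin n)} (hG : G ∈ Γ) :
    ∃ F ∈ Γ, #F = d ∧ G ⊆ F := by
  have hne : ({F ∈ Γ | G ⊆ F} : Finset (Finset (Fin n))).Nonempty :=
    ⟨G, mem_filter.mpr ⟨hG, Subset.refl _⟩⟩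
  obtain ⟨F, hF, hmax⟩ := exists_max_image _ (fun F => #F) hne
  rw [mem_filter] at hF
  refine ⟨F, hF.1, ?_, hF.2⟩
  by_contra hd
  have hlt : #F < d := lt_of_le_of_ne (card_le h hF.1) hd
  have hlt' : 0 + #F < #(univ : Finset (Fin d)) := by
    rw [card_univ, Fintype.card_fin]
    omega
  obtain ⟨D, hD1, hD2, hD3⟩ := (h.ball univ F hF.1 (subset_univ _)).low 0 hlt' {∅}
    (empty_cycle h hF.1 (subset_univ _))
  have hD : D = ∅ := by
    rw [eq_empty_iff_forall_notMem]
    intro E hE
    have h1 := mem_lk.mp (hD1 hE)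
    have h2 := hmax (E ∪ F) (mem_filter.mpr ⟨h1.2.2.1, hF.2.trans subset_union_right⟩)
    rw [card_union_of_disjoint h1.2.1, hD2 E hE] at h2
    omega
  have h3 := (hD3 ∅ card_empty).mp (mem_singleton_self _)
  rw [hD, filter_empty, card_empty] at h3
  exact absurd h3 (by decide)

/-- PROOF. Otherwise `boundary` for `U = univ` and the cycle `{∅}` (`s = 0`, no condition). -/
theorem car_facet (h : Ball Γ σ) {F : Finset (Fin n)} (hF : F ∈ Γ) (hd : #F = d) :
    car σ F = univ := by
  by_contra hc
  have h1 := empty_cycle h hF (subset_univ (car σ F))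
  have h2 : #(univ : Finset (Fin d)) - #F = 0 := by
    rw [card_univ, Fintype.card_fin, hd, Nat.sub_self]
  have h3 := (h.ball univ F hF (subset_univ _)).boundary hc {∅} (by rw [h2]; exact h1)
  exact singleton_ne_empty _ h3

private theorem ridge_card {R : Finset (Fin n)} (h : Ball Γ σ) (hd : #R + 1 = d) :
    #{F ∈ Γ | #F = d ∧ R ⊆ F} = #{G ∈ link Γ σ univ R | #G = 1} := by
  symm
  refine card_bij (fun G _ => G ∪ R) ?_ ?_ ?_
  · intro G hG
    rw [mem_filter, mem_lk] at hG
    rw [mem_filter, card_union_of_disjoint hG.1.2.1]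
    exact ⟨hG.1.2.2.1, by omega, subset_union_right⟩
  · intro G hG G' hG' he
    rw [mem_filter, mem_lk] at hG hG'
    rw [← union_sdiff_cancel_right hG.1.2.1, he, union_sdiff_cancel_right hG'.1.2.1]
  · intro F hF
    rw [mem_filter] at hF
    have h1 : F \ R ∪ R = F := sdiff_union_of_subset hF.2.2
    refine ⟨F \ R, ?_, h1⟩
    rw [mem_filter, mem_lk, h1, card_sdiff_of_subset hF.2.2]
    exact ⟨⟨h.down F hF.1 _ sdiff_subset, sdiff_disjoint, hF.1, subset_univ _⟩, by omega⟩

private theorem cycle_one {X C : Finset (Finset (Fin n))} :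
    IsCycle X 1 C ↔ C ⊆ {G ∈ X | #G = 1} ∧ Even #C := by
  constructor
  · rintro ⟨h1, h2, h3⟩
    refine ⟨fun G hG => mem_filter.mpr ⟨h1 hG, h2 G hG⟩, ?_⟩
    have h4 := h3 ∅ (by rw [card_empty])
    rwa [filter_true_of_mem fun G _ => empty_subset G] at h4
  · rintro ⟨h1, h2⟩
    refine ⟨fun G hG => (mem_filter.mp (h1 hG)).1, fun G hG => (mem_filter.mp (h1 hG)).2, ?_⟩
    intro E hE
    have h3 : E = ∅ := by
      rw [← card_eq_zero]
      omega
    rw [h3, filter_true_of_mem fun G _ => empty_subset G]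
    exact h2

/-- An interior ridge is in exactly two facets. PROOF. `U = univ`, `#U - #R = 1`: by `interior` there
is exactly one nonempty cycle of the link of `R` with `s = 1`, that is one nonempty set of
one-element faces of the link with an even number of elements. So the link has exactly two
vertices (with three vertices there would be three such sets), and `v ↦ insert v R` is a bijection
between the vertices of the link and the facets containing `R`. -/
theorem ridge_interior (h : Ball Γ σ) {R : Finset (Fin n)} (hR : R ∈ Γ) (hd : #R + 1 = d)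
    (hc : car σ R = univ) : #{F ∈ Γ | #F = d ∧ R ⊆ F} = 2 := by
  rw [ridge_card h hd]
  have h2 : #(univ : Finset (Fin d)) - #R = 1 := by
    rw [card_univ, Fintype.card_fin]
    omega
  obtain ⟨C, ⟨hC1, hC2⟩, hC3⟩ := (h.ball univ R hR (subset_univ _)).interior hc
  rw [h2, cycle_one] at hC2
  have hge : 2 ≤ #C := by
    have h4 := card_pos.mpr hC1
    rcases hC2.2 with ⟨m, hm⟩
    omega
  have hle := card_le_card hC2.1
  by_contra hne
  have h3 : 2 < #{G ∈ link Γ σ univ R | #G = 1} := by omega
  obtain ⟨a, b, c, ha, hb, hc', hab, hac, hbc⟩ := two_lt_card_iff.mp h3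
  have key : ∀ x y : Finset (Fin n), x ∈ ({G ∈ link Γ σ univ R | #G = 1} : Finset _) →
      y ∈ ({G ∈ link Γ σ univ R | #G = 1} : Finset _) → x ≠ y → {x, y} = C := by
    intro x y hx hy hxy
    refine hC3 {x, y} ⟨insert_nonempty _ _, ?_⟩
    rw [h2, cycle_one]
    refine ⟨?_, ?_⟩
    · intro z hz
      rw [mem_insert, mem_singleton] at hz
      rcases hz with rfl | rfl
      · exact hx
      · exact hy
    · rw [card_pair hxy]
      exact even_two
  have h5 : ({a, b} : Finset (Finset (Fin n))) = {a, c} :=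
    (key a b ha hb hab).trans (key a c ha hc' hac).symm
  have h6 : b ∈ ({a, c} : Finset (Finset (Fin n))) := by
    rw [← h5]
    exact mem_insert_of_mem (mem_singleton_self b)
  rw [mem_insert, mem_singleton] at h6
  rcases h6 with h6 | h6
  · exact hab h6.symm
  · exact hbc h6

/-- A boundary ridge is in exactly one facet. PROOF. As before with `boundary`: no nonempty set of
vertices of the link has an even number of elements; at least one facet by `exists_facet`. -/
theorem ridge_boundary (h : Ball Γ σ) {R : Finset (Fin n)} (hR : R ∈ Γ) (hd : #R + 1 = d)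
    (hc : car σ R ≠ univ) : #{F ∈ Γ | #F = d ∧ R ⊆ F} = 1 := by
  have h2 : #(univ : Finset (Fin d)) - #R = 1 := by
    rw [card_univ, Fintype.card_fin]
    omega
  have hge : 0 < #{F ∈ Γ | #F = d ∧ R ⊆ F} := by
    obtain ⟨F, hF, hFd, hRF⟩ := exists_facet h hR
    exact card_pos.mpr ⟨F, mem_filter.mpr ⟨hF, hFd, hRF⟩⟩
  rw [ridge_card h hd] at hge ⊢
  by_contra hne
  have h3 : 1 < #{G ∈ link Γ σ univ R | #G = 1} := by omega
  obtain ⟨a, ha, b, hb, hab⟩ := one_lt_card.mp h3
  have h4 := (h.ball univ R hR (subset_univ _)).boundary hc {a, b} (by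
    rw [h2, cycle_one]
    refine ⟨?_, ?_⟩
    · intro z hz
      rw [mem_insert, mem_singleton] at hz
      rcases hz with rfl | rfl
      · exact ha
      · exact hb
    · rw [card_pair hab]
      exact even_two)
  exact insert_ne_empty _ _ h4

end Pool.Agent.Lib.MP_fd6ff4_co.Two
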