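import Mathlib
import Pool.Agent.Lib.MP_fd6ff4_co.Two.Comb

/-!
# From coefficients `Z/2` to coefficients in a field of characteristic 2
-/

set_option autoImplicit false

open Finset

namespace Pool.Agent.Lib.MP_fd6ff4_co.Two

universe u

variable {d n : ℕ} {K : Type u} [Field K] {Γ : Finset (Finset (Fin n))}
  {σ : Fin n → Finset (Fin d)}

/-! ### Coefficients `ZMod 2` -/

section aux

variable {Γ : Finset (Finset (Fin n))}

private theorem mem_lkc {U : Finset (Fin d)} {F G : Finset (Fin n)} :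
    G ∈ link Γ σ U F ↔ G ∈ Γ ∧ Disjoint G F ∧ G ∪ F ∈ Γ ∧ car σ (G ∪ F) ⊆ U := by
  rw [link, mem_filter]

private theorem eq_one_of_ne {x : ZMod 2} (hx : x ≠ 0) : x = 1 := by
  revert x
  decide

private theorem sum_eq_card (S : Finset (Finset (Fin n))) (e : Finset (Fin n) → ZMod 2) :
    ∑ G ∈ S, e G = ((#{G ∈ S | e G ≠ 0} : ℕ) : ZMod 2) := by
  rw [← sum_filter_ne_zero, sum_congr rfl (g := fun _ => (1 : ZMod 2)), sum_const, nsmul_one]
  intro G hG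
  exact eq_one_of_ne (mem_filter.mp hG).2

/-- the set of the `G \ G₀` with `e G ≠ 0` -/
private def sup2 (Γ : Finset (Finset (Fin n))) (G₀ : Finset (Fin n))
    (e : Finset (Fin n) → ZMod 2) : Finset (Finset (Fin n)) :=
  (Γ.filter fun G => e G ≠ 0).image fun G => G \ G₀

private theorem mem_sup2 {G₀ : Finset (Fin n)} {j : ℕ} {e : Finset (Fin n) → ZMod 2}
    (hc : ∀ G, e G ≠ 0 → G ∈ Γ ∧ #G = j ∧ G₀ ⊆ G) {G : Finset (Fin n)} (hG : G₀ ⊆ G) :
    G \ G₀ ∈ sup2 Γ G₀ e ↔ e G ≠ 0 := by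
  rw [sup2, mem_image]
  constructor
  · rintro ⟨G', h1, h2⟩
    rw [mem_filter] at h1
    have h3 := (hc G' h1.2).2.2
    have h4 : G' = G := by
      rw [← sdiff_union_of_subset h3, h2, sdiff_union_of_subset hG]
    rw [← h4]
    exact h1.2
  · intro h1
    exact ⟨G, mem_filter.mpr ⟨(hc G h1).1, h1⟩, rfl⟩

private theorem card_sup2 {G₀ : Finset (Fin n)} {j : ℕ} {e : Finset (Fin n) → ZMod 2}
    (hc : ∀ G, e G ≠ 0 → G ∈ Γ ∧ #G = j ∧ G₀ ⊆ G) {E : Finset (Fin n)} (hE : Disjoint E G₀) :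
    #{G ∈ sup2 Γ G₀ e | E ⊆ G} = #{G ∈ Γ.filter (fun G => E ∪ G₀ ⊆ G) | e G ≠ 0} := by
  symm
  refine card_bij (fun G _ => G \ G₀) ?_ ?_ ?_
  · intro G hG
    rw [mem_filter, mem_filter] at hG
    rw [mem_filter, mem_sup2 hc (subset_union_right.trans hG.1.2)]
    refine ⟨hG.2, ?_⟩
    intro x hx
    rw [mem_sdiff]
    exact ⟨hG.1.2 (mem_union_left _ hx), disjoint_left.mp hE hx⟩
  · intro G hG G' hG' he
    rw [mem_filter, mem_filter] at hG hG'
    rw [← sdiff_union_of_subset (subset_union_right.trans hG.1.2), he,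
      sdiff_union_of_subset (subset_union_right.trans hG'.1.2)]
  · intro G hG
    rw [mem_filter, sup2, mem_image] at hG
    obtain ⟨⟨G', h1, h2⟩, h3⟩ := hG
    rw [mem_filter] at h1
    refine ⟨G', ?_, h2⟩
    rw [mem_filter, mem_filter]
    refine ⟨⟨h1.1, union_subset ?_ (hc G' h1.2).2.2⟩, h1.2⟩
    rw [← h2] at h3
    exact h3.trans sdiff_subset

private theorem sup2_cycle (h : Ball Γ σ) {G₀ : Finset (Fin n)} {j : ℕ}
    {e : Finset (Fin n) → ZMod 2} (hc : ∀ G, e G ≠ 0 → G ∈ Γ ∧ #G = j ∧ G₀ ⊆ G)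
    (hcyc : ∀ R ∈ Γ, G₀ ⊆ R → #R + 1 = j → ∑ G ∈ Γ.filter (fun G => R ⊆ G), e G = 0) :
    IsCycle (link Γ σ univ G₀) (j - #G₀) (sup2 Γ G₀ e) := by
  refine ⟨?_, ?_, ?_⟩
  · intro G hG
    rw [sup2, mem_image] at hG
    obtain ⟨G', h1, rfl⟩ := hG
    rw [mem_filter] at h1
    have h2 := hc G' h1.2
    rw [mem_lkc, sdiff_union_of_subset h2.2.2]
    exact ⟨h.down G' h1.1 _ sdiff_subset, sdiff_disjoint, h1.1, subset_univ _⟩
  · intro G hG
    rw [sup2, mem_image] at hG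
    obtain ⟨G', h1, rfl⟩ := hG
    rw [mem_filter] at h1
    have h2 := hc G' h1.2
    rw [card_sdiff_of_subset h2.2.2, h2.2.1]
  · intro E hE
    by_cases hd : Disjoint E G₀
    · rw [card_sup2 hc hd]
      by_cases hm : E ∪ G₀ ∈ Γ
      · have h1 := hcyc (E ∪ G₀) hm subset_union_right (by
          rw [card_union_of_disjoint hd]
          omega)
        rw [sum_eq_card, ZMod.natCast_eq_zero_iff_even] at h1
        exact h1
      · rw [filter_false_of_mem, card_empty]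
        · exact Even.zero
        · intro G hG
          rw [mem_filter] at hG
          exact absurd (h.down G hG.1 _ hG.2) hm
    · rw [filter_false_of_mem, card_empty]
      · exact Even.zero
      · intro G hG hEG
        rw [sup2, mem_image] at hG
        obtain ⟨G', h1, rfl⟩ := hG
        exact hd (disjoint_of_subset_left hEG sdiff_disjoint)

private theorem low_two (h : Ball Γ σ) {G₀ : Finset (Fin n)} (hG₀ : G₀ ∈ Γ) {j : ℕ}
    (hj : j < d) (e : Finset (Fin n) → ZMod 2) (hc : ∀ G, e G ≠ 0 → G ∈ Γ ∧ #G = j ∧ G₀ ⊆ G)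
    (hcyc : ∀ R ∈ Γ, G₀ ⊆ R → #R + 1 = j → ∑ G ∈ Γ.filter (fun G => R ⊆ G), e G = 0) :
    ∃ b : Finset (Fin n) → ZMod 2, (∀ G, b G ≠ 0 → G ∈ Γ ∧ #G = j + 1 ∧ G₀ ⊆ G) ∧
      ∀ G ∈ Γ, #G = j → G₀ ⊆ G → ∑ G' ∈ Γ.filter (fun G' => G ⊆ G'), b G' = e G := by
  by_cases hle : #G₀ ≤ j
  swap
  · refine ⟨fun _ => 0, fun G hG => absurd rfl hG, ?_⟩
    intro G _ h2 h3
    exact absurd (h2 ▸ card_le_card h3) hle
  obtain ⟨D, hD1, hD2, hD3⟩ := (h.ball univ G₀ hG₀ (subset_univ _)).low (j - #G₀) (by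
    rw [card_univ, Fintype.card_fin]
    omega) (sup2 Γ G₀ e) (sup2_cycle h hc hcyc)
  have hDm : ∀ G : Finset (Fin n), G₀ ⊆ G → G \ G₀ ∈ D → G ∈ Γ ∧ #G = j + 1 := by
    intro G h1 h2
    have h3 := mem_lkc.mp (hD1 h2)
    rw [sdiff_union_of_subset h1] at h3
    have h4 := hD2 _ h2
    rw [card_sdiff_of_subset h1] at h4
    have h5 := card_le_card h1
    exact ⟨h3.2.2.1, by omega⟩
  have hne : ∀ G : Finset (Fin n),
      (if G₀ ⊆ G ∧ G \ G₀ ∈ D then (1 : ZMod 2) else 0) ≠ 0 ↔ G₀ ⊆ G ∧ G \ G₀ ∈ D := by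
    intro G
    by_cases h1 : G₀ ⊆ G ∧ G \ G₀ ∈ D
    · rw [if_pos h1]
      exact ⟨fun _ => h1, fun _ => one_ne_zero⟩
    · rw [if_neg h1]
      exact ⟨fun h2 => absurd rfl h2, fun h2 => absurd h2 h1⟩
  refine ⟨fun G => if G₀ ⊆ G ∧ G \ G₀ ∈ D then 1 else 0, ?_, ?_⟩
  · intro G hG
    have h1 := (hne G).mp hG
    have h2 := hDm G h1.1 h1.2
    exact ⟨h2.1, h2.2, h1.1⟩
  · intro G hG hGj hGG
    rw [sum_eq_card]
    have hcard : #{G' ∈ Γ.filter (fun G' => G ⊆ G') |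
        (if G₀ ⊆ G' ∧ G' \ G₀ ∈ D then (1 : ZMod 2) else 0) ≠ 0} =
        #{G' ∈ D | G \ G₀ ⊆ G'} := by
      refine card_bij (fun G' _ => G' \ G₀) ?_ ?_ ?_
      · intro G' h1
        rw [mem_filter, mem_filter, hne] at h1
        rw [mem_filter]
        exact ⟨h1.2.2, sdiff_subset_sdiff h1.1.2 (Subset.refl _)⟩
      · intro G' h1 G'' h2 he
        rw [mem_filter, mem_filter, hne] at h1 h2
        rw [← sdiff_union_of_subset h1.2.1, he, sdiff_union_of_subset h2.2.1]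
      · intro E h1
        rw [mem_filter] at h1
        have h2 := mem_lkc.mp (hD1 h1.1)
        have h3 : (E ∪ G₀) \ G₀ = E := union_sdiff_cancel_right h2.2.1
        refine ⟨E ∪ G₀, ?_, h3⟩
        rw [mem_filter, mem_filter, hne, h3]
        refine ⟨⟨h2.2.2.1, ?_⟩, subset_union_right, h1.1⟩
        rw [← sdiff_union_of_subset hGG]
        exact union_subset_union_left h1.2
    rw [hcard]
    have h1 := hD3 (G \ G₀) (by rw [card_sdiff_of_subset hGG, hGj])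
    rw [mem_sup2 hc hGG] at h1
    by_cases h2 : e G = 0
    · rw [h2, ZMod.natCast_eq_zero_iff_even, ← Nat.not_odd_iff_even, ← h1]
      exact fun h3 => h3 h2
    · rw [eq_one_of_ne h2, ZMod.natCast_eq_one_iff_odd, ← h1]
      exact h2

private theorem boundary_two (h : Ball Γ σ) {G₀ : Finset (Fin n)} (hG₀ : G₀ ∈ Γ)
    (hcar : car σ G₀ ≠ univ) (e : Finset (Fin n) → ZMod 2)
    (hc : ∀ G, e G ≠ 0 → G ∈ Γ ∧ #G = d ∧ G₀ ⊆ G)
    (hcyc : ∀ R ∈ Γ, G₀ ⊆ R → #R + 1 = d → ∑ G ∈ Γ.filter (fun G => R ⊆ G), e G = 0)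
    (G : Finset (Fin n)) : e G = 0 := by
  by_contra h1
  have h2 := (h.ball univ G₀ hG₀ (subset_univ _)).boundary hcar (sup2 Γ G₀ e) (by
    rw [card_univ, Fintype.card_fin]
    exact sup2_cycle h hc hcyc)
  have h3 := (mem_sup2 hc (hc G h1).2.2).mpr h1
  rw [h2] at h3
  exact notMem_empty _ h3

private theorem interior_two (h : Ball Γ σ) {G₀ : Finset (Fin n)} (hG₀ : G₀ ∈ Γ)
    (hcar : car σ G₀ = univ) (e : Finset (Fin n) → ZMod 2)
    (hc : ∀ G, e G ≠ 0 → G ∈ Γ ∧ #G = d ∧ G₀ ⊆ G)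
    (hcyc : ∀ R ∈ Γ, G₀ ⊆ R → #R + 1 = d → ∑ G ∈ Γ.filter (fun G => R ⊆ G), e G = 0)
    {F F' : Finset (Fin n)} (hF : F ∈ Γ) (hFd : #F = d) (hGF : G₀ ⊆ F) (hF' : F' ∈ Γ)
    (hFd' : #F' = d) (hGF' : G₀ ⊆ F') : e F = e F' := by
  classical
  have hsub : #(univ : Finset (Fin d)) - #G₀ = d - #G₀ := by
    rw [card_univ, Fintype.card_fin]
  obtain ⟨C, ⟨_, _⟩, hC3⟩ := (h.ball univ G₀ hG₀ (subset_univ _)).interior hcar
  have hne : ∀ G : Finset (Fin n),
      (if G ∈ Γ ∧ #G = d ∧ G₀ ⊆ G then (1 : ZMod 2) else 0) ≠ 0 ↔ G ∈ Γ ∧ #G = d ∧ G₀ ⊆ G := by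
    intro G
    by_cases h1 : G ∈ Γ ∧ #G = d ∧ G₀ ⊆ G
    · rw [if_pos h1]
      exact ⟨fun _ => h1, fun _ => one_ne_zero⟩
    · rw [if_neg h1]
      exact ⟨fun h2 => absurd rfl h2, fun h2 => absurd h2 h1⟩
  have hc0 : ∀ G : Finset (Fin n), (if G ∈ Γ ∧ #G = d ∧ G₀ ⊆ G then (1 : ZMod 2) else 0) ≠ 0 →
      G ∈ Γ ∧ #G = d ∧ G₀ ⊆ G := fun G => (hne G).mp
  have hcyc0 : ∀ R ∈ Γ, G₀ ⊆ R → #R + 1 = d → ∑ G ∈ Γ.filter (fun G => R ⊆ G),
      (if G ∈ Γ ∧ #G = d ∧ G₀ ⊆ G then (1 : ZMod 2) else 0) = 0 := by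
    intro R hR hGR hRd
    rw [sum_eq_card, ZMod.natCast_eq_zero_iff_even]
    have h1 : car σ R = univ := by
      refine (subset_univ _).antisymm ?_
      rw [← hcar]
      exact biUnion_subset_biUnion_of_subset_left _ hGR
    have h2 : ({G ∈ Γ.filter (fun G => R ⊆ G) |
        (if G ∈ Γ ∧ #G = d ∧ G₀ ⊆ G then (1 : ZMod 2) else 0) ≠ 0} : Finset (Finset (Fin n))) =
        {F ∈ Γ | #F = d ∧ R ⊆ F} := by
      ext G
      rw [mem_filter, mem_filter, hne, mem_filter]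
      constructor
      · rintro ⟨⟨h3, h4⟩, _, h6, _⟩
        exact ⟨h3, h6, h4⟩
      · rintro ⟨h3, h4, h5⟩
        exact ⟨⟨h3, h5⟩, h3, h4, hGR.trans h5⟩
    rw [h2, ridge_interior h hR hRd h1]
    exact even_two
  have hC0 := hC3 (sup2 Γ G₀ fun G => if G ∈ Γ ∧ #G = d ∧ G₀ ⊆ G then (1 : ZMod 2) else 0)
    ⟨⟨F \ G₀, (mem_sup2 hc0 hGF).mpr ((hne F).mpr ⟨hF, hFd, hGF⟩)⟩, by
      rw [hsub]
      exact sup2_cycle h hc0 hcyc0⟩
  by_cases hemp : (sup2 Γ G₀ e).Nonempty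
  · have hC1 := hC3 (sup2 Γ G₀ e) ⟨hemp, by
      rw [hsub]
      exact sup2_cycle h hc hcyc⟩
    have key : ∀ G ∈ Γ, #G = d → G₀ ⊆ G → e G = 1 := by
      intro G h1 h2 h3
      refine eq_one_of_ne ?_
      rw [← mem_sup2 hc h3, hC1, ← hC0]
      exact (mem_sup2 hc0 h3).mpr ((hne G).mpr ⟨h1, h2, h3⟩)
    rw [key F hF hFd hGF, key F' hF' hFd' hGF']
  · have key : ∀ G : Finset (Fin n), G₀ ⊆ G → e G = 0 := by
      intro G h3
      by_contra h4
      exact hemp ⟨_, (mem_sup2 hc h3).mpr h4⟩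
    rw [key F hGF, key F' hGF']

end aux

/-- Chains with coefficients in `K` on the faces containing `G₀`: below the top dimension every cycle
is a boundary. PROOF. If `#G₀ > j` then `c = 0`, take `b = 0`. Otherwise let `(β)` be a basis of `K` over
`ZMod 2` (`Module.Basis.ofVectorSpace`, the algebra structure is `ZMod.algebra K 2`). For each `β`
the set `C β` of the `G \ G₀`, where `G ∈ Γ` contains `G₀` and the coordinate of `c G` at `β` is not
zero, is a cycle of the link of `G₀` for `s = j - #G₀` (the coordinate at `β` of the sum over the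
`G ⊇ R` is the number of the `G` modulo 2); by `low` (`U = univ`) it is the boundary of a set `D β`; let
`b β G'` be `1` if `G' ⊇ G₀` and `G' \ G₀ ∈ D β` and `0` otherwise. Only finitely many `β` occur in the
`c G`: `b G' = ∑ β, b β G' • β` over these. -/
theorem chain_low [CharP K 2] (h : Ball Γ σ) {G₀ : Finset (Fin n)} (hG₀ : G₀ ∈ Γ) {j : ℕ}
    (hj : j < d) (c : Finset (Fin n) → K) (hc : ∀ G, c G ≠ 0 → G ∈ Γ ∧ #G = j ∧ G₀ ⊆ G)
    (hcyc : ∀ R ∈ Γ, G₀ ⊆ R → #R + 1 = j → ∑ G ∈ Γ.filter (fun G => R ⊆ G), c G = 0) :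
    ∃ b : Finset (Fin n) → K, (∀ G, b G ≠ 0 → G ∈ Γ ∧ #G = j + 1 ∧ G₀ ⊆ G) ∧
      ∀ G ∈ Γ, #G = j → G₀ ⊆ G → ∑ G' ∈ Γ.filter (fun G' => G ⊆ G'), b G' = c G := by
  classical
  let _ : Algebra (ZMod 2) K := ZMod.algebra K 2
  let B := Module.Basis.ofVectorSpace (ZMod 2) K
  have hz : ∀ β G, B.repr (c G) β ≠ 0 → c G ≠ 0 := by
    intro β G h1 h2
    rw [h2, map_zero, Finsupp.zero_apply] at h1
    exact h1 rfl
  have hex : ∀ β, ∃ b : Finset (Fin n) → ZMod 2,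
      (∀ G, b G ≠ 0 → G ∈ Γ ∧ #G = j + 1 ∧ G₀ ⊆ G) ∧
      ∀ G ∈ Γ, #G = j → G₀ ⊆ G →
        ∑ G' ∈ Γ.filter (fun G' => G ⊆ G'), b G' = B.repr (c G) β := by
    intro β
    refine low_two h hG₀ hj (fun G => B.repr (c G) β) (fun G hG => hc G (hz β G hG)) ?_
    intro R h1 h2 h3
    have h4 := congrArg (fun x => B.repr x β) (hcyc R h1 h2 h3)
    simpa only [map_sum, Finsupp.finsetSum_apply, map_zero, Finsupp.zero_apply] using h4
  choose b hb1 hb2 using hex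
  let T := Γ.biUnion fun G => (B.repr (c G)).support
  refine ⟨fun G' => ∑ β ∈ T, b β G' • B β, ?_, ?_⟩
  · intro G hG
    obtain ⟨β, _, h1⟩ := exists_ne_zero_of_sum_ne_zero hG
    refine hb1 β G ?_
    intro h2
    rw [h2, zero_smul] at h1
    exact h1 rfl
  · intro G h1 h2 h3
    rw [sum_comm]
    have h4 : ∀ β, ∑ G' ∈ Γ.filter (fun G' => G ⊆ G'), b β G' • B β = B.repr (c G) β • B β := by
      intro β
      rw [← sum_smul, hb2 β G h1 h2 h3]
    rw [sum_congr rfl fun β _ => h4 β]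
    conv_rhs => rw [← B.linearCombination_repr (c G), Finsupp.linearCombination_apply,
      Finsupp.sum]
    symm
    refine sum_subset (fun β hβ => mem_biUnion.mpr ⟨G, h1, hβ⟩) ?_
    intro β _ hβ
    rw [Finsupp.notMem_support_iff.mp hβ, zero_smul]

/-- In the top dimension: no nonzero cycle if `G₀` is a boundary face. PROOF. As before with
`boundary`. -/
theorem chain_top_boundary [CharP K 2] (h : Ball Γ σ) {G₀ : Finset (Fin n)} (hG₀ : G₀ ∈ Γ)
    (hcar : car σ G₀ ≠ univ) (c : Finset (Fin n) → K)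
    (hc : ∀ G, c G ≠ 0 → G ∈ Γ ∧ #G = d ∧ G₀ ⊆ G)
    (hcyc : ∀ R ∈ Γ, G₀ ⊆ R → #R + 1 = d → ∑ G ∈ Γ.filter (fun G => R ⊆ G), c G = 0)
    (G : Finset (Fin n)) : c G = 0 := by
  classical
  let _ : Algebra (ZMod 2) K := ZMod.algebra K 2
  let B := Module.Basis.ofVectorSpace (ZMod 2) K
  have hz : ∀ β G, B.repr (c G) β ≠ 0 → c G ≠ 0 := by
    intro β G h1 h2
    rw [h2, map_zero, Finsupp.zero_apply] at h1
    exact h1 rfl
  refine B.ext_elem_iff.mpr fun β => ?_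
  rw [map_zero, Finsupp.zero_apply]
  refine boundary_two h hG₀ hcar (fun G => B.repr (c G) β) (fun G hG => hc G (hz β G hG)) ?_ G
  intro R h1 h2 h3
  have h4 := congrArg (fun x => B.repr x β) (hcyc R h1 h2 h3)
  simpa only [map_sum, Finsupp.finsetSum_apply, map_zero, Finsupp.zero_apply] using h4

/-- In the top dimension, `G₀` interior: the cycles are constant. PROOF. Every `C β` is empty or the
unique nonempty cycle; the set of all the `F \ G₀`, `F ⊇ G₀` a facet, is a nonempty cycle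
(`ridge_interior` in `Comb`: every ridge containing `G₀` is interior and in exactly two facets; for
`#G₀ = d` trivial), so it is this cycle. (Or use `strong_connected` and `ridge_interior`: at an
interior ridge the sum of the two values is `0`, so they are equal.) -/
theorem chain_top_interior [CharP K 2] (h : Ball Γ σ) {G₀ : Finset (Fin n)} (hG₀ : G₀ ∈ Γ)
    (hcar : car σ G₀ = univ) (c : Finset (Fin n) → K)
    (hc : ∀ G, c G ≠ 0 → G ∈ Γ ∧ #G = d ∧ G₀ ⊆ G)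
    (hcyc : ∀ R ∈ Γ, G₀ ⊆ R → #R + 1 = d → ∑ G ∈ Γ.filter (fun G => R ⊆ G), c G = 0)
    {F F' : Finset (Fin n)} (hF : F ∈ Γ) (hFd : #F = d) (hGF : G₀ ⊆ F) (hF' : F' ∈ Γ)
    (hFd' : #F' = d) (hGF' : G₀ ⊆ F') : c F = c F' := by
  classical
  let _ : Algebra (ZMod 2) K := ZMod.algebra K 2
  let B := Module.Basis.ofVectorSpace (ZMod 2) K
  have hz : ∀ β G, B.repr (c G) β ≠ 0 → c G ≠ 0 := by
    intro β G h1 h2
    rw [h2, map_zero, Finsupp.zero_apply] at h1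
    exact h1 rfl
  refine B.ext_elem_iff.mpr fun β => ?_
  refine interior_two h hG₀ hcar (fun G => B.repr (c G) β) (fun G hG => hc G (hz β G hG)) ?_
    hF hFd hGF hF' hFd' hGF'
  intro R h1 h2 h3
  have h4 := congrArg (fun x => B.repr x β) (hcyc R h1 h2 h3)
  simpa only [map_sum, Finsupp.finsetSum_apply, map_zero, Finsupp.zero_apply] using h4

end Pool.Agent.Lib.MP_fd6ff4_co.Two
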