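import Mathlib
import Pool.Agent.Lib.MP_fd6ff4_co.Two.Comb

/-!
# The combinatorial step for at most two missing degrees
-/

set_option autoImplicit false

open Finset

namespace Pool.Agent.Lib.MP_fd6ff4_co.Two

universe u

variable {d n : ℕ} {K : Type u} [Field K] {a : Fin d → Fin n → K}
  {Γ : Finset (Finset (Fin n))} {σ : Fin n → Finset (Fin d)}

/-- A face is matchable if every set `S` of indices meets the carriers of at least `#S / 2` of its
vertices. -/
def Matchable (σ : Fin n → Finset (Fin d)) (N : Finset (Fin n)) : Prop :=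
  ∀ S : Finset (Fin d), #S ≤ 2 * #{k ∈ N | (σ k ∩ S).Nonempty}

/-- There is only one vertex with the carrier `{i}`. PROOF. `BallAt Γ σ {i} ∅`: two such vertices form
a nonempty cycle with `s = 1` in dimension `0`, and `car σ ∅ ≠ {i}`. -/
theorem corner_unique (h : Ball Γ σ) {i : Fin d} {v w : Fin n} (hv : σ v = {i}) (hw : σ w = {i}) :
    v = w := by
  classical
  by_contra hvw
  have hB := h.ball {i} ∅ h.empty_mem (by simp [car])
  have hne : car σ (∅ : Finset (Fin n)) ≠ {i} := by
    simp only [car, biUnion_empty]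
    exact (singleton_ne_empty i).symm
  have hlk : ∀ u, σ u = {i} → ({u} : Finset (Fin n)) ∈ link Γ σ {i} ∅ := by
    intro u hu
    rw [link, mem_filter, union_empty]
    refine ⟨h.vertex u, disjoint_empty_right _, h.vertex u, ?_⟩
    rw [car, singleton_biUnion, hu]
  have hvw' : ({v} : Finset (Fin n)) ≠ {w} := fun e => hvw (singleton_injective e)
  have h1 := hB.boundary hne {{v}, {w}} (by
    rw [card_singleton, card_empty]
    refine ⟨?_, ?_, ?_⟩
    · intro G hG
      rw [mem_insert, mem_singleton] at hG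
      rcases hG with rfl | rfl
      · exact hlk v hv
      · exact hlk w hw
    · intro G hG
      rw [mem_insert, mem_singleton] at hG
      rcases hG with rfl | rfl <;> exact card_singleton _
    · intro E hE
      have h3 : E = ∅ := by
        rw [← card_eq_zero]
        omega
      rw [h3, filter_true_of_mem fun G _ => empty_subset G, card_pair hvw']
      exact even_two)
  exact insert_ne_empty _ _ h1

/-- A minimal interior face `N` with `#N + 2 = d` (or `#N + 1 = d`, or `#N = d`) which is not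
matchable. PROOF. Every `k ∈ N` has a private element `π k ∈ σ k`, in no other `σ k'`, by minimality;
`π` is injective, let `M` be the complement of its image, `#M = d - #N ≤ 2`. If `S` violates the
condition let `r` be the number of the `k ∈ N` whose carrier meets `S`. `#S ≤ r + #M` (the elements of
`S` outside `M` are the `π k` of `k` counted in `r`), `2 r < #S`, so `r < #M ≤ 2`; `r = 0` would give
`S = ∅` (`car σ N = univ`). So `r = 1`, `#S = 3`, `#M = 2`, `S = M ∪ {π k₁}`, and `k₁` is the only
element of `N` whose carrier meets `M`: `σ k₁ = S`, and `σ k = {π k}` for `k ≠ k₁` (an element of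
`σ k` is in `M` or it is some `π k'`, so `k' = k`). -/
theorem unmatchable_two {N : Finset (Fin n)} (hN : d ≤ #N + 2) (hc : car σ N = univ)
    (hmin : ∀ k ∈ N, car σ (N.erase k) ≠ univ) (hm : ¬ Matchable σ N) :
    #N + 2 = d ∧ ∃ k₁ ∈ N, #(σ k₁) = 3 ∧ ∀ k ∈ N, k ≠ k₁ → ∃ i, σ k = {i} := by
  classical
  have hcar : ∀ x : Fin d, ∃ k ∈ N, x ∈ σ k := by
    intro x
    have hx : x ∈ car σ N := by rw [hc]; exact mem_univ x
    rw [car, mem_biUnion] at hx
    exact hx
  have hpriv : ∀ k ∈ N, ∃ i, i ∈ σ k ∧ ∀ k' ∈ N, k' ≠ k → i ∉ σ k' := by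
    intro k hk
    have h1 := hmin k hk
    rw [Ne, eq_univ_iff_forall, not_forall] at h1
    obtain ⟨i, hi⟩ := h1
    have hi' : ∀ k' ∈ N, k' ≠ k → i ∉ σ k' := by
      intro k' hk' hne hik
      exact hi (mem_biUnion.mpr ⟨k', mem_erase.mpr ⟨hne, hk'⟩, hik⟩)
    obtain ⟨k', hk', hik⟩ := hcar i
    by_cases he : k' = k
    · exact ⟨i, he ▸ hik, hi'⟩
    · exact absurd hik (hi' k' hk' he)
  rw [Matchable, not_forall] at hm
  obtain ⟨S, hS⟩ := hm
  rw [not_le] at hS
  have hSne : S.Nonempty := card_pos.mp (by omega)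
  have hFin : Nonempty (Fin d) := ⟨hSne.choose⟩
  choose! π hπ hπ' using hpriv
  have hinj : Set.InjOn π (N : Set (Fin n)) := by
    intro x hx y hy hxy
    by_contra hne
    exact hπ' x hx y hy (fun e => hne e.symm) (hxy ▸ hπ y hy)
  set M : Finset (Fin d) := univ \ N.image π with hM
  have hcardI : #(N.image π) = #N := card_image_of_injOn hinj
  have hcardM : #M + #N = d := by
    have h1 := card_sdiff_add_card_eq_card (subset_univ (N.image π))
    rw [card_univ, Fintype.card_fin, hcardI] at h1
    exact h1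
  have hnotM : ∀ x, x ∉ M → ∃ k ∈ N, x = π k := by
    intro x hx
    rw [hM, mem_sdiff, not_and, not_not] at hx
    obtain ⟨k, hk, he⟩ := mem_image.mp (hx (mem_univ x))
    exact ⟨k, hk, he.symm⟩
  set T : Finset (Fin n) := {k ∈ N | (σ k ∩ S).Nonempty} with hT
  have hTmem : ∀ k ∈ N, ∀ x ∈ σ k, x ∈ S → k ∈ T := by
    intro k hk x hx hxS
    rw [hT, mem_filter]
    exact ⟨hk, x, mem_inter.mpr ⟨hx, hxS⟩⟩
  have hSM : S \ M ⊆ T.image π := by
    intro x hx
    rw [mem_sdiff] at hx
    obtain ⟨k, hk, rfl⟩ := hnotM x hx.2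
    exact mem_image_of_mem π (hTmem k hk _ (hπ k hk) hx.1)
  have hSM2 : #(S \ M) ≤ #T := (card_le_card hSM).trans card_image_le
  have hSsplit : #(S \ M) + #(S ∩ M) = #S := card_sdiff_add_card_inter S M
  have hSM3 : #(S ∩ M) ≤ #M := card_le_card inter_subset_right
  have hT0 : 0 < #T := by
    have hS0 : 0 < #S := by omega
    obtain ⟨x, hx⟩ := card_pos.mp hS0
    obtain ⟨k, hk, hxk⟩ := hcar x
    exact card_pos.mpr ⟨k, hTmem k hk x hxk hx⟩
  have hT1 : #T = 1 := by omega
  have hM2 : #M = 2 := by omega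
  have hS3 : #S = 3 := by omega
  have hd2 : #N + 2 = d := by omega
  obtain ⟨k₁, hk₁⟩ := card_eq_one.mp hT1
  have hk₁N : k₁ ∈ N := by
    have : k₁ ∈ T := by rw [hk₁]; exact mem_singleton_self _
    exact (mem_filter.mp this).1
  have huniq : ∀ k ∈ N, ∀ x ∈ σ k, x ∈ S → k = k₁ := by
    intro k hk x hx hxS
    have := hTmem k hk x hx hxS
    rw [hk₁, mem_singleton] at this
    exact this
  have hMS : M ⊆ S := by
    have h1 : S ∩ M = M := eq_of_subset_of_card_le inter_subset_right (by omega)
    rw [← h1]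
    exact inter_subset_left
  have hSσ : S ⊆ σ k₁ := by
    intro x hx
    obtain ⟨k, hk, hxk⟩ := hcar x
    rwa [huniq k hk x hxk hx] at hxk
  have hπS : π k₁ ∈ S := by
    have h1 : 0 < #(S \ M) := by omega
    obtain ⟨x, hx⟩ := card_pos.mp h1
    rw [mem_sdiff] at hx
    obtain ⟨k, hk, rfl⟩ := hnotM x hx.2
    have := huniq k hk _ (hπ k hk) hx.1
    rw [← this]
    exact hx.1
  have hpi : ∀ k ∈ N, ∀ x ∈ σ k, x ∉ M → x = π k := by
    intro k hk x hx hxM
    obtain ⟨k', hk', rfl⟩ := hnotM x hxM
    by_contra hne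
    exact hπ' k' hk' k hk (fun e => hne (by rw [e])) hx
  have hσS : σ k₁ = S := by
    refine Subset.antisymm ?_ hSσ
    intro x hx
    by_cases hxM : x ∈ M
    · exact hMS hxM
    · rw [hpi k₁ hk₁N x hx hxM]
      exact hπS
  refine ⟨hd2, k₁, hk₁N, by rw [hσS]; exact hS3, ?_⟩
  intro k hk hne
  refine ⟨π k, ?_⟩
  ext x
  rw [mem_singleton]
  constructor
  · intro hx
    by_cases hxM : x ∈ M
    · exact absurd (huniq k hk x hx (hMS hxM)) hne
    · exact hpi k hk x hx hxM
  · rintro rfl
    exact hπ k hk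

/-- The step. PROOF. If `N` is matchable use `r3`, if it is not minimal use `r1`. Otherwise
`unmatchable_two`: `#N = t ≥ 3`, let `k₂ ∈ N`, `k₂ ≠ k₁`, `σ k₂ = {i}`, `N' = N.erase k₂`; `i ∉ car σ N'`
by minimality and `car σ N' = univ.erase i`. In the relation `r2` for `N'` and `i` consider a `k ≠ k₂`:
`i ∈ σ k`, `insert k N' ∈ Γ`; `k ∉ N'`, so `#(insert k N') = t`; the carrier is `univ`. If
`insert k N'` is not minimal, `f = 0` by `r1`, if it is matchable, `f = 0` by `r3`. Otherwise
`unmatchable_two` for `insert k N'`: only one element has a carrier which is not a singleton; `k₁` is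
in it with `#(σ k₁) = 3`, so `σ k` is a singleton, `σ k = {i}`, and `k = k₂` by `corner_unique`. So the
relation says `a i k₂ * f N = 0`. -/
theorem comb_two (h : Ball Γ σ) (ha : ∀ i j, i ∈ σ j → a i j ≠ 0) {t s : ℕ} (hts : t + s = d)
    (hst : s < t) (hs : s ≤ 2) (f : Finset (Fin n) → K)
    (r1 : ∀ N ∈ Γ, #N = t → ∀ k ∈ N, car σ (N.erase k) = univ → f N = 0)
    (r2 : ∀ N ∈ Γ, #N + 1 = t → ∀ i, car σ N = univ.erase i →
      ∑ k ∈ univ.filter (fun k => i ∈ σ k ∧ insert k N ∈ Γ), a i k * f (insert k N) = 0)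
    (r3 : ∀ N ∈ Γ, #N = t → car σ N = univ → Matchable σ N → f N = 0) :
    ∀ N ∈ Γ, #N = t → car σ N = univ → f N = 0 := by
  classical
  intro N hN hNt hc
  by_cases hm : Matchable σ N
  · exact r3 N hN hNt hc hm
  by_cases hmin : ∀ k ∈ N, car σ (N.erase k) ≠ univ
  swap
  · push Not at hmin
    obtain ⟨k, hk, hk'⟩ := hmin
    exact r1 N hN hNt k hk hk'
  obtain ⟨hd2, k₁, hk₁, hσ₁, hsing⟩ := unmatchable_two (by omega) hc hmin hm
  have h1lt : 1 < #N := by omega
  obtain ⟨k₂, hk₂, hne⟩ := exists_mem_ne h1lt k₁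
  obtain ⟨i, hi⟩ := hsing k₂ hk₂ hne
  have hins : insert k₂ (N.erase k₂) = N := insert_erase hk₂
  have hcN : car σ N = σ k₂ ∪ car σ (N.erase k₂) := by
    conv_lhs => rw [← hins]
    rw [car, car, biUnion_insert]
  have hi' : i ∉ car σ (N.erase k₂) := by
    intro hmem
    apply hmin k₂ hk₂
    rw [← hc, hcN, hi]
    exact (union_eq_right.mpr (singleton_subset_iff.mpr hmem)).symm
  have hcar' : car σ (N.erase k₂) = univ.erase i := by
    ext x
    rw [mem_erase]
    constructor
    · intro hx
      exact ⟨fun e => hi' (e ▸ hx), mem_univ x⟩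
    · rintro ⟨hx, -⟩
      have h2 : x ∈ car σ N := by rw [hc]; exact mem_univ x
      rw [hcN, hi, mem_union, mem_singleton] at h2
      rcases h2 with h2 | h2
      · exact absurd h2 hx
      · exact h2
  have hk₁' : k₁ ∈ N.erase k₂ := mem_erase.mpr ⟨fun e => hne e.symm, hk₁⟩
  have hsum := r2 (N.erase k₂) (h.down N hN _ (erase_subset _ _))
    (by rw [card_erase_of_mem hk₂]; omega) i hcar'
  rw [sum_eq_single k₂] at hsum
  · rw [hins] at hsum
    rcases mul_eq_zero.mp hsum with h3 | h3
    · exact absurd h3 (ha i k₂ (by rw [hi]; exact mem_singleton_self i))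
    · exact h3
  · intro k hk hkne
    rw [mem_filter] at hk
    have hkN : k ∉ N.erase k₂ := fun hmem => hi' (mem_biUnion.mpr ⟨k, hmem, hk.2.1⟩)
    have hcard : #(insert k (N.erase k₂)) = t := by
      rw [card_insert_of_notMem hkN, card_erase_of_mem hk₂]
      omega
    have hcu : car σ (insert k (N.erase k₂)) = univ := by
      rw [eq_univ_iff_forall]
      intro x
      rw [car, biUnion_insert, mem_union]
      by_cases hx : x = i
      · left
        rw [hx]
        exact hk.2.1
      · right
        have h4 : x ∈ car σ (N.erase k₂) := by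
          rw [hcar']
          exact mem_erase.mpr ⟨hx, mem_univ x⟩
        exact h4
    have hf0 : f (insert k (N.erase k₂)) = 0 := by
      by_cases hm' : Matchable σ (insert k (N.erase k₂))
      · exact r3 _ hk.2.2 hcard hcu hm'
      by_cases hmin' : ∀ k' ∈ insert k (N.erase k₂),
          car σ ((insert k (N.erase k₂)).erase k') ≠ univ
      swap
      · push Not at hmin'
        obtain ⟨k', hk', hk''⟩ := hmin'
        exact r1 _ hk.2.2 hcard k' hk' hk''
      exfalso
      obtain ⟨-, k₃, hk₃, hσ₃, hsing'⟩ := unmatchable_two (by omega) hcu hmin' hm'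
      have he : k₁ = k₃ := by
        by_contra hne3
        obtain ⟨j, hj⟩ := hsing' k₁ (mem_insert_of_mem hk₁') hne3
        rw [hj, card_singleton] at hσ₁
        omega
      have hkk : k ≠ k₃ := by
        rintro rfl
        exact hkN (he ▸ hk₁')
      obtain ⟨j, hj⟩ := hsing' k (mem_insert_self _ _) hkk
      have hij : i = j := by
        have := hk.2.1
        rw [hj, mem_singleton] at this
        exact this
      rw [← hij] at hj
      exact hkne (corner_unique h hj hi)
    rw [hf0, mul_zero]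
  · intro hnot
    exfalso
    apply hnot
    rw [mem_filter, hins, hi]
    exact ⟨mem_univ _, mem_singleton_self _, hN⟩

end Pool.Agent.Lib.MP_fd6ff4_co.Two
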