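import Mathlib
import Pool.Agent.Lib.MP_fd6ff4_co.Two.Defs

/-!
# Determinants in characteristic 2 as sums over bijections
-/

set_option autoImplicit false

open Finset

namespace Pool.Agent.Lib.MP_fd6ff4_co.Two

universe u

variable {d n : ℕ} {K : Type u} [Field K] (a : Fin d → Fin n → K)

private theorem sum_split (j : Fin d) (f : Fin n → ({l : Fin d // l ≠ j} → Fin n) → K) :
    ∑ I : Fin d → Fin n, f (I j) (fun l => I l.1) = ∑ v, ∑ I', f v I' := by
  rw [← Fintype.sum_prod_type (f := fun p : Fin n × ({l : Fin d // l ≠ j} → Fin n) => f p.1 p.2)]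
  exact Fintype.sum_equiv (Equiv.funSplitAt j (Fin n)) _ _ fun I => rfl

private theorem image_split (j : Fin d) (I : Fin d → Fin n) :
    univ.image I = insert (I j) (univ.image fun l : {l : Fin d // l ≠ j} => I l.1) := by
  ext v
  simp only [mem_image, mem_univ, true_and, mem_insert, Subtype.exists]
  constructor
  · rintro ⟨l, rfl⟩
    by_cases h : l = j
    · left; rw [h]
    · right; exact ⟨l, h, rfl⟩
  · rintro (rfl | ⟨l, -, rfl⟩)
    · exact ⟨j, rfl⟩
    · exact ⟨l, rfl⟩

private theorem card_ne (j : Fin d) : Fintype.card {l : Fin d // l ≠ j} + 1 = d := by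
  have := Fintype.card_subtype_compl (fun l : Fin d => l = j)
  simp only [Fintype.card_fin, Fintype.card_subtype_eq] at this
  have hd : 0 < d := j.pos
  have h : Fintype.card {l : Fin d // l ≠ j} = d - 1 := this
  omega

private theorem insert_image_iff {F : Finset (Fin n)} (hF : #F = d) {v : Fin n} (hv : v ∈ F)
    (j : Fin d) (I' : {l : Fin d // l ≠ j} → Fin n) :
    insert v (univ.image I') = F ↔ univ.image I' = F.erase v := by
  constructor
  · intro h
    symm
    apply Finset.eq_of_subset_of_card_le
    · intro u hu
      rw [mem_erase] at hu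
      have : u ∈ insert v (univ.image I') := by rw [h]; exact hu.2
      rw [mem_insert] at this
      exact this.resolve_left hu.1
    · have h1 : #(univ.image I') ≤ Fintype.card {l : Fin d // l ≠ j} := Finset.card_image_le
      have h2 := card_ne j
      rw [card_erase_of_mem hv, hF]
      omega
  · intro h
    rw [h, insert_erase hv]

/-- the sum over the columns as a sum over the bijections -/
private theorem row_eq {F : Finset (Fin n)} (hF : #F = d) (j : Fin d) (g : Fin n → K) :
    ∑ v ∈ F, g v * cof a (F.erase v) j =
      ∑ I ∈ univ.filter (fun I : Fin d → Fin n => univ.image I = F),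
        g (I j) * ∏ l : {l : Fin d // l ≠ j}, a l.1 (I l.1) := by
  have h1 := sum_split (K := K) j (fun v I' => if insert v (univ.image I') = F then
    g v * ∏ l : {l : Fin d // l ≠ j}, a l.1 (I' l) else 0)
  simp only [← image_split] at h1
  rw [Finset.sum_filter, h1, ← Finset.sum_subset (Finset.subset_univ F)]
  · apply Finset.sum_congr rfl
    intro v hv
    rw [cof, Finset.mul_sum, Finset.sum_filter]
    apply Finset.sum_congr rfl
    intro I' _
    simp only [insert_image_iff hF hv]
  · intro v _ hv
    apply Finset.sum_eq_zero
    intro I' _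
    rw [if_neg]
    intro h
    apply hv
    rw [← h]
    exact mem_insert_self _ _

/-- Expansion along a new column. PROOF (every characteristic). Both sides are sums over the pairs
`(i, I')`, `I' : {j // j ≠ i} → Fin n` with image `R`: for `I : Fin d → Fin n` with image
`insert w R` (`#R + 1 = d`, so `I` is injective) let `i` be the index with `I i = w` and `I'` the
restriction. (`Finset.sum_sigma'` and `Finset.sum_bij'` with the map
`(i, I') ↦ fun j => if h : j = i then w else I' ⟨j, h⟩`.) -/
theorem cof_sum_notMem {R : Finset (Fin n)} (hR : #R + 1 = d) {w : Fin n} (hw : w ∉ R) :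
    ∑ i, cof a R i * a i w = pdet a (insert w R) := by
  have hF : #(insert w R) = d := by rw [card_insert_of_notMem hw, hR]
  have hwF : w ∈ insert w R := mem_insert_self _ _
  -- the sum over the indices of the bijections
  have h1 : ∀ i : Fin d, cof a R i * a i w =
      ∑ I ∈ univ.filter (fun I : Fin d → Fin n => univ.image I = insert w R),
        if I i = w then ∏ l, a l (I l) else 0 := by
    intro i
    have h2 := row_eq a hF i (fun v => if v = w then a i w else 0)
    simp only [ite_mul, zero_mul] at h2
    rw [Finset.sum_ite_eq' _ w, if_pos hwF, erase_insert hw] at h2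
    rw [mul_comm, h2]
    apply Finset.sum_congr rfl
    intro I _
    by_cases h : I i = w
    · rw [if_pos h, if_pos h, Fintype.prod_eq_mul_prod_subtype_ne _ i, h]
    · rw [if_neg h, if_neg h]
  rw [Finset.sum_congr rfl fun i _ => h1 i, Finset.sum_comm, pdet]
  apply Finset.sum_congr rfl
  intro I hI
  rw [mem_filter] at hI
  have hinj : Function.Injective I := by
    have h3 : #(univ.image I) = #(univ : Finset (Fin d)) := by
      rw [hI.2, hF, card_univ, Fintype.card_fin]
    have := Finset.card_image_iff.1 h3
    rwa [coe_univ, Set.injOn_univ] at this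
  obtain ⟨i₀, -, hi₀⟩ := mem_image.1 (hI.2 ▸ hwF)
  rw [Finset.sum_eq_single i₀]
  · rw [if_pos hi₀]
  · intro i _ hi
    rw [if_neg]
    intro h
    exact hi (hinj (h.trans hi₀.symm))
  · intro h
    exact absurd (mem_univ _) h

/-- A column twice. PROOF. The left side is the sum of `a i w * ∏ j, a j (I' j)` over the pairs
`(i, I')` with the image of `I'` equal to `R`; `I'` is injective (`#R = d - 1`), let `j` be the
index with `I' j = w`. The pair `(j, I'')` with `I'' i = w`, `I'' = I'` at the other indices, has the
same product and is different (`i ≠ j`): `Finset.sum_involution` and `x + x = 0`. -/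
theorem cof_sum_mem [CharP K 2] {R : Finset (Fin n)} (hR : #R + 1 = d) {w : Fin n} (hw : w ∈ R) :
    ∑ i, cof a R i * a i w = 0 := by
  have h1 : ∀ i : Fin d, cof a R i * a i w =
      ∑ I : Fin d → Fin n, if I i = w ∧ univ.image (fun l : {l : Fin d // l ≠ i} => I l.1) = R then
        ∏ l, a l (I l) else 0 := by
    intro i
    have h2 := sum_split (K := K) i (fun v I' => if v = w ∧ univ.image I' = R then
      a i v * ∏ l : {l : Fin d // l ≠ i}, a l.1 (I' l) else 0)
    have h3 : ∀ I : Fin d → Fin n, (if I i = w ∧ univ.image (fun l : {l : Fin d // l ≠ i} => I l.1) = R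
        then ∏ l, a l (I l) else 0) = (if I i = w ∧ univ.image (fun l : {l : Fin d // l ≠ i} => I l.1) = R
        then a i (I i) * ∏ l : {l : Fin d // l ≠ i}, a l.1 (I l.1) else 0) := by
      intro I
      rw [← Fintype.prod_eq_mul_prod_subtype_ne (fun l => a l (I l)) i]
    rw [Finset.sum_congr rfl fun I _ => h3 I, h2, Finset.sum_eq_single w]
    · rw [cof, Finset.sum_filter, mul_comm, Finset.mul_sum]
      apply Finset.sum_congr rfl
      intro I' _
      by_cases h : univ.image I' = R
      · rw [if_pos h, if_pos ⟨rfl, h⟩]
      · rw [if_neg h, if_neg (fun h' => h h'.2), mul_zero]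
    · intro v _ hv
      apply Finset.sum_eq_zero
      intro I' _
      rw [if_neg (fun h' => hv h'.1)]
    · intro h
      exact absurd (mem_univ _) h
  rw [Finset.sum_congr rfl fun i _ => h1 i, Finset.sum_comm]
  apply Finset.sum_eq_zero
  intro I _
  by_cases hex : ∃ i, I i = w ∧ univ.image (fun l : {l : Fin d // l ≠ i} => I l.1) = R
  · obtain ⟨i, hi, him⟩ := hex
    have hinj : Function.Injective (fun l : {l : Fin d // l ≠ i} => I l.1) := by
      have h3 : #(univ.image (fun l : {l : Fin d // l ≠ i} => I l.1)) =
          #(univ : Finset {l : Fin d // l ≠ i}) := by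
        have := card_ne i
        rw [him, card_univ]
        omega
      have := Finset.card_image_iff.1 h3
      rwa [coe_univ, Set.injOn_univ] at this
    obtain ⟨⟨j, hj⟩, -, hjw⟩ := mem_image.1 (him ▸ hw)
    have hjw' : I j = w := hjw
    have hjm : univ.image (fun l : {l : Fin d // l ≠ j} => I l.1) = R := by
      rw [← him]
      ext v
      simp only [mem_image, mem_univ, true_and, Subtype.exists]
      constructor
      · rintro ⟨l, hl, rfl⟩
        by_cases h : l = i
        · exact ⟨j, hj, by rw [h, hi, hjw']⟩
        · exact ⟨l, h, rfl⟩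
      · rintro ⟨l, hl, rfl⟩
        by_cases h : l = j
        · exact ⟨i, fun h' => hj h'.symm, by rw [h, hi, hjw']⟩
        · exact ⟨l, h, rfl⟩
    have hN : ∀ k : Fin d, (I k = w ∧ univ.image (fun l : {l : Fin d // l ≠ k} => I l.1) = R) ↔
        k ∈ ({i, j} : Finset (Fin d)) := by
      intro k
      rw [mem_insert, mem_singleton]
      constructor
      · rintro ⟨hk, -⟩
        by_cases h : k = i
        · exact Or.inl h
        · right
          have := @hinj ⟨k, h⟩ ⟨j, hj⟩ (by change I k = I j; rw [hk, hjw'])
          exact congrArg Subtype.val this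
      · rintro (rfl | rfl)
        · exact ⟨hi, him⟩
        · exact ⟨hjw', hjm⟩
    simp only [hN]
    rw [← Finset.sum_filter, Finset.filter_mem_eq_inter, Finset.univ_inter,
      Finset.sum_pair (fun h => hj h.symm)]
    exact CharTwo.add_self_eq_zero _
  · apply Finset.sum_eq_zero
    intro i _
    rw [if_neg]
    intro h
    exact hex ⟨i, h⟩

/-- The second form of the inverse matrix. PROOF. `i = j`: as `cof_sum_notMem` (expansion of `pdet a F`
along the row `i`: `I ↦ (I i, I restricted to {l // l ≠ i})`). `i ≠ j`: the terms are given by `v ∈ F`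
and a bijection `I' : {l // l ≠ j} → F.erase v`; exchange `v` and `I' i`: the same product, another
pair, so the sum is `0` in characteristic 2. (Or: this is the product in the other order of two
square matrices with product `1`, if `pdet a F ≠ 0`; but the statement has no such hypothesis.) -/
theorem cof_row [CharP K 2] {F : Finset (Fin n)} (hF : #F = d) (i j : Fin d) :
    ∑ v ∈ F, a i v * cof a (F.erase v) j = if i = j then pdet a F else 0 := by
  rw [row_eq a hF j (fun v => a i v)]
  by_cases hij : i = j
  · subst hij
    rw [if_pos rfl, pdet]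
    apply Finset.sum_congr rfl
    intro I _
    rw [Fintype.prod_eq_mul_prod_subtype_ne _ i]
  · rw [if_neg hij]
    have hprod : ∀ I : Fin d → Fin n, a i (I j) * ∏ l : {l : Fin d // l ≠ j}, a l.1 (I l.1) =
        a i (I j) * (a i (I i) * ∏ l ∈ (univ.erase j).erase i, a l (I l)) := by
      intro I
      congr 1
      rw [Finset.mul_prod_erase (univ.erase j) (fun l => a l (I l))
        (by rw [mem_erase]; exact ⟨hij, mem_univ _⟩)]
      rw [Finset.prod_subtype (univ.erase j) (p := fun l => l ≠ j) (by simp) (fun l => a l (I l))]
    apply Finset.sum_involution (fun I _ => I ∘ Equiv.swap i j)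
    · intro I _
      have h1 : (a i ((I ∘ Equiv.swap i j) j) *
          ∏ l : {l : Fin d // l ≠ j}, a l.1 ((I ∘ Equiv.swap i j) l.1)) =
          a i (I j) * ∏ l : {l : Fin d // l ≠ j}, a l.1 (I l.1) := by
        rw [hprod, hprod]
        have h2 : ∏ l ∈ (univ.erase j).erase i, a l ((I ∘ Equiv.swap i j) l) =
            ∏ l ∈ (univ.erase j).erase i, a l (I l) := by
          apply Finset.prod_congr rfl
          intro l hl
          rw [mem_erase, mem_erase] at hl
          rw [Function.comp_apply, Equiv.swap_apply_of_ne_of_ne hl.1 hl.2.1]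
        rw [h2]
        simp only [Function.comp_apply, Equiv.swap_apply_left, Equiv.swap_apply_right]
        ring
      rw [h1]
      exact CharTwo.add_self_eq_zero _
    · intro I hI _ h
      rw [mem_filter] at hI
      have hinj : Function.Injective I := by
        have h3 : #(univ.image I) = #(univ : Finset (Fin d)) := by
          rw [hI.2, hF, card_univ, Fintype.card_fin]
        have := Finset.card_image_iff.1 h3
        rwa [coe_univ, Set.injOn_univ] at this
      have h4 := congrFun h i
      rw [Function.comp_apply, Equiv.swap_apply_left] at h4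
      exact hij (hinj h4.symm)
    · intro I hI
      rw [mem_filter] at hI ⊢
      refine ⟨mem_univ _, ?_⟩
      rw [Finset.image_comp, Finset.image_univ_equiv, hI.2]
    · intro I _
      funext l
      simp

end Pool.Agent.Lib.MP_fd6ff4_co.Two
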