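import Mathlib
import Pool.Agent.Lib.MP_fd6ff4_co.Two.Minor

/-!
# The restriction to a facet as a map to the polynomial ring in the `θ_i`
-/

set_option autoImplicit false

open Finset

namespace Pool.Agent.Lib.MP_fd6ff4_co.Two

universe u

variable {d n : ℕ} {K : Type u} [Field K] {a : Fin d → Fin n → K}

/-- `lf` is linear -/
theorem lf_sum {ι : Type*} (s : Finset ι) (r : ι → K) (c : ι → Fin d → K) :
    ∑ x ∈ s, MvPolynomial.C (r x) * lf (c x) = lf fun i => ∑ x ∈ s, r x * c x i := by
  simp only [lf, Finset.mul_sum]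
  rw [Finset.sum_comm]
  refine Finset.sum_congr rfl fun i _ => ?_
  rw [map_sum, Finset.sum_mul]
  refine Finset.sum_congr rfl fun x _ => ?_
  rw [map_mul, mul_assoc]

theorem lf_add (c c' : Fin d → K) : lf c + lf c' = lf (c + c') := by
  simp only [lf, Pi.add_apply, map_add, add_mul, Finset.sum_add_distrib]

private theorem rest_coeff_lf (c : Fin d → K) (i : Fin d) :
    MvPolynomial.coeff (Finsupp.single i 1) (lf c) = c i := by
  classical
  unfold lf
  rw [MvPolynomial.coeff_sum, Finset.sum_eq_single i]
  · rw [MvPolynomial.coeff_C_mul, MvPolynomial.coeff_X, if_pos rfl, mul_one]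
  · intro j _ hj
    rw [MvPolynomial.coeff_C_mul, MvPolynomial.coeff_X, if_neg, mul_zero]
    intro h
    exact hj (Finsupp.single_left_injective one_ne_zero h)
  · intro h
    exact absurd (Finset.mem_univ i) h

private theorem rest_lf_smul (r : K) (c : Fin d → K) :
    MvPolynomial.C r * lf c = lf fun i => r * c i := by
  unfold lf
  rw [Finset.mul_sum]
  refine Finset.sum_congr rfl fun i _ => ?_
  rw [map_mul, mul_assoc]

private theorem rest_lf_sub (c c' : Fin d → K) : lf c - lf c' = lf fun i => c i - c' i := by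
  unfold lf
  rw [← Finset.sum_sub_distrib]
  refine Finset.sum_congr rfl fun i _ => ?_
  rw [map_sub, sub_mul]

theorem lf_eq_zero {c : Fin d → K} : lf c = 0 ↔ c = 0 := by
  constructor
  · intro h
    funext i
    rw [← rest_coeff_lf c i, h, MvPolynomial.coeff_zero, Pi.zero_apply]
  · rintro rfl
    simp [lf]

theorem lf_hom (c : Fin d → K) : (lf c).IsHomogeneous 1 := by
  unfold lf
  refine MvPolynomial.IsHomogeneous.sum _ _ _ fun i _ => ?_
  exact MvPolynomial.isHomogeneous_C_mul_X _ _

/-- the value of the dual basis: for `v ∈ F` the form `bet a F (X v)` is `1` at the column `v` and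
`0` at the other columns of `F`. PROOF. `cof_sum_mem`, `cof_sum_notMem` for `R = F.erase v`. -/
theorem dual_basis [CharP K 2] {F : Finset (Fin n)} (hF : #F = d) (hdet : pdet a F ≠ 0)
    {v w : Fin n} (hv : v ∈ F) (hw : w ∈ F) :
    ∑ i, cof a (F.erase v) i / pdet a F * a i w = if v = w then 1 else 0 := by
  have hR : #(F.erase v) + 1 = d := by rw [Finset.card_erase_add_one hv, hF]
  have e : ∑ i, cof a (F.erase v) i / pdet a F * a i w =
      (∑ i, cof a (F.erase v) i * a i w) / pdet a F := by
    rw [Finset.sum_div]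
    exact Finset.sum_congr rfl fun i _ => by rw [div_mul_eq_mul_div]
  rw [e]
  split_ifs with hvw
  · subst hvw
    rw [cof_sum_notMem a hR (Finset.notMem_erase v F), Finset.insert_erase hv, div_self hdet]
  · rw [cof_sum_mem a hR (Finset.mem_erase.mpr ⟨fun h => hvw h.symm, hw⟩), zero_div]

/-- PROOF. `cof_row`: `∑ v ∈ F, a i v * (cof a (F.erase v) j / pdet a F)` is `1` for `i = j` and `0`
otherwise, `lf_sum`. -/
theorem bet_theta [CharP K 2] {F : Finset (Fin n)} (hF : #F = d) (hdet : pdet a F ≠ 0)
    (i : Fin d) : bet a F (theta a i) = MvPolynomial.X i := by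
  have e1 : bet a F (theta a i) = ∑ v ∈ F, MvPolynomial.C (a i v) *
      lf (fun j => cof a (F.erase v) j / pdet a F) := by
    unfold theta bet
    rw [map_sum]
    rw [← Finset.sum_subset (Finset.subset_univ F)]
    · refine Finset.sum_congr rfl fun v hv => ?_
      rw [map_mul, MvPolynomial.aeval_X, if_pos hv, MvPolynomial.aeval_C]
      rfl
    · intro v _ hv
      rw [map_mul, MvPolynomial.aeval_X, if_neg hv, mul_zero]
  rw [e1, lf_sum]
  have e2 : (fun j => ∑ v ∈ F, a i v * (cof a (F.erase v) j / pdet a F)) =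
      fun j => if i = j then 1 else 0 := by
    funext j
    have e3 : ∑ v ∈ F, a i v * (cof a (F.erase v) j / pdet a F) =
        (∑ v ∈ F, a i v * cof a (F.erase v) j) / pdet a F := by
      rw [Finset.sum_div]
      exact Finset.sum_congr rfl fun v _ => by rw [mul_div_assoc]
    rw [e3, cof_row a hF]
    split_ifs
    · exact div_self hdet
    · exact zero_div _
  rw [e2]
  unfold lf
  rw [Finset.sum_eq_single i]
  · simp only [if_true, map_one, one_mul]
  · intro j _ hj
    simp only [if_neg (fun h : i = j => hj h.symm), map_zero, zero_mul]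
  · intro h
    exact absurd (Finset.mem_univ i) h

/-- PROOF. `bet a F` maps `aeval (theta a) p` to `p`. -/
theorem bet_surjective [CharP K 2] {F : Finset (Fin n)} (hF : #F = d) (hdet : pdet a F ≠ 0) :
    Function.Surjective (bet a F) := by
  intro p
  refine ⟨MvPolynomial.aeval (theta a) p, ?_⟩
  have e : (bet a F).comp (MvPolynomial.aeval (theta a)) = AlgHom.id K _ := by
    refine MvPolynomial.algHom_ext fun i => ?_
    rw [AlgHom.comp_apply, MvPolynomial.aeval_X, bet_theta hF hdet]
    rfl
  have := DFunLike.congr_fun e p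
  simpa using this

/-- PROOF. Generators. -/
theorem Jd_mono {R G : Finset (Fin n)} (h : R ⊆ G) : Jd a G ≤ Jd a R := by
  refine Ideal.span_mono ?_
  rintro p ⟨c, hc, rfl⟩
  exact ⟨c, fun v hv => hc v (h hv), rfl⟩

/-- the restriction to the variables in `F` -/
private noncomputable def rest_res (F : Finset (Fin n)) :
    MvPolynomial (Fin n) K →ₐ[K] MvPolynomial (Fin n) K :=
  MvPolynomial.aeval fun v => if v ∈ F then MvPolynomial.X v else 0

private theorem rest_res_monomial (F : Finset (Fin n)) (m : Fin n →₀ ℕ) (c : K) :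
    rest_res F (MvPolynomial.monomial m c) =
      if m.support ⊆ F then MvPolynomial.monomial m c else 0 := by
  unfold rest_res
  rw [MvPolynomial.aeval_monomial]
  split_ifs with h
  · rw [MvPolynomial.monomial_eq]
    congr 1
    refine Finset.prod_congr rfl fun v hv => ?_
    simp only []
    rw [if_pos (h hv)]
  · rw [Finset.not_subset] at h
    obtain ⟨v, hv, hvF⟩ := h
    rw [Finsupp.prod, Finset.prod_eq_zero hv, mul_zero]
    rw [if_neg hvF, zero_pow (Finsupp.mem_support_iff.mp hv)]

private theorem rest_coeff_res (F : Finset (Fin n)) (p : MvPolynomial (Fin n) K)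
    (M : Fin n →₀ ℕ) : MvPolynomial.coeff M (rest_res F p) =
      if M.support ⊆ F then MvPolynomial.coeff M p else 0 := by
  classical
  induction p using MvPolynomial.induction_on' with
  | monomial m c =>
    rw [rest_res_monomial]
    by_cases h : m = M
    · subst h
      split_ifs <;> simp
    · split_ifs <;> simp [MvPolynomial.coeff_monomial, h]
  | add p q hp hq =>
    rw [map_add, MvPolynomial.coeff_add, hp, hq, MvPolynomial.coeff_add]
    split_ifs
    · rfl
    · exact add_zero 0

private theorem rest_bet_res (F : Finset (Fin n)) (p : MvPolynomial (Fin n) K) :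
    bet a F (rest_res F p) = bet a F p := by
  have e : (bet a F).comp (rest_res F) = bet a F := by
    refine MvPolynomial.algHom_ext fun v => ?_
    rw [AlgHom.comp_apply]
    unfold rest_res
    rw [MvPolynomial.aeval_X]
    split_ifs with h
    · rfl
    · rw [map_zero]
      unfold bet
      rw [MvPolynomial.aeval_X, if_neg h]
  exact DFunLike.congr_fun e p

/-- A preimage of `p` under `bet a F` contains only the variables `x_v`, `v ∈ F`. PROOF. The map `res`
(`X v ↦ X v` for `v ∈ F`, `0` for `v ∉ F`) satisfies `bet a F (res p) = bet a F p`. -/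
theorem exists_bet_eq [CharP K 2] {F : Finset (Fin n)} (hF : #F = d) (hdet : pdet a F ≠ 0)
    (s : MvPolynomial (Fin d) K) : ∃ p : MvPolynomial (Fin n) K, bet a F p = s ∧
      ∀ M, MvPolynomial.coeff M p ≠ 0 → M.support ⊆ F := by
  obtain ⟨p, hp⟩ := bet_surjective hF hdet s
  refine ⟨rest_res F p, ?_, ?_⟩
  · rw [rest_bet_res, hp]
  · intro M hM
    rw [rest_coeff_res] at hM
    by_contra hcon
    exact hM (if_neg hcon)

/-- the inverse map on the polynomials in the variables `x_v`, `v ∈ F` -/
private noncomputable def rest_al (a : Fin d → Fin n → K) (F : Finset (Fin n)) :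
    MvPolynomial (Fin d) K →ₐ[K] MvPolynomial (Fin n) K :=
  MvPolynomial.aeval fun i => ∑ v ∈ F, MvPolynomial.C (a i v) * MvPolynomial.X v

private theorem rest_al_lf (F : Finset (Fin n)) (c : Fin d → K) :
    rest_al a F (lf c) = ∑ v ∈ F, MvPolynomial.C (∑ i, c i * a i v) * MvPolynomial.X v := by
  unfold rest_al lf
  rw [map_sum]
  have e1 : ∀ i, (MvPolynomial.aeval fun i => ∑ v ∈ F, MvPolynomial.C (a i v) *
      (MvPolynomial.X v : MvPolynomial (Fin n) K)) (MvPolynomial.C (c i) * MvPolynomial.X i) =
      ∑ v ∈ F, MvPolynomial.C (c i * a i v) * MvPolynomial.X v := by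
    intro i
    rw [map_mul, MvPolynomial.aeval_X, MvPolynomial.aeval_C, Finset.mul_sum]
    refine Finset.sum_congr rfl fun v _ => ?_
    rw [map_mul, ← mul_assoc]
    rfl
  rw [Finset.sum_congr rfl fun i _ => e1 i, Finset.sum_comm]
  refine Finset.sum_congr rfl fun v _ => ?_
  rw [map_sum, Finset.sum_mul]

private theorem rest_al_bet [CharP K 2] {F : Finset (Fin n)} (hF : #F = d) (hdet : pdet a F ≠ 0)
    (p : MvPolynomial (Fin n) K) : rest_al a F (bet a F p) = rest_res F p := by
  have e : (rest_al a F).comp (bet a F) = rest_res F := by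
    refine MvPolynomial.algHom_ext fun v => ?_
    rw [AlgHom.comp_apply]
    unfold bet rest_res
    rw [MvPolynomial.aeval_X, MvPolynomial.aeval_X]
    split_ifs with h
    · rw [rest_al_lf, Finset.sum_eq_single v]
      · rw [dual_basis hF hdet h h, if_pos rfl, map_one, one_mul]
      · intro w hw hwv
        rw [dual_basis hF hdet h hw, if_neg (fun e => hwv e.symm), map_zero, zero_mul]
      · intro h'
        exact absurd h h'
    · rw [map_zero]
  exact DFunLike.congr_fun e p

private theorem rest_al_mem {F R : Finset (Fin n)} (_hR : R ⊆ F) {q : MvPolynomial (Fin d) K}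
    (hq : q ∈ Jd a R) : rest_al a F q ∈
      Ideal.span ((MvPolynomial.X : Fin n → MvPolynomial (Fin n) K) '' {v | v ∉ R}) := by
  have h : Jd a R ≤ (Ideal.span ((MvPolynomial.X : Fin n → MvPolynomial (Fin n) K) ''
      {v | v ∉ R})).comap (rest_al a F) := by
    unfold Jd
    rw [Ideal.span_le]
    rintro _ ⟨c, hc, rfl⟩
    rw [SetLike.mem_coe, Ideal.mem_comap, rest_al_lf]
    refine Ideal.sum_mem _ fun v _ => ?_
    by_cases hvR : v ∈ R
    · rw [hc v hvR, map_zero, zero_mul]
      exact Ideal.zero_mem _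
    · exact Ideal.mul_mem_left _ _ (Ideal.subset_span ⟨v, hvR, rfl⟩)
  exact h hq

private theorem rest_X_mem [CharP K 2] {F : Finset (Fin n)} (hF : #F = d) (hdet : pdet a F ≠ 0)
    {R : Finset (Fin n)} (hR : R ⊆ F) {v : Fin n} (hv : v ∉ R) :
    bet a F (MvPolynomial.X v) ∈ Jd a R := by
  unfold bet
  rw [MvPolynomial.aeval_X]
  split_ifs with h
  · refine Ideal.subset_span ⟨_, fun w hw => ?_, rfl⟩
    rw [dual_basis hF hdet h (hR hw), if_neg]
    rintro rfl
    exact hv hw
  · exact Ideal.zero_mem _

private theorem rest_vanish [CharP K 2] {F : Finset (Fin n)} (hF : #F = d) (hdet : pdet a F ≠ 0)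
    {c : Fin d → K} (hc : ∀ v ∈ F, ∑ i, c i * a i v = 0) : c = 0 := by
  funext j
  have e1 : c j * pdet a F = ∑ i, c i * ∑ v ∈ F, a i v * cof a (F.erase v) j := by
    rw [Finset.sum_eq_single j]
    · rw [cof_row a hF, if_pos rfl]
    · intro i _ hi
      rw [cof_row a hF, if_neg hi, mul_zero]
    · intro h
      exact absurd (Finset.mem_univ j) h
  have e2 : ∑ i, c i * ∑ v ∈ F, a i v * cof a (F.erase v) j =
      ∑ v ∈ F, (∑ i, c i * a i v) * cof a (F.erase v) j := by
    simp only [Finset.mul_sum, Finset.sum_mul]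
    rw [Finset.sum_comm]
    refine Finset.sum_congr rfl fun v _ => Finset.sum_congr rfl fun i _ => ?_
    ring
  have e3 : c j * pdet a F = 0 := by
    rw [e1, e2]
    refine Finset.sum_eq_zero fun v hv => ?_
    rw [hc v hv, zero_mul]
  exact (mul_eq_zero.mp e3).resolve_right hdet

/-- The kernel modulo `Jd a R`. PROOF. Let `α` be the algebra homomorphism `X i ↦ ∑ v ∈ F, a i v X_v`
from the second polynomial ring to the first one. Then `α (bet a F (X v)) = X v` for `v ∈ F`
(`dual_basis`), so `α (bet a F p) = res p` with `res` as in `exists_bet_eq`, and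
`α (lf c) = ∑ v ∈ F, (∑ i, c i * a i v) X_v`. So `α` maps `Jd a R` into the ideal spanned by the `X v`,
`v ∈ F \ R`. If `bet a F p ∈ Jd a R` then `res p` is in this ideal and
`MvPolynomial.mem_ideal_span_X_image` gives the result (for `M.support ⊆ R` the coefficient of
`res p` at `M` is the one of `p`). Conversely `p` is in the ideal spanned by the `X v`, `v ∉ R`, by
`mem_ideal_span_X_image`, and `bet a F (X v) ∈ Jd a R` for `v ∉ R` (`0` for `v ∉ F`, `dual_basis` for
`v ∈ F \ R`). -/
theorem bet_mem_Jd [CharP K 2] {F : Finset (Fin n)} (hF : #F = d) (hdet : pdet a F ≠ 0)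
    {R : Finset (Fin n)} (hR : R ⊆ F) (p : MvPolynomial (Fin n) K) :
    bet a F p ∈ Jd a R ↔ ∀ M : Fin n →₀ ℕ, M.support ⊆ R → MvPolynomial.coeff M p = 0 := by
  constructor
  · intro h M hM
    have h1 : rest_al a F (bet a F p) ∈ Ideal.span ((MvPolynomial.X : Fin n → MvPolynomial (Fin n) K) ''
        {v | v ∉ R}) := rest_al_mem hR h
    rw [rest_al_bet hF hdet, MvPolynomial.mem_ideal_span_X_image] at h1
    by_contra hcon
    obtain ⟨v, hv, hv0⟩ := h1 M (by
      rw [MvPolynomial.mem_support_iff, rest_coeff_res, if_pos (hM.trans hR)]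
      exact hcon)
    exact hv (hM (Finsupp.mem_support_iff.mpr hv0))
  · intro h
    have h1 : p ∈ Ideal.span ((MvPolynomial.X : Fin n → MvPolynomial (Fin n) K) ''
        {v | v ∉ R}) := by
      rw [MvPolynomial.mem_ideal_span_X_image]
      intro m hm
      by_contra hcon
      push Not at hcon
      refine (MvPolynomial.mem_support_iff.mp hm) (h m fun v hv => ?_)
      by_contra hvR
      exact (Finsupp.mem_support_iff.mp hv) (hcon v hvR)
    have h2 : Ideal.span ((MvPolynomial.X : Fin n → MvPolynomial (Fin n) K) '' {v | v ∉ R}) ≤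
        (Jd a R).comap (bet a F) := by
      rw [Ideal.span_le]
      rintro _ ⟨v, hv, rfl⟩
      exact rest_X_mem hF hdet hR hv
    exact h2 h1

/-- PROOF. The generators of `Jd a F` are zero: `lf c = bet a F (theta c)`; or: `c i` is a combination of
the `∑ i, c i * a i v`, `v ∈ F`, by `cof_row`. -/
theorem Jd_facet [CharP K 2] {F : Finset (Fin n)} (hF : #F = d) (hdet : pdet a F ≠ 0) :
    Jd a F = ⊥ := by
  rw [eq_bot_iff]
  unfold Jd
  rw [Ideal.span_le]
  rintro _ ⟨c, hc, rfl⟩
  rw [rest_vanish hF hdet hc, lf_eq_zero.mpr rfl]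
  exact Ideal.zero_mem _

/-- PROOF. `bet_mem_Jd` with `R = F` and `Jd_facet`. -/
theorem bet_eq_zero [CharP K 2] {F : Finset (Fin n)} (hF : #F = d) (hdet : pdet a F ≠ 0)
    (p : MvPolynomial (Fin n) K) :
    bet a F p = 0 ↔ ∀ M : Fin n →₀ ℕ, M.support ⊆ F → MvPolynomial.coeff M p = 0 := by
  rw [← bet_mem_Jd hF hdet (Finset.Subset.refl F) p, Jd_facet hF hdet, Ideal.mem_bot]

/-- PROOF. The two ring homomorphisms to the quotient by `Jd a R` agree on the variables: for `v ∈ R`
the difference of the two dual basis vectors vanishes on the columns in `R`, for `v ∉ R` both are in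
`Jd a R`. -/
theorem bet_sub_mem [CharP K 2] {F F' : Finset (Fin n)} (hF : #F = d) (hdet : pdet a F ≠ 0)
    (hF' : #F' = d) (hdet' : pdet a F' ≠ 0) {R : Finset (Fin n)} (hR : R ⊆ F) (hR' : R ⊆ F')
    (p : MvPolynomial (Fin n) K) : bet a F p - bet a F' p ∈ Jd a R := by
  have e : (Ideal.Quotient.mkₐ K (Jd a R)).comp (bet a F) =
      (Ideal.Quotient.mkₐ K (Jd a R)).comp (bet a F') := by
    refine MvPolynomial.algHom_ext fun v => ?_
    rw [AlgHom.comp_apply, AlgHom.comp_apply, Ideal.Quotient.mkₐ_eq_mk, Ideal.Quotient.eq]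
    by_cases hv : v ∈ R
    · have e1 : bet a F (MvPolynomial.X v) - bet a F' (MvPolynomial.X v) =
          lf fun i => cof a (F.erase v) i / pdet a F - cof a (F'.erase v) i / pdet a F' := by
        unfold bet
        rw [MvPolynomial.aeval_X, MvPolynomial.aeval_X, if_pos (hR hv), if_pos (hR' hv),
          rest_lf_sub]
      rw [e1]
      refine Ideal.subset_span ⟨_, fun w hw => ?_, rfl⟩
      simp only [sub_mul, Finset.sum_sub_distrib]
      rw [dual_basis hF hdet (hR hv) (hR hw), dual_basis hF' hdet' (hR' hv) (hR' hw), sub_self]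
    · exact Ideal.sub_mem _ (rest_X_mem hF hdet hR hv) (rest_X_mem hF' hdet' hR' hv)
  have e2 := DFunLike.congr_fun e p
  rw [AlgHom.comp_apply, AlgHom.comp_apply, Ideal.Quotient.mkₐ_eq_mk, Ideal.Quotient.eq] at e2
  exact e2

/-- The ideal of a ridge is principal. PROOF. `F = insert w R`. If `c` vanishes on the columns in `R`
then `c - (∑ i, c i * a i w) / pdet a F • cof a R` vanishes on all the columns in `F`
(`cof_sum_mem`, `cof_sum_notMem`), so it is `0` by `cof_row` (as in `Jd_facet`). And `cof a R`
vanishes on the columns in `R`. -/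
theorem Jd_ridge [CharP K 2] {F : Finset (Fin n)} (hF : #F = d) (hdet : pdet a F ≠ 0)
    {R : Finset (Fin n)} (hR : R ⊆ F) (hRd : #R + 1 = d) :
    Jd a R = Ideal.span {lf (cof a R)} := by
  obtain ⟨w, hwF, hwR⟩ : ∃ w ∈ F, w ∉ R := by
    by_contra hcon
    push Not at hcon
    have := Finset.card_le_card (fun v hv => hcon v hv : F ⊆ R)
    omega
  have hFw : insert w R = F := by
    refine Finset.eq_of_subset_of_card_le (Finset.insert_subset hwF hR) ?_
    rw [Finset.card_insert_of_notMem hwR, hRd, hF]
  refine le_antisymm ?_ ?_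
  · unfold Jd
    rw [Ideal.span_le]
    rintro _ ⟨c, hc, rfl⟩
    set r : K := (∑ i, c i * a i w) / pdet a F with hr
    have h0 : (fun i => c i - r * cof a R i) = 0 := by
      refine rest_vanish hF hdet fun v hv => ?_
      simp only [sub_mul, Finset.sum_sub_distrib]
      have e1 : ∑ i, r * cof a R i * a i v = r * ∑ i, cof a R i * a i v := by
        rw [Finset.mul_sum]
        exact Finset.sum_congr rfl fun i _ => by ring
      rw [e1]
      rw [← hFw, Finset.mem_insert] at hv
      rcases hv with rfl | hv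
      · rw [cof_sum_notMem a hRd hwR, hFw, hr, div_mul_cancel₀ _ hdet, sub_self]
      · rw [hc v hv, cof_sum_mem a hRd hv, mul_zero, sub_zero]
    have h1 : lf c = MvPolynomial.C r * lf (cof a R) := by
      rw [rest_lf_smul]
      congr 1
      funext i
      have := congrFun h0 i
      simp only [Pi.zero_apply] at this
      exact sub_eq_zero.mp this
    rw [SetLike.mem_coe, h1]
    exact Ideal.mul_mem_left _ _ (Ideal.subset_span rfl)
  · rw [Ideal.span_le, Set.singleton_subset_iff]
    exact Ideal.subset_span ⟨cof a R, fun v hv => cof_sum_mem a hRd hv, rfl⟩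

end Pool.Agent.Lib.MP_fd6ff4_co.Two
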