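import Mathlib
import Pool.Agent.Lib.MP_fd6ff4_co.Two.Rest

/-!
# Linear forms are prime; membership in the monomial ideals
-/

set_option autoImplicit false

open Finset

namespace Pool.Agent.Lib.MP_fd6ff4_co.Two

universe u

variable {d n : ℕ} {K : Type u} [Field K] {a : Fin d → Fin n → K}

private theorem lf_totalDegree {c : Fin d → K} (hc : c ≠ 0) : (lf c).totalDegree = 1 :=
  (lf_hom c).totalDegree fun h => hc (lf_eq_zero.1 h)

/-- PROOF. A nonzero linear form over a field is prime: irreducible, as a polynomial of total degree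
one is not a product of two nonconstant polynomials, and the polynomial ring is factorial
(`Irreducible.prime`). -/
theorem lf_prime {c : Fin d → K} (hc : c ≠ 0) : Prime (lf c) := by
  have h0 : lf c ≠ 0 := fun h => hc (lf_eq_zero.1 h)
  refine (MvPolynomial.irreducible_of_totalDegree_eq_one (lf_totalDegree hc) ?_).prime
  intro x hx
  by_contra hxu
  have hx0 : x = 0 := by
    by_contra h
    exact hxu (isUnit_iff_ne_zero.2 h)
  apply h0
  ext m
  have h1 := hx m
  rw [hx0, zero_dvd_iff] at h1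
  rw [h1, MvPolynomial.coeff_zero]

/-- PROOF. The quotient would be a constant by degree. -/
theorem lf_not_dvd {c c' : Fin d → K} (hc' : c' ≠ 0) (h : ∀ r : K, c' ≠ r • c) :
    ¬ lf c ∣ lf c' := by
  rintro ⟨q, hq⟩
  have h0' : lf c' ≠ 0 := fun h => hc' (lf_eq_zero.1 h)
  have hl0 : lf c ≠ 0 := fun h => h0' (by rw [hq, h, zero_mul])
  have hq0 : q ≠ 0 := fun h => h0' (by rw [hq, h, mul_zero])
  have hc : c ≠ 0 := fun h => hl0 (lf_eq_zero.2 h)
  have h1 := MvPolynomial.totalDegree_mul_of_isDomain hl0 hq0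
  rw [← hq, lf_totalDegree hc', lf_totalDegree hc] at h1
  have h2 : q.totalDegree = 0 := by omega
  rw [MvPolynomial.totalDegree_eq_zero_iff_eq_C] at h2
  set r := MvPolynomial.coeff 0 q with hr
  apply h r
  have h3 : lf c' = lf (r • c) := by
    rw [hq, h2, mul_comm, lf, lf, Finset.mul_sum]
    refine Finset.sum_congr rfl fun i _ => ?_
    rw [Pi.smul_apply, smul_eq_mul, MvPolynomial.C_mul, mul_assoc]
  have h4 : lf (c' + (-1 : K) • (r • c)) = 0 := by
    have h5 := lf_sum (univ : Finset (Fin 2)) ![1, -1] ![c', r • c]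
    have h6 : (fun i => ∑ x : Fin 2, (![1, -1] : Fin 2 → K) x * (![c', r • c] : Fin 2 → Fin d → K) x i) =
        c' + (-1 : K) • (r • c) := by
      ext i
      rw [Fin.sum_univ_two]
      simp
    rw [← h6, ← h5, Fin.sum_univ_two]
    simp [h3]
  have h7 := lf_eq_zero.1 h4
  have h8 : c' - r • c = 0 := by
    rw [sub_eq_add_neg, ← neg_one_smul K (r • c)]
    exact h7
  exact sub_eq_zero.1 h8

private theorem mon_eq (F : Finset (Fin n)) :
    mon K F = MvPolynomial.monomial (∑ v ∈ F, Finsupp.single v 1) (1 : K) := by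
  rw [mon, MvPolynomial.monomial_sum_one]
  rfl

private theorem sum_single_le {F : Finset (Fin n)} {M : Fin n →₀ ℕ} :
    (∑ v ∈ F, Finsupp.single v 1) ≤ M ↔ F ⊆ M.support := by
  have h1 : ∀ v, (∑ w ∈ F, Finsupp.single w 1 : Fin n →₀ ℕ) v = if v ∈ F then 1 else 0 := by
    intro v
    rw [Finsupp.finsetSum_apply]
    simp [Finsupp.single_apply]
  constructor
  · intro h v hv
    have h2 := h v
    rw [h1, if_pos hv] at h2
    rw [Finsupp.mem_support_iff]
    omega
  · intro h v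
    rw [h1]
    split_ifs with hv
    · have h2 := Finsupp.mem_support_iff.1 (h hv)
      omega
    · exact Nat.zero_le _

private theorem mem_mon {P : Finset (Fin n) → Prop} (p : MvPolynomial (Fin n) K) :
    p ∈ Ideal.span {f | ∃ F : Finset (Fin n), P F ∧ f = mon K F} ↔
      ∀ M : Fin n →₀ ℕ, MvPolynomial.coeff M p ≠ 0 → ∃ F, P F ∧ F ⊆ M.support := by
  have h1 : {f | ∃ F : Finset (Fin n), P F ∧ f = mon K F} =
      (fun s => MvPolynomial.monomial s (1 : K)) ''
        {s | ∃ F : Finset (Fin n), P F ∧ s = ∑ v ∈ F, Finsupp.single v 1} := by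
    ext f
    constructor
    · rintro ⟨F, hF, rfl⟩
      exact ⟨_, ⟨F, hF, rfl⟩, (mon_eq F).symm⟩
    · rintro ⟨s, ⟨F, hF, rfl⟩, rfl⟩
      exact ⟨F, hF, (mon_eq F).symm⟩
  rw [h1, MvPolynomial.mem_ideal_span_monomial_image]
  constructor
  · intro h M hM
    obtain ⟨s, ⟨F, hF, rfl⟩, hs⟩ := h M (MvPolynomial.mem_support_iff.2 hM)
    exact ⟨F, hF, sum_single_le.1 hs⟩
  · intro h M hM
    obtain ⟨F, hF, hs⟩ := h M (MvPolynomial.mem_support_iff.1 hM)
    exact ⟨_, ⟨F, hF, rfl⟩, sum_single_le.2 hs⟩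

/-- PROOF. `srIdeal` is a monomial ideal: a monomial `M` is in it iff `M.support ∉ Γ` (`down`).
`MvPolynomial.mem_ideal_span_monomial_image` with `mon K F = monomial (∑ v ∈ F, single v 1) 1`. -/
theorem mem_srIdeal {Γ : Finset (Finset (Fin n))} (hdown : ∀ F ∈ Γ, ∀ G, G ⊆ F → G ∈ Γ)
    (p : MvPolynomial (Fin n) K) :
    p ∈ srIdeal K Γ ↔ ∀ M : Fin n →₀ ℕ, M.support ∈ Γ → MvPolynomial.coeff M p = 0 := by
  rw [srIdeal, mem_mon]
  constructor
  · intro h M hM
    by_contra hc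
    obtain ⟨F, hF, hFM⟩ := h M hc
    exact hF (hdown _ hM F hFM)
  · intro h M hM
    exact ⟨M.support, fun hc => hM (h M hc), subset_rfl⟩

/-- PROOF. `interiorIdeal` is a monomial ideal. -/
theorem mem_interiorIdeal {Γ : Finset (Finset (Fin n))} {σ : Fin n → Finset (Fin d)}
    (p : MvPolynomial (Fin n) K) :
    p ∈ interiorIdeal K σ Γ ↔ ∀ M : Fin n →₀ ℕ, MvPolynomial.coeff M p ≠ 0 →
      ∃ G ∈ Γ, car σ G = univ ∧ G ⊆ M.support := by
  have h1 : interiorIdeal K σ Γ =
      Ideal.span {f | ∃ F : Finset (Fin n), (F ∈ Γ ∧ car σ F = univ) ∧ f = mon K F} := by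
    rw [interiorIdeal]
    congr 1
    ext f
    constructor
    · rintro ⟨G, hG, hc, rfl⟩
      exact ⟨G, ⟨hG, hc⟩, rfl⟩
    · rintro ⟨G, ⟨hG, hc⟩, rfl⟩
      exact ⟨G, hG, hc, rfl⟩
  rw [h1, mem_mon]
  constructor
  · intro h M hM
    obtain ⟨G, ⟨hG, hc⟩, hs⟩ := h M hM
    exact ⟨G, hG, hc, hs⟩
  · intro h M hM
    obtain ⟨G, hG, hc, hs⟩ := h M hM
    exact ⟨G, ⟨hG, hc⟩, hs⟩

end Pool.Agent.Lib.MP_fd6ff4_co.Two
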