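import Mathlib

/-!
# Projective dimension of modules: the few facts we need
-/

set_option autoImplicit false

open CategoryTheory

namespace Pool.Agent.Lib.MP_fd6ff4_co.Two

universe u

variable {R : Type u} [CommRing R]

/-- the projective dimension of `M` is smaller than `n` -/
def PdLT (R : Type u) [CommRing R] (M : Type u) [AddCommGroup M] [Module R M] (n : ℕ) : Prop :=
  HasProjectiveDimensionLT (ModuleCat.of R M) n

variable {A B C : Type u} [AddCommGroup A] [AddCommGroup B] [AddCommGroup C] [Module R A]
  [Module R B] [Module R C]

/-- PROOF. `hasProjectiveDimensionLT_of_iso` with `LinearEquiv.toModuleIso`. -/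
theorem PdLT.congr (e : A ≃ₗ[R] B) {n : ℕ} (h : PdLT R A n) : PdLT R B n := by
  unfold PdLT at h ⊢
  exact @hasProjectiveDimensionLT_of_iso _ _ _ _ _ e.toModuleIso n h

theorem PdLT.mono {n m : ℕ} (h : PdLT R A n) (hnm : n ≤ m) : PdLT R A m := by
  unfold PdLT at h ⊢
  exact @hasProjectiveDimensionLT_of_ge _ _ _ _ n m hnm h

private theorem pd_short {f : A →ₗ[R] B} {g : B →ₗ[R] C} (hf : Function.Injective f)
    (hg : Function.Surjective g) (hfg : Function.Exact f g) :
    (ModuleCat.shortComplexOfCompEqZero f g hfg.linearMap_comp_eq_zero).ShortExact :=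
  ModuleCat.shortComplex_shortExact _ hfg hf hg

/-- PROOF. `ShortComplex.ShortExact.hasProjectiveDimensionLT_X₁`. -/
theorem PdLT.left {f : A →ₗ[R] B} {g : B →ₗ[R] C} (hf : Function.Injective f)
    (hg : Function.Surjective g) (hfg : Function.Exact f g) {n : ℕ} (hB : PdLT R B n)
    (hC : PdLT R C (n + 1)) : PdLT R A n :=
  (pd_short hf hg hfg).hasProjectiveDimensionLT_X₁ n hB hC

/-- PROOF. `ShortComplex.ShortExact.hasProjectiveDimensionLT_X₂`. -/
theorem PdLT.middle {f : A →ₗ[R] B} {g : B →ₗ[R] C} (hf : Function.Injective f)
    (hg : Function.Surjective g) (hfg : Function.Exact f g) {n : ℕ} (hA : PdLT R A n)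
    (hC : PdLT R C n) : PdLT R B n :=
  (pd_short hf hg hfg).hasProjectiveDimensionLT_X₂ n hA hC

/-- PROOF. `ShortComplex.ShortExact.hasProjectiveDimensionLT_X₃`. -/
theorem PdLT.right {f : A →ₗ[R] B} {g : B →ₗ[R] C} (hf : Function.Injective f)
    (hg : Function.Surjective g) (hfg : Function.Exact f g) {n : ℕ} (hA : PdLT R A n)
    (hB : PdLT R B (n + 1)) : PdLT R C (n + 1) :=
  (pd_short hf hg hfg).hasProjectiveDimensionLT_X₃ n hA hB

/-- Finite products. PROOF. `Fintype.induction_empty_option` (or induction on a finite set of
indices): `PdLT.middle` for `A → A × B → B` and the linear equivalences of the product over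
`Option ι` with `M none × ∀ i, M (some i)`; the empty product is zero. -/
theorem PdLT.pi {ι : Type} [Finite ι] {M : ι → Type u} [∀ i, AddCommGroup (M i)]
    [∀ i, Module R (M i)] {n : ℕ} (h : ∀ i, PdLT R (M i) n) : PdLT R (∀ i, M i) n := by
  let P : Type → Prop := fun ι => ∀ (M : ι → Type u) (_ : ∀ i, AddCommGroup (M i))
    (_ : ∀ i, Module R (M i)), (∀ i, PdLT R (M i) n) → PdLT R (∀ i, M i) n
  have key : P ι := by
    refine Finite.induction_empty_option (P := P) ?_ ?_ ?_ ι
    · intro α β e hα M _ _ hM
      exact (hα (fun i => M (e i)) (fun i => inferInstance) (fun i => inferInstance)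
        (fun i => hM (e i))).congr (LinearEquiv.piCongrLeft R M e)
    · intro M _ _ _
      have : Limits.IsZero (ModuleCat.of R (∀ i, M i)) :=
        ModuleCat.isZero_of_subsingleton _
      have h0 : PdLT R (∀ i, M i) 0 := this.hasProjectiveDimensionLT_zero
      exact h0.mono (Nat.zero_le n)
    · intro α _ hα M _ _ hM
      have h1 : PdLT R (∀ i : α, M (some i)) n :=
        hα (fun i => M (some i)) (fun i => inferInstance) (fun i => inferInstance)
          (fun i => hM (some i))
      have h2 : PdLT R (M none) n := hM none
      let f : M none →ₗ[R] (∀ i, M i) :=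
        { toFun := fun x i => match i with
            | none => x
            | some _ => 0
          map_add' := fun x y => by
            funext i
            cases i <;> simp
          map_smul' := fun c x => by
            funext i
            cases i <;> simp }
      let g : (∀ i, M i) →ₗ[R] (∀ i : α, M (some i)) :=
        { toFun := fun x i => x (some i)
          map_add' := fun _ _ => rfl
          map_smul' := fun _ _ => rfl }
      refine PdLT.middle (f := f) (g := g) ?_ ?_ ?_ h2 h1
      · intro x y hxy
        exact congrFun hxy none
      · intro y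
        refine ⟨fun i => match i with
            | none => 0
            | some i => y i, ?_⟩
        rfl
      · intro x
        constructor
        · intro hx
          refine ⟨x none, ?_⟩
          funext i
          cases i with
          | none => rfl
          | some i => exact (congrFun hx i).symm
        · rintro ⟨y, rfl⟩
          rfl
  exact key M inferInstance inferInstance h

/-- PROOF. `projective_iff_hasProjectiveDimensionLT_one` and `IsProjective.iff_projective`. -/
theorem pdLT_one : PdLT R A 1 ↔ Module.Projective R A := by
  unfold PdLT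
  rw [← projective_iff_hasProjectiveDimensionLT_one]
  exact (IsProjective.iff_projective (R := R) A).symm

end Pool.Agent.Lib.MP_fd6ff4_co.Two
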