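import Mathlib
import Pool.Agent.Lib.MP_fd6ff4_co.Two.Rest
import Pool.Agent.Lib.MP_fd6ff4_co.Two.Comb
import Pool.Agent.Lib.MP_fd6ff4_co.Two.Pd

/-!
# The projective dimension of the quotient by `Jd a G`
-/

set_option autoImplicit false

open Finset

namespace Pool.Agent.Lib.MP_fd6ff4_co.Two

universe u

variable {d n : ℕ} {K : Type u} [Field K] {a : Fin d → Fin n → K}
  {Γ : Finset (Finset (Fin n))} {σ : Fin n → Finset (Fin d)}

private theorem bet_X {F : Finset (Fin n)} {v : Fin n} (hv : v ∈ F) :
    bet a F (MvPolynomial.X v) = lf fun i => cof a (F.erase v) i / pdet a F := by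
  unfold bet
  rw [MvPolynomial.aeval_X, if_pos hv]

/-- PROOF. `⊇` is `Jd_mono` and `dual_basis`. `⊆`: if `lf c` is a generator of `Jd a G` then
`lf c - lf r`, where `r` is `(∑ i, c i * a i v)` times the dual basis vector of `v` (the coefficients of
`bet a F (X v)`), is a generator of `Jd a (insert v G)`. -/
theorem Jd_insert [CharP K 2] {F : Finset (Fin n)} (hF : #F = d) (hdet : pdet a F ≠ 0)
    {G : Finset (Fin n)} {v : Fin n} (hv : v ∉ G) (hG : insert v G ⊆ F) :
    Jd a G = Jd a (insert v G) ⊔ Ideal.span {bet a F (MvPolynomial.X v)} := by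
  have hvF : v ∈ F := hG (mem_insert_self v G)
  have hGF : G ⊆ F := (subset_insert v G).trans hG
  refine le_antisymm ?_ (sup_le (Jd_mono (subset_insert v G)) ?_)
  · conv_lhs => unfold Jd
    rw [Ideal.span_le]
    rintro _ ⟨c, hc, rfl⟩
    set t : K := ∑ i, c i * a i v with ht
    have e : lf c = lf (fun i => c i + t * (cof a (F.erase v) i / pdet a F)) +
        MvPolynomial.C t * bet a F (MvPolynomial.X v) := by
      rw [bet_X hvF]
      have e2 : MvPolynomial.C t * lf (fun i => cof a (F.erase v) i / pdet a F) =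
          lf fun i => t * (cof a (F.erase v) i / pdet a F) := by
        unfold lf
        rw [Finset.mul_sum]
        refine Finset.sum_congr rfl fun i _ => ?_
        rw [map_mul, mul_assoc]
      rw [e2, lf_add]
      congr 1
      funext i
      simp only [Pi.add_apply]
      rw [add_assoc, CharTwo.add_self_eq_zero, add_zero]
    rw [SetLike.mem_coe, e]
    refine Submodule.add_mem_sup ?_ (Ideal.mul_mem_left _ _ (Ideal.subset_span rfl))
    refine Ideal.subset_span ⟨_, fun w hw => ?_, rfl⟩
    simp only [add_mul, Finset.sum_add_distrib]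
    have e3 : ∑ i, t * (cof a (F.erase v) i / pdet a F) * a i w =
        t * ∑ i, cof a (F.erase v) i / pdet a F * a i w := by
      rw [Finset.mul_sum]
      exact Finset.sum_congr rfl fun i _ => by ring
    rw [e3, dual_basis hF hdet hvF (hG hw)]
    rw [mem_insert] at hw
    rcases hw with rfl | hw
    · rw [if_pos rfl, mul_one, ← ht, CharTwo.add_self_eq_zero]
    · rw [if_neg (fun h : v = w => hv (h ▸ hw)), mul_zero, add_zero, hc w hw]
  · rw [Ideal.span_le, Set.singleton_subset_iff, SetLike.mem_coe, bet_X hvF]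
    refine Ideal.subset_span ⟨_, fun w hw => ?_, rfl⟩
    rw [dual_basis hF hdet hvF (hGF hw), if_neg (fun h : v = w => hv (h ▸ hw))]

/-- The form `bet a F (X v)` is not a zero divisor modulo `Jd a (insert v G)`. PROOF. Let
`s = bet a F p`; the product is `bet a F (X v * p)`. By `bet_mem_Jd` the coefficients of `X v * p` at
the `M` with `M.support ⊆ insert v G` are zero; so are those of `p` (`MvPolynomial.coeff_X_mul` at
`M + single v 1`). -/
theorem bet_regular [CharP K 2] {F : Finset (Fin n)} (hF : #F = d) (hdet : pdet a F ≠ 0)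
    {G : Finset (Fin n)} {v : Fin n} (hG : insert v G ⊆ F) (s : MvPolynomial (Fin d) K)
    (hs : bet a F (MvPolynomial.X v) * s ∈ Jd a (insert v G)) : s ∈ Jd a (insert v G) := by
  obtain ⟨p, rfl, -⟩ := exists_bet_eq hF hdet s
  rw [← map_mul, bet_mem_Jd hF hdet hG] at hs
  rw [bet_mem_Jd hF hdet hG]
  intro M hM
  rw [← MvPolynomial.coeff_X_mul M v p]
  apply hs
  refine Finsupp.support_add.trans (union_subset ?_ hM)
  refine Finsupp.support_single_subset.trans ?_
  rw [singleton_subset_iff]
  exact mem_insert_self v G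

/-- PROOF. Induction on `d - #G`, `F` a facet containing `G`. If `#G = d` then `G = F` and
`Jd a G = ⊥`, the quotient is the ring itself, projective. Otherwise `v ∈ F \ G` and
`0 → S ⧸ Jd a (insert v G) → S ⧸ Jd a (insert v G) → S ⧸ Jd a G → 0` is exact, the first map is the
multiplication by `bet a F (X v)`: `PdLT.right`. -/
theorem pd_quot [CharP K 2] {F : Finset (Fin n)} (hF : #F = d) (hdet : pdet a F ≠ 0)
    {G : Finset (Fin n)} (hG : G ⊆ F) :
    PdLT (MvPolynomial (Fin d) K) (MvPolynomial (Fin d) K ⧸ Jd a G) (d - #G + 1) := by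
  obtain ⟨k, hk⟩ : ∃ k, d - #G = k := ⟨_, rfl⟩
  induction k generalizing G with
  | zero =>
    have hle : #G ≤ d := hF ▸ card_le_card hG
    have hGF : G = F := eq_of_subset_of_card_le hG (by omega)
    subst hGF
    rw [hk, zero_add, pdLT_one]
    have e := Jd_facet (a := a) hF hdet
    exact Module.Projective.of_equiv
      (Submodule.quotEquivOfEqBot (Jd a G) e).symm
  | succ k ih =>
    obtain ⟨v, hvF, hvG⟩ : ∃ v ∈ F, v ∉ G := by
      by_contra hcon
      push Not at hcon
      have := card_le_card (fun v hv => hcon v hv : F ⊆ G)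
      omega
    have hG' : insert v G ⊆ F := insert_subset hvF hG
    have hc : #(insert v G) = #G + 1 := card_insert_of_notMem hvG
    have h1 := ih hG' (by omega)
    have h2 : d - #(insert v G) + 1 = k + 1 := by omega
    rw [h2] at h1
    rw [hk]
    let f : (MvPolynomial (Fin d) K ⧸ Jd a (insert v G)) →ₗ[MvPolynomial (Fin d) K]
        (MvPolynomial (Fin d) K ⧸ Jd a (insert v G)) :=
      LinearMap.lsmul _ _ (bet a F (MvPolynomial.X v))
    let g : (MvPolynomial (Fin d) K ⧸ Jd a (insert v G)) →ₗ[MvPolynomial (Fin d) K]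
        (MvPolynomial (Fin d) K ⧸ Jd a G) :=
      (Ideal.Quotient.factorₐ (MvPolynomial (Fin d) K)
        (Jd_mono (a := a) (subset_insert v G))).toLinearMap
    have hf : ∀ s : MvPolynomial (Fin d) K, f (Ideal.Quotient.mk _ s) =
        Ideal.Quotient.mk _ (bet a F (MvPolynomial.X v) * s) := fun s => rfl
    have hg : ∀ s : MvPolynomial (Fin d) K, g (Ideal.Quotient.mk _ s) =
        Ideal.Quotient.mk _ s := fun s => rfl
    refine PdLT.right (f := f) (g := g) ?_ ?_ ?_ h1 (h1.mono (Nat.le_succ _))
    · rw [injective_iff_map_eq_zero]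
      intro x hx
      obtain ⟨s, rfl⟩ := Ideal.Quotient.mk_surjective x
      rw [hf, Ideal.Quotient.eq_zero_iff_mem] at hx
      rw [Ideal.Quotient.eq_zero_iff_mem]
      exact bet_regular hF hdet hG' s hx
    · intro x
      obtain ⟨s, rfl⟩ := Ideal.Quotient.mk_surjective x
      exact ⟨Ideal.Quotient.mk _ s, hg s⟩
    · intro x
      obtain ⟨s, rfl⟩ := Ideal.Quotient.mk_surjective x
      rw [hg, Ideal.Quotient.eq_zero_iff_mem]
      constructor
      · intro hs
        rw [Jd_insert hF hdet hvG hG', Submodule.mem_sup] at hs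
        obtain ⟨y, hy, z, hz, rfl⟩ := hs
        rw [Ideal.mem_span_singleton'] at hz
        obtain ⟨r, rfl⟩ := hz
        refine ⟨Ideal.Quotient.mk _ r, ?_⟩
        rw [hf, map_add, Ideal.Quotient.eq_zero_iff_mem.2 hy, zero_add, mul_comm]
      · rintro ⟨y, hy⟩
        obtain ⟨r, rfl⟩ := Ideal.Quotient.mk_surjective y
        rw [hf, Ideal.Quotient.eq] at hy
        rw [Jd_insert hF hdet hvG hG']
        have e : s = (bet a F (MvPolynomial.X v) * r) -
            ((bet a F (MvPolynomial.X v) * r) - s) := by ring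
        rw [e]
        refine sub_mem (Ideal.mem_sup_right ?_) (Ideal.mem_sup_left hy)
        exact Ideal.mul_mem_right _ _ (Ideal.subset_span rfl)

/-- PROOF. `PdLT.pi`, `exists_facet`. -/
theorem pd_chain [CharP K 2] (h : Ball Γ σ) (hdet : ∀ F ∈ Γ, #F = d → pdet a F ≠ 0) (j : ℕ) :
    PdLT (MvPolynomial (Fin d) K) (Ch a Γ j) (d - j + 1) := by
  refine PdLT.pi fun G => ?_
  obtain ⟨F, hF, hFd, hGF⟩ := exists_facet h G.2.1
  have h1 := pd_quot hFd (hdet F hF hFd) hGF
  rwa [G.2.2] at h1

end Pool.Agent.Lib.MP_fd6ff4_co.Two
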