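import Mathlib
import Pool.Agent.Lib.MP_fd6ff4_co.Two.Comb

/-!
# Strong connectivity of the stars
-/

set_option autoImplicit false

open Finset

namespace Pool.Agent.Lib.MP_fd6ff4_co.Two

variable {d n : ℕ} {Γ : Finset (Finset (Fin n))} {σ : Fin n → Finset (Fin d)}

private theorem strong_aux (h : Ball Γ σ) (P : Finset (Fin n) → Prop) : ∀ m : ℕ,
    ∀ G ∈ Γ, #G + m = d →
    (∀ R ∈ Γ, #R + 1 = d → car σ R = univ → G ⊆ R → ∀ F ∈ Γ, ∀ F' ∈ Γ, #F = d → #F' = d →
      R ⊆ F → R ⊆ F' → P F → P F') →
    ∀ F ∈ Γ, #F = d → G ⊆ F → P F → ∀ F' ∈ Γ, #F' = d → G ⊆ F' → P F' := by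
  classical
  intro m
  induction m with
  | zero =>
    intro G hG hm _ F hF hFd hGF hP F' hF' hFd' hGF'
    have h1 : G = F := eq_of_subset_of_card_le hGF (by omega)
    have h2 : G = F' := eq_of_subset_of_card_le hGF' (by omega)
    rw [← h2, h1]
    exact hP
  | succ m ih =>
    intro G hG hm step F hF hFd hGF hP F' hF' hFd' hGF'
    -- the induction hypothesis for `insert w G`
    have key : ∀ w, w ∉ G → insert w G ∈ Γ → ∀ F₀ ∈ Γ, #F₀ = d → insert w G ⊆ F₀ → P F₀ →
        ∀ F₁ ∈ Γ, #F₁ = d → insert w G ⊆ F₁ → P F₁ := by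
      intro w hw hwG F₀ hF₀ hd₀ hs₀ hP₀ F₁ hF₁ hd₁ hs₁
      refine ih (insert w G) hwG (by rw [card_insert_of_notMem hw]; omega) ?_ F₀ hF₀ hd₀ hs₀ hP₀
        F₁ hF₁ hd₁ hs₁
      intro R hR hRd hRc hRG
      exact step R hR hRd hRc ((subset_insert w G).trans hRG)
    rcases Nat.eq_zero_or_pos m with hm0 | hm0
    · -- `G` is a ridge
      subst hm0
      by_cases hFF : F = F'
      · rw [← hFF]
        exact hP
      · have hc : car σ G = univ := by
          by_contra hc
          have h1 := ridge_boundary h hG hm hc
          rw [card_eq_one] at h1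
          obtain ⟨X, hX⟩ := h1
          have h2 : F ∈ ({F ∈ Γ | #F = d ∧ G ⊆ F} : Finset (Finset (Fin n))) :=
            mem_filter.mpr ⟨hF, hFd, hGF⟩
          have h3 : F' ∈ ({F ∈ Γ | #F = d ∧ G ⊆ F} : Finset (Finset (Fin n))) :=
            mem_filter.mpr ⟨hF', hFd', hGF'⟩
          rw [hX, mem_singleton] at h2 h3
          exact hFF (h2.trans h3.symm)
        exact step G hG hm hc (Subset.refl G) F hF F' hF' hFd hFd' hGF hGF' hP
    · -- the vertices of the link for which `P` holds
      set A : Finset (Fin n) := univ.filter fun w => w ∉ G ∧ insert w G ∈ Γ ∧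
        ∀ F₁ ∈ Γ, #F₁ = d → insert w G ⊆ F₁ → P F₁ with hA
      have memA : ∀ w, w ∈ A ↔ (w ∉ G ∧ insert w G ∈ Γ ∧
          ∀ F₁ ∈ Γ, #F₁ = d → insert w G ⊆ F₁ → P F₁) := by
        intro w
        rw [hA, mem_filter]
        exact ⟨fun h => h.2, fun h => ⟨mem_univ _, h⟩⟩
      have ext : ∀ X ∈ Γ, #X = d → G ⊆ X → ∃ w ∈ X, w ∉ G ∧ insert w G ⊆ X ∧ insert w G ∈ Γ := by
        intro X hX hXd hGX
        obtain ⟨w, hw, hwG⟩ := exists_mem_notMem_of_card_lt_card (show #G < #X by omega)
        have h1 : insert w G ⊆ X := insert_subset hw hGX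
        exact ⟨w, hw, hwG, h1, h.down X hX _ h1⟩
      obtain ⟨v, hvF, hvG, hvs, hvΓ⟩ := ext F hF hFd hGF
      have hvA : v ∈ A := (memA v).mpr ⟨hvG, hvΓ, key v hvG hvΓ F hF hFd hvs hP⟩
      obtain ⟨w, hwF, hwG, hws, hwΓ⟩ := ext F' hF' hFd' hGF'
      by_cases hwA : w ∈ A
      · exact ((memA w).mp hwA).2.2 F' hF' hFd' hws
      exfalso
      have hvw : v ≠ w := by
        intro he
        rw [he] at hvA
        exact hwA hvA
      have hlk : ∀ X : Finset (Fin n), X ∈ link Γ σ univ G ↔ X ∈ Γ ∧ Disjoint X G ∧ X ∪ G ∈ Γ := by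
        intro X
        rw [link, mem_filter]
        exact ⟨fun h => ⟨h.1, h.2.1, h.2.2.1⟩, fun h => ⟨h.1, h.2.1, h.2.2, subset_univ _⟩⟩
      have hcyc : IsCycle (link Γ σ univ G) 1 {{v}, {w}} := by
        refine ⟨?_, ?_, ?_⟩
        · intro X hX
          rw [mem_insert, mem_singleton] at hX
          rw [hlk]
          rcases hX with rfl | rfl
          · exact ⟨h.vertex v, disjoint_singleton_left.mpr hvG, hvΓ⟩
          · exact ⟨h.vertex w, disjoint_singleton_left.mpr hwG, hwΓ⟩
        · intro X hX
          rw [mem_insert, mem_singleton] at hX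
          rcases hX with rfl | rfl
          · exact card_singleton v
          · exact card_singleton w
        · intro E hE
          have h3 : E = ∅ := by
            rw [← card_eq_zero]
            omega
          rw [h3, filter_true_of_mem fun X _ => empty_subset X, card_pair]
          · exact even_two
          · intro he
            exact hvw (singleton_injective he)
      have hlt : 1 + #G < #(univ : Finset (Fin d)) := by
        rw [card_univ, Fintype.card_fin]
        omega
      obtain ⟨D, hD1, hD2, hD3⟩ := (h.ball univ G hG (subset_univ _)).low 1 hlt _ hcyc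
      -- every edge has an even number of ends in `A`
      have hev : ∀ e ∈ D, Even #{x ∈ A | {x} ⊆ e} := by
        intro e he
        by_contra hodd
        rw [Nat.not_even_iff_odd] at hodd
        have hsub : ({x ∈ A | {x} ⊆ e} : Finset (Fin n)) ⊆ e := by
          intro x hx
          rw [mem_filter, singleton_subset_iff] at hx
          exact hx.2
        have hce : #e = 2 := hD2 e he
        have hle := card_le_card hsub
        have h1 : #{x ∈ A | {x} ⊆ e} = 1 := by
          rcases hodd with ⟨k, hk⟩
          omega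
        obtain ⟨x, hx⟩ := card_eq_one.mp h1
        have hxm : x ∈ ({x ∈ A | {x} ⊆ e} : Finset (Fin n)) := by
          rw [hx]
          exact mem_singleton_self x
        rw [mem_filter, singleton_subset_iff] at hxm
        obtain ⟨y, hy, hyx⟩ := exists_mem_ne (show 1 < #e by omega) x
        have hyA : y ∉ A := by
          intro hyA
          have h2 : y ∈ ({x ∈ A | {x} ⊆ e} : Finset (Fin n)) := by
            rw [mem_filter, singleton_subset_iff]
            exact ⟨hyA, hy⟩
          rw [hx, mem_singleton] at h2
          exact hyx h2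
        have hel := (hlk e).mp (hD1 he)
        obtain ⟨F₁, hF₁, hd₁, hs₁⟩ := exists_facet h hel.2.2
        have hGF₁ : G ⊆ F₁ := subset_union_right.trans hs₁
        have heF₁ : e ⊆ F₁ := subset_union_left.trans hs₁
        have hP₁ : P F₁ := ((memA x).mp hxm.1).2.2 F₁ hF₁ hd₁ (insert_subset (heF₁ hxm.2) hGF₁)
        have hyG : y ∉ G := fun hyG => disjoint_left.mp hel.2.1 hy hyG
        have hys : insert y G ⊆ F₁ := insert_subset (heF₁ hy) hGF₁
        have hyΓ : insert y G ∈ Γ := h.down F₁ hF₁ _ hys
        exact hyA ((memA y).mpr ⟨hyG, hyΓ, key y hyG hyΓ F₁ hF₁ hd₁ hys hP₁⟩)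
      -- the double counting
      have hsum : ∑ x ∈ A, #{e ∈ D | {x} ⊆ e} = ∑ e ∈ D, #{x ∈ A | {x} ⊆ e} := by
        simp only [card_filter]
        exact sum_comm
      have hR : Even (∑ e ∈ D, #{x ∈ A | {x} ⊆ e}) := even_sum _ hev
      have hL : Odd (∑ x ∈ A, #{e ∈ D | {x} ⊆ e}) := by
        rw [← add_sum_erase A _ hvA]
        refine Odd.add_even ?_ ?_
        · exact (hD3 {v} (card_singleton v)).mp (mem_insert_self _ _)
        · refine even_sum _ ?_
          intro x hx
          rw [mem_erase] at hx
          rw [← Nat.not_odd_iff_even]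
          intro ho
          have h1 := (hD3 {x} (card_singleton x)).mpr ho
          rw [mem_insert, mem_singleton] at h1
          rcases h1 with h1 | h1
          · exact hx.1 (singleton_injective h1)
          · exact hwA (singleton_injective h1 ▸ hx.2)
      rw [hsum] at hL
      exact (Nat.not_even_iff_odd.mpr hL) hR

/-- The star of every face is strongly connected: a property of facets containing `G` which passes
from a facet to the next one through an interior ridge passes to all of them. PROOF. Induction on
`d - #G`. If `#G = d` then `F = G = F'`. If `#G + 1 = d` and `F ≠ F'`: `G` is an interior ridge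
(`ridge_boundary`), use `step` with `R = G`. If `#G + 2 ≤ d`: first, if `F` and `F'` have a common
vertex `v ∉ G`, the induction hypothesis for `insert v G`. Second, the vertices of the link of `G`
are connected by edges of the link: let `v ∈ F`, `v ∉ G`, and let `A` be the set of all the vertices `w`
of the link such that `P` holds for all the facets containing `insert w G`; `v ∈ A` by the
induction hypothesis and `hP`. If `w` is a vertex of the link not in `A` then `{{v}, {w}}` is a cycle
(`s = 1`, `s + #G < d`), so it is the boundary of a set `D` of edges of the link (`low`); the number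
of the pairs (an edge in `D`, an end of it in `A`) is odd, because every vertex is in an even number
of edges of `D` except `v` and `w`, and `v` is in `A` and `w` is not. So some edge `{x, y} ∈ D` has
exactly one end in `A`, say `x`. A facet containing `insert x (insert y G)` satisfies `P`, so by
the induction hypothesis for `insert y G` all the facets containing it satisfy `P`: `y ∈ A`, a
contradiction. So all the vertices of the link are in `A`; take a vertex of `F'` not in `G`. -/
theorem strong_connected (h : Ball Γ σ) (P : Finset (Fin n) → Prop) {G : Finset (Fin n)}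
    (hG : G ∈ Γ)
    (step : ∀ R ∈ Γ, #R + 1 = d → car σ R = univ → G ⊆ R → ∀ F ∈ Γ, ∀ F' ∈ Γ, #F = d → #F' = d →
      R ⊆ F → R ⊆ F' → P F → P F')
    {F : Finset (Fin n)} (hF : F ∈ Γ) (hFd : #F = d) (hGF : G ⊆ F) (hP : P F) :
    ∀ F' ∈ Γ, #F' = d → G ⊆ F' → P F' := by
  have hle := card_le h hG
  exact strong_aux h P (d - #G) G hG (by omega) step F hF hFd hGF hP

end Pool.Agent.Lib.MP_fd6ff4_co.Two
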