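import Mathlib
import Pool.Agent.Lib.MP_fd6ff4_co.Two.Rest
import Pool.Agent.Lib.MP_fd6ff4_co.Two.Strong
import Pool.Agent.Lib.MP_fd6ff4_co.Two.Mono
import Pool.Agent.Lib.MP_fd6ff4_co.Two.Coef

/-!
# The interior ideal and the face ring inside the product over the facets
-/

set_option autoImplicit false

open Finset

namespace Pool.Agent.Lib.MP_fd6ff4_co.Two

universe u

variable {d n : ℕ} {K : Type u} [Field K] {a : Fin d → Fin n → K}
  {Γ : Finset (Finset (Fin n))} {σ : Fin n → Finset (Fin d)}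

private theorem top_tau_apply (p : MvPolynomial (Fin n) K) (F : Fac Γ d) :
    tau a Γ p F = bet a F.1 p := rfl

/-- the sum over the facets of the subtype -/
private theorem top_sum_fac {N : Type*} [AddCommMonoid N] (R : Finset (Fin n))
    (f : Fac Γ d → N) (c : Finset (Fin n) → N) (hc : ∀ F : Fac Γ d, R ⊆ F.1 → c F.1 = f F)
    (hc0 : ∀ G, #G ≠ d → c G = 0) :
    ∑ G ∈ Γ.filter (fun G => R ⊆ G), c G =
      ∑ F ∈ univ.filter (fun F : Fac Γ d => R ⊆ F.1), f F := by
  classical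
  symm
  refine Finset.sum_bij_ne_zero (fun F _ _ => F.1) ?_ ?_ ?_ ?_
  · intro F hF _
    rw [mem_filter] at hF ⊢
    exact ⟨F.2.1, hF.2⟩
  · intro F _ _ F' _ _ h
    exact Subtype.ext h
  · intro G hG hne
    rw [mem_filter] at hG
    have hd : #G = d := by
      by_contra h
      exact hne (hc0 G h)
    refine ⟨⟨G, hG.1, hd⟩, ?_, ?_, rfl⟩
    · rw [mem_filter]
      exact ⟨mem_univ _, hG.2⟩
    · rw [← hc ⟨G, hG.1, hd⟩ hG.2]
      exact hne
  · intro F hF _
    rw [mem_filter] at hF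
    exact (hc F hF.2).symm

/-- Compatible polynomials on the facets come from one polynomial. -/
private theorem top_assemble (h : Ball Γ σ) (P : Fac Γ d → MvPolynomial (Fin n) K)
    (hP : ∀ M : Fin n →₀ ℕ, M.support ∈ Γ → ∀ F F' : Fac Γ d, M.support ⊆ F.1 →
      M.support ⊆ F'.1 → MvPolynomial.coeff M (P F) = MvPolynomial.coeff M (P F')) :
    ∃ y : MvPolynomial (Fin n) K,
      (∀ F : Fac Γ d, ∀ M : Fin n →₀ ℕ, M.support ⊆ F.1 →
        MvPolynomial.coeff M y = MvPolynomial.coeff M (P F)) ∧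
      ∀ M : Fin n →₀ ℕ, MvPolynomial.coeff M y ≠ 0 → M.support ∈ Γ := by
  classical
  have hfac : ∀ M : Fin n →₀ ℕ, M.support ∈ Γ → ∃ F : Fac Γ d, M.support ⊆ F.1 := by
    intro M hM
    obtain ⟨F, hF, hFd, hMF⟩ := exists_facet h hM
    exact ⟨⟨F, hF, hFd⟩, hMF⟩
  let t : (Fin n →₀ ℕ) → K := fun M =>
    if hM : M.support ∈ Γ then MvPolynomial.coeff M (P (hfac M hM).choose) else 0
  have ht : ∀ (M : Fin n →₀ ℕ) (F : Fac Γ d), M.support ⊆ F.1 →
      t M = MvPolynomial.coeff M (P F) := by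
    intro M F hMF
    have hM : M.support ∈ Γ := h.down F.1 F.2.1 _ hMF
    simp only [t, dif_pos hM]
    exact hP M hM _ _ (hfac M hM).choose_spec hMF
  have ht0 : ∀ M : Fin n →₀ ℕ, t M ≠ 0 → M.support ∈ Γ := by
    intro M hM
    by_contra hc
    exact hM (by simp only [t, dif_neg hc])
  let S : Finset (Fin n →₀ ℕ) := univ.biUnion fun F : Fac Γ d => (P F).support
  have hS : ∀ M, M ∉ S → t M = 0 := by
    intro M hM
    by_contra hc
    obtain ⟨F, hF⟩ := hfac M (ht0 M hc)
    rw [ht M F hF] at hc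
    apply hM
    simp only [S, mem_biUnion]
    exact ⟨F, mem_univ _, MvPolynomial.mem_support_iff.2 hc⟩
  have hco : ∀ M, MvPolynomial.coeff M (∑ M' ∈ S, MvPolynomial.monomial M' (t M')) = t M := by
    intro M
    rw [MvPolynomial.coeff_sum]
    simp only [MvPolynomial.coeff_monomial]
    rw [Finset.sum_ite_eq' S M]
    split_ifs with hM
    · rfl
    · exact (hS M hM).symm
  refine ⟨∑ M ∈ S, MvPolynomial.monomial M (t M), ?_, ?_⟩
  · intro F M hMF
    rw [hco, ht M F hMF]
  · intro M hM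
    rw [hco] at hM
    exact ht0 M hM

/-- PROOF. `tau p = 0` iff `bet a F p = 0` for all the facets, iff (`bet_eq_zero`) the coefficients of
`p` at the `M` with `M.support` in a facet are zero; by `exists_facet` these are the `M` with
`M.support ∈ Γ`; `mem_srIdeal`. -/
theorem tau_eq_zero [CharP K 2] (h : Ball Γ σ) (hdet : ∀ F ∈ Γ, #F = d → pdet a F ≠ 0)
    (p : MvPolynomial (Fin n) K) : tau a Γ p = 0 ↔ p ∈ srIdeal K Γ := by
  rw [mem_srIdeal h.down]
  constructor
  · intro h0 M hM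
    obtain ⟨F, hF, hFd, hMF⟩ := exists_facet h hM
    have h1 : bet a F p = 0 := congrFun h0 (⟨F, hF, hFd⟩ : Fac Γ d)
    exact (bet_eq_zero hFd (hdet F hF hFd) p).1 h1 M hMF
  · intro h0
    funext F
    change bet a F.1 p = 0
    rw [bet_eq_zero F.2.2 (hdet F.1 F.2.1 F.2.2)]
    intro M hM
    exact h0 M (h.down F.1 F.2.1 _ hM)

/-- The elements of the interior ideal satisfy the conditions. PROOF. Let `R` be a ridge. If `R` is
interior there are two facets `F`, `F'` containing it (`ridge_interior`) and `bet a F p + bet a F' p`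
`= bet a F p - bet a F' p` is in `Jd a R` (`bet_sub_mem`). If `R` is a boundary ridge there is one
facet `F` and `bet a F p ∈ Jd a R` by `bet_mem_Jd`: if `M.support ⊆ R` and `coeff M p ≠ 0` then
`M.support` contains an interior face (`mem_interiorIdeal`) and `R` is interior. -/
theorem tau_mem [CharP K 2] (h : Ball Γ σ) (hdet : ∀ F ∈ Γ, #F = d → pdet a F ≠ 0)
    {p : MvPolynomial (Fin n) K} (hp : p ∈ interiorIdeal K σ Γ) : tau a Γ p ∈ Z0 a Γ := by
  classical
  intro R hR hRd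
  by_cases hc : car σ R = univ
  · have h2 := ridge_interior h hR hRd hc
    have h3 : #(univ.filter fun F : Fac Γ d => R ⊆ F.1) = 2 := by
      rw [← h2]
      refine Finset.card_bij (fun F _ => F.1) ?_ ?_ ?_
      · intro F hF
        rw [mem_filter] at hF ⊢
        exact ⟨F.2.1, F.2.2, hF.2⟩
      · intro F _ F' _ hFF
        exact Subtype.ext hFF
      · intro G hG
        rw [mem_filter] at hG
        exact ⟨⟨G, hG.1, hG.2.1⟩, by rw [mem_filter]; exact ⟨mem_univ _, hG.2.2⟩, rfl⟩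
    obtain ⟨F, F', hFF, hset⟩ := Finset.card_eq_two.1 h3
    have hF : R ⊆ F.1 := by
      have : F ∈ univ.filter fun F : Fac Γ d => R ⊆ F.1 := by
        rw [hset]
        exact mem_insert_self _ _
      exact (mem_filter.1 this).2
    have hF' : R ⊆ F'.1 := by
      have : F' ∈ univ.filter fun F : Fac Γ d => R ⊆ F.1 := by
        rw [hset]
        exact mem_insert_of_mem (mem_singleton_self _)
      exact (mem_filter.1 this).2
    rw [hset, Finset.sum_pair hFF, top_tau_apply, top_tau_apply, ← CharTwo.sub_eq_add]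
    exact bet_sub_mem F.2.2 (hdet _ F.2.1 F.2.2) F'.2.2 (hdet _ F'.2.1 F'.2.2) hF hF' p
  · refine sum_mem fun F hF => ?_
    rw [mem_filter] at hF
    rw [top_tau_apply, bet_mem_Jd F.2.2 (hdet _ F.2.1 F.2.2) hF.2]
    intro M hM
    by_contra h0
    obtain ⟨G, _, hGc, hGM⟩ := (mem_interiorIdeal p).1 hp M h0
    apply hc
    rw [eq_univ_iff_forall]
    intro i
    have h1 : i ∈ car σ G := by
      rw [hGc]
      exact mem_univ i
    rw [car, mem_biUnion] at h1 ⊢
    obtain ⟨v, hv, hi⟩ := h1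
    exact ⟨v, hM (hGM hv), hi⟩

/-- PROOF. Modulo `Jd a R` the `bet a F p` for the facets `F ⊇ R` are all equal (`bet_sub_mem`), so
the sum of the `bet a F p * z F` is `bet a F₀ p` times the sum of the `z F`. -/
theorem tau_mul_mem [CharP K 2] (hdet : ∀ F ∈ Γ, #F = d → pdet a F ≠ 0)
    (p : MvPolynomial (Fin n) K) {z : Fac Γ d → MvPolynomial (Fin d) K} (hz : z ∈ Z0 a Γ) :
    tau a Γ p * z ∈ Z0 a Γ := by
  classical
  intro R hR hRd
  rcases (univ.filter fun F : Fac Γ d => R ⊆ F.1).eq_empty_or_nonempty with he | ⟨F₀, hF₀⟩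
  · rw [he, Finset.sum_empty]
    exact zero_mem _
  · rw [mem_filter] at hF₀
    have h1 : ∑ F ∈ univ.filter (fun F : Fac Γ d => R ⊆ F.1), (tau a Γ p * z) F =
        ∑ F ∈ univ.filter (fun F : Fac Γ d => R ⊆ F.1), (bet a F.1 p - bet a F₀.1 p) * z F +
          bet a F₀.1 p * ∑ F ∈ univ.filter (fun F : Fac Γ d => R ⊆ F.1), z F := by
      rw [Finset.mul_sum, ← Finset.sum_add_distrib]
      refine Finset.sum_congr rfl fun F _ => ?_
      rw [Pi.mul_apply, top_tau_apply]
      ring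
    rw [h1]
    refine add_mem (sum_mem fun F hF => ?_) (Ideal.mul_mem_left _ _ (hz R hR hRd))
    rw [mem_filter] at hF
    exact Ideal.mul_mem_right _ _
      (bet_sub_mem F.2.2 (hdet _ F.2.1 F.2.2) F₀.2.2 (hdet _ F₀.2.1 F₀.2.2) hF.2 hF₀.2 p)

/-- Every element of `Z0` comes from the interior ideal. PROOF. Choose `p F` with
`bet a F (p F) = z F` (`exists_bet_eq`). For every `M` with `G₀ = M.support ∈ Γ` the function
`F ↦ coeff M (p F)` for the facets `F ⊇ G₀`, `0` for the other `F`, is a cycle: for a ridge `R ⊇ G₀` the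
sum of the `z F` over the facets `F ⊇ R` is in `Jd a R`, it is congruent to
`bet a F₀ (∑ p F)` (`bet_sub_mem`), `F₀` one of them, and `bet_mem_Jd` says that the coefficient at
`M` is zero. So by `chain_top_boundary` it is zero if `G₀` is a boundary face and by
`chain_top_interior` it is constant `= t M` if `G₀` is interior. Let `p` be the sum of the
`monomial M (t M)` over the interior `M` (finitely many are not zero); then `p` is in the interior
ideal and `bet a F p = bet a F (p F)` (`bet_eq_zero` for the difference). -/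
theorem exists_of_mem_Z0 [CharP K 2] (h : Ball Γ σ) (hdet : ∀ F ∈ Γ, #F = d → pdet a F ≠ 0)
    {z : Fac Γ d → MvPolynomial (Fin d) K} (hz : z ∈ Z0 a Γ) :
    ∃ p ∈ interiorIdeal K σ Γ, tau a Γ p = z := by
  classical
  choose P hPz hPs using fun F : Fac Γ d =>
    exists_bet_eq (a := a) F.2.2 (hdet F.1 F.2.1 F.2.2) (z F)
  -- the chain of the coefficients at `M`
  let c : (Fin n →₀ ℕ) → Finset (Fin n) → K := fun M G =>
    if hG : G ∈ Γ ∧ #G = d ∧ M.support ⊆ G then
      MvPolynomial.coeff M (P ⟨G, hG.1, hG.2.1⟩) else 0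
  have hcF : ∀ (M : Fin n →₀ ℕ) (F : Fac Γ d), M.support ⊆ F.1 →
      c M F.1 = MvPolynomial.coeff M (P F) := by
    intro M F hMF
    simp only [c, dif_pos (⟨F.2.1, F.2.2, hMF⟩ : F.1 ∈ Γ ∧ #F.1 = d ∧ M.support ⊆ F.1)]
  have hc : ∀ (M : Fin n →₀ ℕ) (G : Finset (Fin n)), c M G ≠ 0 →
      G ∈ Γ ∧ #G = d ∧ M.support ⊆ G := by
    intro M G hG
    by_contra hne
    exact hG (by simp only [c, dif_neg hne])
  have hcyc : ∀ M : Fin n →₀ ℕ, M.support ∈ Γ → ∀ R ∈ Γ, M.support ⊆ R → #R + 1 = d →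
      ∑ G ∈ Γ.filter (fun G => R ⊆ G), c M G = 0 := by
    intro M _ R hR hMR hRd
    rw [top_sum_fac R (fun F => MvPolynomial.coeff M (P F)) (c M)
      (fun F hRF => hcF M F (hMR.trans hRF))
      (fun G hG => by
        by_contra hne
        exact hG (hc M G hne).2.1)]
    rcases (univ.filter fun F : Fac Γ d => R ⊆ F.1).eq_empty_or_nonempty with he | ⟨F₀, hF₀⟩
    · rw [he, Finset.sum_empty]
    · rw [mem_filter] at hF₀
      rw [← MvPolynomial.coeff_sum]
      refine (bet_mem_Jd F₀.2.2 (hdet _ F₀.2.1 F₀.2.2) hF₀.2 _).1 ?_ M hMR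
      rw [map_sum]
      have h1 : ∑ F ∈ univ.filter (fun F : Fac Γ d => R ⊆ F.1), bet a F₀.1 (P F) =
          ∑ F ∈ univ.filter (fun F : Fac Γ d => R ⊆ F.1),
            (bet a F₀.1 (P F) - bet a F.1 (P F)) +
          ∑ F ∈ univ.filter (fun F : Fac Γ d => R ⊆ F.1), z F := by
        rw [← Finset.sum_add_distrib]
        refine Finset.sum_congr rfl fun F _ => ?_
        rw [hPz F]
        ring
      rw [h1]
      refine add_mem (sum_mem fun F hF => ?_) (hz R hR hRd)
      rw [mem_filter] at hF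
      exact bet_sub_mem F₀.2.2 (hdet _ F₀.2.1 F₀.2.2) F.2.2 (hdet _ F.2.1 F.2.2) hF₀.2 hF.2 _
  have hbd : ∀ M : Fin n →₀ ℕ, M.support ∈ Γ → car σ M.support ≠ univ → ∀ F : Fac Γ d,
      M.support ⊆ F.1 → MvPolynomial.coeff M (P F) = 0 := by
    intro M hM hcar F hMF
    rw [← hcF M F hMF]
    exact chain_top_boundary h hM hcar (c M) (hc M)
      (fun R hR hMR hRd => hcyc M hM R hR hMR hRd) F.1
  obtain ⟨y, hy1, hy2⟩ := top_assemble h P (by
    intro M hM F F' hF hF'
    by_cases hcar : car σ M.support = univ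
    · rw [← hcF M F hF, ← hcF M F' hF']
      exact chain_top_interior h hM hcar (c M) (hc M)
        (fun R hR hMR hRd => hcyc M hM R hR hMR hRd) F.2.1 F.2.2 hF F'.2.1 F'.2.2 hF'
    · rw [hbd M hM hcar F hF, hbd M hM hcar F' hF'])
  refine ⟨y, ?_, ?_⟩
  · rw [mem_interiorIdeal]
    intro M hM
    have hMΓ := hy2 M hM
    obtain ⟨F, hF, hFd, hMF⟩ := exists_facet h hMΓ
    refine ⟨M.support, hMΓ, ?_, subset_rfl⟩
    by_contra hcar
    apply hM
    rw [hy1 ⟨F, hF, hFd⟩ M hMF]
    exact hbd M hMΓ hcar ⟨F, hF, hFd⟩ hMF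
  · funext F
    rw [top_tau_apply, ← hPz F, ← sub_eq_zero, ← map_sub,
      bet_eq_zero F.2.2 (hdet _ F.2.1 F.2.2)]
    intro M hM
    rw [MvPolynomial.coeff_sub, hy1 F M hM, sub_self]

/-- Functions which agree on the interior ridges come from the face ring. PROOF. Choose `p F` with
`bet a F (p F) = g F` (`exists_bet_eq`). Let `M` be given with `M.support ∈ Γ`. All the facets
`F ⊇ M.support` have the same coefficient of `p F` at `M`: `strong_connected` for `G = M.support` with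
`P F'` : the coefficient of `p F'` at `M` is `t`; the step: for `R ⊆ F`, `R ⊆ F'`, `M.support ⊆ R`:
`bet a F (p F) - bet a F' (p F') ∈ Jd a R` by hypothesis, so `bet a F (p F - p F') ∈ Jd a R` by
`bet_sub_mem`, and `bet_mem_Jd`. Now let `y = ∑ M, monomial M (t M)`, the sum over the finitely
many `M` in the supports of the `p F`. -/
theorem glue [CharP K 2] (h : Ball Γ σ) (hdet : ∀ F ∈ Γ, #F = d → pdet a F ≠ 0)
    (g : Fac Γ d → MvPolynomial (Fin d) K)
    (hg : ∀ R ∈ Γ, #R + 1 = d → car σ R = univ → ∀ F F' : Fac Γ d, R ⊆ F.1 → R ⊆ F'.1 →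
      g F - g F' ∈ Jd a R) :
    ∃ y : MvPolynomial (Fin n) K, tau a Γ y = g := by
  classical
  choose P hPz hPs using fun F : Fac Γ d =>
    exists_bet_eq (a := a) F.2.2 (hdet F.1 F.2.1 F.2.2) (g F)
  obtain ⟨y, hy1, -⟩ := top_assemble h P (by
    intro M hM F F' hF hF'
    have key := strong_connected h
      (fun G => ∀ hG : G ∈ Γ ∧ #G = d,
        MvPolynomial.coeff M (P ⟨G, hG⟩) = MvPolynomial.coeff M (P F)) hM
      (by
        intro R hR hRd hcar hMR G hG G' hG' hGd hGd' hRG hRG' hPG hG''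
        rw [← hPG ⟨hG, hGd⟩]
        have h1 := hg R hR hRd hcar ⟨G, hG, hGd⟩ ⟨G', hG', hGd'⟩ hRG hRG'
        have h2 : bet a G (P ⟨G, hG, hGd⟩ - P ⟨G', hG', hGd'⟩) ∈ Jd a R := by
          have h3 := bet_sub_mem hGd' (hdet G' hG' hGd') hGd (hdet G hG hGd) hRG' hRG
            (P ⟨G', hG', hGd'⟩)
          have h4 : bet a G (P ⟨G, hG, hGd⟩ - P ⟨G', hG', hGd'⟩) =
              (g ⟨G, hG, hGd⟩ - g ⟨G', hG', hGd'⟩) +
                (bet a G' (P ⟨G', hG', hGd'⟩) - bet a G (P ⟨G', hG', hGd'⟩)) := by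
            rw [map_sub]
            have e1 : bet a G (P ⟨G, hG, hGd⟩) = g ⟨G, hG, hGd⟩ := hPz ⟨G, hG, hGd⟩
            have e2 : bet a G' (P ⟨G', hG', hGd'⟩) = g ⟨G', hG', hGd'⟩ :=
              hPz ⟨G', hG', hGd'⟩
            rw [e1, e2]
            ring
          rw [h4]
          exact add_mem h1 h3
        have h5 := (bet_mem_Jd hGd (hdet G hG hGd) hRG _).1 h2 M hMR
        rw [MvPolynomial.coeff_sub, sub_eq_zero] at h5
        exact h5.symm)
      F.2.1 F.2.2 hF (fun _ => rfl)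
    exact (key F'.1 F'.2.1 F'.2.2 hF' F'.2).symm)
  refine ⟨y, ?_⟩
  funext F
  rw [top_tau_apply, ← hPz F, ← sub_eq_zero, ← map_sub,
    bet_eq_zero F.2.2 (hdet _ F.2.1 F.2.2)]
  intro M hM
  rw [MvPolynomial.coeff_sub, hy1 F M hM, sub_self]

end Pool.Agent.Lib.MP_fd6ff4_co.Two
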