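import Mathlib
import Pool.Agent.Lib.MP_fd6ff4_co.Two.Comb

/-!
# What algebraic independence gives
-/

set_option autoImplicit false

open Finset

namespace Pool.Agent.Lib.MP_fd6ff4_co.Two

universe u

variable {d n : ℕ} {K : Type u} [Field K] {a : Fin d → Fin n → K}
  {Γ : Finset (Finset (Fin n))} {σ : Fin n → Finset (Fin d)}

/-- A facet has a system of distinct representatives. PROOF. Hall's theorem
(`Finset.all_card_le_biUnion_card_iff_exists_injective`) for the sets `σ v`, `v ∈ F`: every subset of
`F` is a face, `card_le_car`. The injective map from `F` to `Fin d` is bijective; `I` is the inverse. -/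
theorem exists_sdr (h : Ball Γ σ) {F : Finset (Fin n)} (hF : F ∈ Γ) (hFd : #F = d) :
    ∃ I : Fin d → Fin n, univ.image I = F ∧ ∀ i, i ∈ σ (I i) := by
  classical
  obtain ⟨f, hf, hft⟩ := (Finset.all_card_le_biUnion_card_iff_exists_injective
    (fun v : {v // v ∈ F} => σ v.1)).1 (by
      intro s
      have hsub : s.map (Function.Embedding.subtype _) ⊆ F := by
        intro v hv
        obtain ⟨w, _, rfl⟩ := Finset.mem_map.1 hv
        exact w.2
      have h1 := card_le_car h (h.down F hF _ hsub)
      have h2 : car σ (s.map (Function.Embedding.subtype _)) = s.biUnion fun v => σ v.1 := by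
        ext i
        simp only [car, Finset.mem_biUnion, Finset.mem_map, Function.Embedding.coe_subtype]
        constructor
        · rintro ⟨v, ⟨w, hw, rfl⟩, hi⟩
          exact ⟨w, hw, hi⟩
        · rintro ⟨w, hw, hi⟩
          exact ⟨w.1, ⟨w, hw, rfl⟩, hi⟩
      rw [h2, Finset.card_map] at h1
      exact h1)
  have hbij : Function.Bijective f := by
    rw [Fintype.bijective_iff_injective_and_card]
    exact ⟨hf, by rw [Fintype.card_coe, hFd, Fintype.card_fin]⟩
  let e := Equiv.ofBijective f hbij
  have he : ∀ i, f (e.symm i) = i := fun i => e.apply_symm_apply i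
  refine ⟨fun i => (e.symm i).1, ?_, ?_⟩
  · ext v
    simp only [Finset.mem_image, Finset.mem_univ, true_and]
    constructor
    · rintro ⟨i, rfl⟩
      exact (e.symm i).2
    · intro hv
      exact ⟨e ⟨v, hv⟩, by rw [e.symm_apply_apply]⟩
  · intro i
    have h3 := hft (e.symm i)
    rw [he] at h3
    exact h3

/-- the monomial of `I`, zero if it has a factor which is zero -/
private noncomputable def indepM (k : Type*) [Field k] (σ : Fin n → Finset (Fin d))
    (I : Fin d → Fin n) : MvPolynomial (Idx σ) k :=
  ∏ i, if h : i ∈ σ (I i) then MvPolynomial.X ⟨(i, I i), h⟩ else 0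

private theorem indep_aeval {k : Type*} [Field k] [Algebra k K]
    (hzero : ∀ i j, i ∉ σ j → a i j = 0) (I : Fin d → Fin n) :
    MvPolynomial.aeval (fun p : Idx σ => a p.1.1 p.1.2) (indepM k σ I) = ∏ i, a i (I i) := by
  classical
  rw [indepM, map_prod]
  refine Finset.prod_congr rfl fun i _ => ?_
  by_cases h : i ∈ σ (I i)
  · rw [dif_pos h, MvPolynomial.aeval_X]
  · rw [dif_neg h, map_zero, hzero i (I i) h]

private theorem indep_eval {k : Type*} [Field k] (I J : Fin d → Fin n)
    (hJ : ∀ i, i ∈ σ (J i)) :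
    MvPolynomial.eval (fun p : Idx σ => if J p.1.1 = p.1.2 then (1 : k) else 0)
      (indepM k σ I) = if I = J then 1 else 0 := by
  classical
  rw [indepM, map_prod]
  by_cases hIJ : I = J
  · subst hIJ
    rw [if_pos rfl]
    refine Finset.prod_eq_one fun i _ => ?_
    rw [dif_pos (hJ i), MvPolynomial.eval_X, if_pos rfl]
  · rw [if_neg hIJ]
    obtain ⟨i, hi⟩ := Function.ne_iff.1 hIJ
    refine Finset.prod_eq_zero (Finset.mem_univ i) ?_
    by_cases h : i ∈ σ (I i)
    · rw [dif_pos h, MvPolynomial.eval_X, if_neg (fun h' => hi h'.symm)]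
    · rw [dif_neg h, map_zero]

/-- the exponent of `indepM` -/
private noncomputable def indepE (I : Fin d → Fin n) (hI : ∀ i, i ∈ σ (I i)) : Idx σ →₀ ℕ :=
  ∑ i, Finsupp.single ⟨(i, I i), hI i⟩ 1

private theorem indep_monomial {k : Type*} [Field k] (I : Fin d → Fin n)
    (hI : ∀ i, i ∈ σ (I i)) :
    indepM k σ I = MvPolynomial.monomial (indepE I hI) 1 := by
  classical
  rw [indepM, indepE, MvPolynomial.monomial_sum_one]
  refine Finset.prod_congr rfl fun i _ => ?_
  rw [dif_pos (hI i)]
  rfl

private theorem indepE_apply (I : Fin d → Fin n) (hI : ∀ i, i ∈ σ (I i)) (p : Idx σ) :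
    indepE I hI p = if I p.1.1 = p.1.2 then 1 else 0 := by
  classical
  rw [indepE, Finsupp.finsetSum_apply, Finset.sum_eq_single p.1.1]
  · rw [Finsupp.single_apply]
    refine if_congr ?_ rfl rfl
    obtain ⟨⟨i, j⟩, hp⟩ := p
    simp only [Subtype.mk.injEq, Prod.mk.injEq, true_and]
  · intro i _ hi
    rw [Finsupp.single_apply, if_neg]
    intro h
    exact hi (congrArg (fun q : Idx σ => q.1.1) h)
  · intro h
    exact absurd (Finset.mem_univ _) h

private theorem indep_zero {k : Type*} [Field k] (I : Fin d → Fin n)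
    (hI : ¬ ∀ i, i ∈ σ (I i)) : indepM k σ I = 0 := by
  classical
  push Not at hI
  obtain ⟨i, hi⟩ := hI
  rw [indepM]
  exact Finset.prod_eq_zero (Finset.mem_univ i) (dif_neg hi)

private theorem indep_sq {s : Type*} {k : Type*} [Field k] [CharP k 2]
    (q : MvPolynomial s k) : q ^ 2 = ∑ ν ∈ q.support,
      MvPolynomial.monomial (2 • ν) (q.coeff ν ^ 2) := by
  have : Fact (Nat.Prime 2) := ⟨Nat.prime_two⟩
  conv_lhs => rw [← MvPolynomial.support_sum_monomial_coeff q]
  rw [sum_pow_char]
  refine Finset.sum_congr rfl fun ν _ => ?_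
  rw [MvPolynomial.monomial_pow]

private theorem indep_sq_odd {s : Type*} {k : Type*} [Field k] [CharP k 2]
    (q : MvPolynomial s k) {κ : s →₀ ℕ} {x : s} (hx : Odd (κ x)) : (q ^ 2).coeff κ = 0 := by
  classical
  rw [indep_sq, MvPolynomial.coeff_sum]
  refine Finset.sum_eq_zero fun ν _ => ?_
  rw [MvPolynomial.coeff_monomial, if_neg]
  intro h
  rw [← h] at hx
  simp only [Finsupp.smul_apply, smul_eq_mul] at hx
  exact (Nat.not_odd_iff_even.2 (even_two_mul _)) hx

private theorem indep_sq_even {s : Type*} {k : Type*} [Field k] [CharP k 2]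
    (q : MvPolynomial s k) (ν : s →₀ ℕ) : (q ^ 2).coeff (2 • ν) = q.coeff ν ^ 2 := by
  classical
  rw [indep_sq, MvPolynomial.coeff_sum, Finset.sum_eq_single ν]
  · rw [MvPolynomial.coeff_monomial, if_pos rfl]
  · intro μ _ hμ
    rw [MvPolynomial.coeff_monomial, if_neg]
    intro h
    apply hμ
    ext x
    have h1 := DFunLike.congr_fun h x
    simp only [Finsupp.smul_apply, smul_eq_mul] at h1
    omega
  · intro hν
    rw [MvPolynomial.notMem_support_iff.1 hν, MvPolynomial.coeff_monomial, if_pos rfl,
      zero_pow two_ne_zero]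

/-- PROOF. Let `I₀` be as in `exists_sdr`. `pdet a F` is the value at the `a i j` of the polynomial
`P = ∑ I, ∏ i, X (i, I i)`, the sum over the `I` with image `F` and `i ∈ σ (I i)` for all `i` (the other
terms of `pdet a F` are zero by `hzero`). The value of `P` at the point where the variable `(i, j)` is
`1` if `j = I₀ i` and `0` otherwise is `1`, so `P ≠ 0`. (As in `generic_of` in `Alg`.) -/
theorem pdet_ne_zero {k : Type*} [Field k] [Algebra k K]
    (hind : AlgebraicIndependent k fun p : Idx σ => a p.1.1 p.1.2)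
    (hzero : ∀ i j, i ∉ σ j → a i j = 0) (h : Ball Γ σ) {F : Finset (Fin n)} (hF : F ∈ Γ)
    (hFd : #F = d) : pdet a F ≠ 0 := by
  classical
  obtain ⟨J, hJF, hJ⟩ := exists_sdr h hF hFd
  have hinj : Function.Injective
      (MvPolynomial.aeval (fun p : Idx σ => a p.1.1 p.1.2) : MvPolynomial (Idx σ) k →ₐ[k] K) :=
    hind
  intro h0
  have h1 : (∑ I ∈ univ.filter (fun I : Fin d → Fin n => univ.image I = F), indepM k σ I :
      MvPolynomial (Idx σ) k) = 0 := by
    apply hinj
    rw [map_sum, map_zero, ← h0, pdet]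
    exact Finset.sum_congr rfl fun I _ => indep_aeval hzero I
  have h2 := congrArg (MvPolynomial.eval
    (fun p : Idx σ => if J p.1.1 = p.1.2 then (1 : k) else 0)) h1
  rw [map_sum, map_zero, Finset.sum_congr rfl fun I _ => indep_eval I J hJ,
    Finset.sum_ite_eq', if_pos (by simp only [Finset.mem_filter_univ, hJF])] at h2
  exact one_ne_zero h2

/-- The square-free monomials in the `a i j` are linearly independent over the field of squares.
PROOF. `K` is generated as a field by the `a i j`, `i ∈ σ j`, so every element is a quotient of two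
elements of `k[a]`, the range of the injective `MvPolynomial.aeval` (`hind`); multiply the `c I` by a
common denominator `e ≠ 0` (the relation is multiplied by `e ^ 2`): `c I = aeval a (p I)`. Then
`∑ I, (∏ i, X (i, I i)) * p I ^ 2 = 0` in `MvPolynomial (Idx σ) k`, the sum over the `I` with
`i ∈ σ (I i)` for all `i`. In characteristic 2 all the exponents of `p I ^ 2` are even, so the exponents of
the term `I` are congruent modulo 2 to the exponent of `∏ i, X (i, I i)`, and these are different
for different `I`. So for every exponent `m` at most one term has a nonzero coefficient at `m`, and so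
all the terms are zero: `p I ^ 2 = 0`. (`k` has characteristic 2, as `k → K` is injective.) -/
theorem indep_squares [CharP K 2] {k : Type*} [Field k] [Algebra k K]
    (hind : AlgebraicIndependent k fun p : Idx σ => a p.1.1 p.1.2)
    (htop : IntermediateField.adjoin k (Set.range fun p : Idx σ => a p.1.1 p.1.2) = ⊤)
    (hzero : ∀ i j, i ∉ σ j → a i j = 0) (c : (Fin d → Fin n) → K)
    (hc : ∑ I : Fin d → Fin n, (∏ i, a i (I i)) * c I ^ 2 = 0) (I : Fin d → Fin n)
    (hI : ∀ i, i ∈ σ (I i)) : c I = 0 := by
  classical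
  have hk2 : CharP k 2 :=
    ((algebraMap k K).charP_iff (algebraMap k K).injective 2).2 inferInstance
  set g : Idx σ → K := fun p => a p.1.1 p.1.2 with hg
  have hinj : Function.Injective (MvPolynomial.aeval g : MvPolynomial (Idx σ) k →ₐ[k] K) := hind
  have hfrac : ∀ x : K, ∃ r s : MvPolynomial (Idx σ) k,
      MvPolynomial.aeval g s ≠ 0 ∧ x * MvPolynomial.aeval g s = MvPolynomial.aeval g r := by
    intro x
    have hx : x ∈ IntermediateField.adjoin k (Set.range g) := by
      rw [htop]
      exact IntermediateField.mem_top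
    obtain ⟨r, s, hrs⟩ := (IntermediateField.mem_adjoin_range_iff k g x).1 hx
    by_cases hs : MvPolynomial.aeval g s = 0
    · refine ⟨0, 1, ?_, ?_⟩
      · rw [map_one]
        exact one_ne_zero
      · rw [hrs, hs, div_zero, map_one, map_zero, mul_one]
    · exact ⟨r, s, hs, by rw [hrs, div_mul_cancel₀ _ hs]⟩
  choose r s hs hrs using fun J : Fin d → Fin n => hfrac (c J)
  set e : MvPolynomial (Idx σ) k := ∏ J, s J with he
  set q : (Fin d → Fin n) → MvPolynomial (Idx σ) k :=
    fun J => r J * ∏ L ∈ univ.erase J, s L with hq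
  have hqe : ∀ J, MvPolynomial.aeval g (q J) = c J * MvPolynomial.aeval g e := by
    intro J
    rw [hq, he, ← Finset.mul_prod_erase univ s (Finset.mem_univ J), map_mul, map_mul, ← hrs J]
    ring
  have he0 : MvPolynomial.aeval g e ≠ 0 := by
    rw [he, map_prod]
    exact Finset.prod_ne_zero_iff.2 fun J _ => hs J
  have hrel : (∑ J, indepM k σ J * q J ^ 2 : MvPolynomial (Idx σ) k) = 0 := by
    apply hinj
    rw [map_sum, map_zero]
    have h1 : ∀ J, MvPolynomial.aeval g (indepM k σ J * q J ^ 2) =
        (∏ i, a i (J i)) * c J ^ 2 * (MvPolynomial.aeval g e) ^ 2 := by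
      intro J
      rw [map_mul, map_pow, hqe, indep_aeval hzero J]
      ring
    rw [Finset.sum_congr rfl fun J _ => h1 J, ← Finset.sum_mul, hc, zero_mul]
  have hcoef : ∀ ν : Idx σ →₀ ℕ, (q I).coeff ν = 0 := by
    intro ν
    have h1 := congrArg (MvPolynomial.coeff (indepE I hI + 2 • ν)) hrel
    rw [MvPolynomial.coeff_sum, MvPolynomial.coeff_zero, Finset.sum_eq_single I] at h1
    · rw [indep_monomial I hI, MvPolynomial.coeff_monomial_mul, one_mul, indep_sq_even] at h1
      exact pow_eq_zero_iff two_ne_zero |>.1 h1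
    · intro J _ hJI
      by_cases hJ : ∀ i, i ∈ σ (J i)
      · rw [indep_monomial J hJ, MvPolynomial.coeff_monomial_mul']
        split_ifs with hle
        · obtain ⟨i, hi⟩ := Function.ne_iff.1 hJI
          rw [one_mul]
          refine indep_sq_odd (q J) (x := ⟨(i, I i), hI i⟩) ?_
          rw [Finsupp.tsub_apply, Finsupp.add_apply, indepE_apply, indepE_apply, if_pos rfl,
            if_neg hi, Finsupp.smul_apply, smul_eq_mul, tsub_zero]
          exact ⟨ν ⟨(i, I i), hI i⟩, by ring⟩
        · rfl
      · rw [indep_zero J hJ, zero_mul, MvPolynomial.coeff_zero]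
    · intro h
      exact absurd (Finset.mem_univ _) h
  have hq0 : q I = 0 := by
    ext ν
    rw [hcoef ν, MvPolynomial.coeff_zero]
  have h2 := hqe I
  rw [hq0, map_zero] at h2
  exact (mul_eq_zero.1 h2.symm).resolve_right he0

end Pool.Agent.Lib.MP_fd6ff4_co.Two
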