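import Mathlib
import Pool.Agent.Lib.MP_fd6ff4_co.Two.Top

/-!
# The degree map with values in the polynomial ring in the `θ_i`

`Deg z = ∑ z_F / (pdet a F * ∏ v ∈ F, ℓ_(F,v))`, the sum over the facets, `ℓ_(F,v) = bet a F (X v)`, is
a polynomial for the elements `z` of the interior ideal. We multiply by the common denominator
`Nn`.
-/

set_option autoImplicit false

open Finset

namespace Pool.Agent.Lib.MP_fd6ff4_co.Two

universe u

variable {d n : ℕ} {K : Type u} [Field K] (a : Fin d → Fin n → K)
  (Γ : Finset (Finset (Fin n)))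

/-- the common denominator -/
noncomputable def Nn : MvPolynomial (Fin d) K := ∏ F : Fac Γ d, bet a F.1 (mon K F.1)

/-- the numerator of the degree map -/
noncomputable def Wn :
    (Fac Γ d → MvPolynomial (Fin d) K) →ₗ[MvPolynomial (Fin d) K] MvPolynomial (Fin d) K :=
  ∑ F : Fac Γ d, (MvPolynomial.C (pdet a F.1)⁻¹ *
    ∏ F' ∈ univ.erase F, bet a F'.1 (mon K F'.1)) • LinearMap.proj F

/-- the combination of the `θ_i` with the coefficients `c` -/
noncomputable def thc (c : Fin d → K) : MvPolynomial (Fin n) K :=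
  ∑ i, MvPolynomial.C (c i) * theta a i

variable {a Γ} {σ : Fin n → Finset (Fin d)}

theorem thc_eq (c : Fin d → K) :
    thc a c = ∑ v, MvPolynomial.C (∑ i, c i * a i v) * MvPolynomial.X v := by
  unfold thc theta
  simp only [Finset.mul_sum]
  rw [Finset.sum_comm]
  refine Finset.sum_congr rfl fun v _ => ?_
  rw [map_sum, Finset.sum_mul]
  refine Finset.sum_congr rfl fun i _ => ?_
  rw [map_mul, mul_assoc]

private theorem deg_bet_C (F : Finset (Fin n)) (r : K) :
    bet a F (MvPolynomial.C r) = MvPolynomial.C r := by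
  unfold bet
  rw [MvPolynomial.aeval_C]
  rfl

private theorem deg_bet_X {F : Finset (Fin n)} {v : Fin n} (hv : v ∈ F) :
    bet a F (MvPolynomial.X v) = lf fun i => cof a (F.erase v) i / pdet a F := by
  unfold bet
  rw [MvPolynomial.aeval_X, if_pos hv]

private theorem deg_bet_X_not {F : Finset (Fin n)} {v : Fin n} (hv : v ∉ F) :
    bet a F (MvPolynomial.X v) = 0 := by
  unfold bet
  rw [MvPolynomial.aeval_X, if_neg hv]

private theorem deg_bet_mon_zero {F G : Finset (Fin n)} (h : ¬ G ⊆ F) :
    bet a F (mon K G) = 0 := by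
  rw [Finset.not_subset] at h
  obtain ⟨v, hvG, hvF⟩ := h
  unfold mon
  rw [map_prod]
  exact Finset.prod_eq_zero hvG (deg_bet_X_not hvF)

private theorem deg_bet_mon_ne [CharP K 2] {F : Finset (Fin n)} (hF : #F = d)
    (hdet : pdet a F ≠ 0) : bet a F (mon K F) ≠ 0 := by
  unfold mon
  rw [map_prod, Finset.prod_ne_zero_iff]
  intro v hv h0
  rw [deg_bet_X hv, lf_eq_zero] at h0
  have h1 := dual_basis hF hdet hv hv
  rw [if_pos rfl] at h1
  have h2 : ∑ i, cof a (F.erase v) i / pdet a F * a i v = 0 := by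
    refine Finset.sum_eq_zero fun i _ => ?_
    have h3 := congrFun h0 i
    simp only [Pi.zero_apply] at h3
    rw [h3, zero_mul]
  rw [h2] at h1
  exact zero_ne_one h1

private theorem deg_bet_hom {F : Finset (Fin n)} {p : MvPolynomial (Fin n) K} {m : ℕ}
    (hp : p.IsHomogeneous m) : (bet a F p).IsHomogeneous m := by
  have h1 := hp.aeval (fun v => if v ∈ F then
    lf (fun i => cof a (F.erase v) i / pdet a F) else 0) (n := 1) (by
      intro v
      split_ifs
      · exact lf_hom _
      · exact MvPolynomial.isHomogeneous_zero _ _ _)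
  rw [one_mul] at h1
  exact h1

private theorem deg_mon_hom (F : Finset (Fin n)) : (mon K F).IsHomogeneous (#F) := by
  have h1 := MvPolynomial.IsHomogeneous.prod F (fun v => (MvPolynomial.X v : MvPolynomial (Fin n) K))
    (fun _ => 1) (fun v _ => MvPolynomial.isHomogeneous_X K v)
  rw [Finset.sum_const, smul_eq_mul, mul_one] at h1
  exact h1

private theorem deg_tau_apply (p : MvPolynomial (Fin n) K) (F : Fac Γ d) :
    tau a Γ p F = bet a F.1 p := rfl

private theorem deg_Wn_apply (z : Fac Γ d → MvPolynomial (Fin d) K) :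
    Wn a Γ z = ∑ F : Fac Γ d, (MvPolynomial.C (pdet a F.1)⁻¹ *
      ∏ F' ∈ univ.erase F, bet a F'.1 (mon K F'.1)) * z F := by
  unfold Wn
  rw [LinearMap.sum_apply]
  refine Finset.sum_congr rfl fun F _ => ?_
  rw [LinearMap.smul_apply, LinearMap.proj_apply, smul_eq_mul]

theorem tau_thc [CharP K 2] (hdet : ∀ F ∈ Γ, #F = d → pdet a F ≠ 0) (c : Fin d → K)
    (p : MvPolynomial (Fin n) K) : tau a Γ (thc a c * p) = lf c • tau a Γ p := by
  funext F
  change bet a F.1 (thc a c * p) = lf c * bet a F.1 p
  rw [map_mul]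
  congr 1
  unfold thc lf
  rw [map_sum]
  refine Finset.sum_congr rfl fun i _ => ?_
  rw [map_mul, bet_theta F.2.2 (hdet _ F.2.1 F.2.2), deg_bet_C]

/-- PROOF. `bet a F (X v) ≠ 0` for `v ∈ F` by `bet_eq_zero` (or `dual_basis`). -/
theorem Nn_ne_zero [CharP K 2] (hdet : ∀ F ∈ Γ, #F = d → pdet a F ≠ 0) : Nn a Γ ≠ 0 := by
  unfold Nn
  rw [Finset.prod_ne_zero_iff]
  intro F _
  exact deg_bet_mon_ne F.2.2 (hdet _ F.2.1 F.2.2)

/-- PROOF. `tau a Γ (mon K F * p)` vanishes at the facets different from `F`. -/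
theorem Wn_facet (F : Fac Γ d) (p : MvPolynomial (Fin n) K) :
    Wn a Γ (tau a Γ (mon K F.1 * p)) =
      Nn a Γ * (MvPolynomial.C (pdet a F.1)⁻¹ * bet a F.1 p) := by
  classical
  rw [deg_Wn_apply, Finset.sum_eq_single F]
  · rw [deg_tau_apply, map_mul]
    have h1 : Nn a Γ = bet a F.1 (mon K F.1) *
        ∏ F' ∈ univ.erase F, bet a F'.1 (mon K F'.1) := by
      unfold Nn
      rw [Finset.mul_prod_erase univ (fun F' : Fac Γ d => bet a F'.1 (mon K F'.1)) (mem_univ F)]
    rw [h1]
    ring
  · intro F' _ hF'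
    have h2 : ¬ F.1 ⊆ F'.1 := by
      intro h
      apply hF'
      apply Subtype.ext
      exact (Finset.eq_of_subset_of_card_le h (by rw [F.2.2, F'.2.2])).symm
    rw [deg_tau_apply, map_mul, deg_bet_mon_zero h2, zero_mul, mul_zero]
  · intro h
    exact absurd (mem_univ F) h

/-- PROOF. `thc_eq`; for `u ∉ G` the product `X u * mon K G` is `mon K (insert u G)`, and
`tau a Γ (mon K H) = 0` for `H ∉ Γ` (`H` is not in a facet, as `Γ` is closed under subsets). -/
theorem Wn_expand [CharP K 2] (h : Ball Γ σ) (hdet : ∀ F ∈ Γ, #F = d → pdet a F ≠ 0)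
    (c : Fin d → K) {G : Finset (Fin n)} (hc : ∀ v ∈ G, ∑ i, c i * a i v = 0)
    (p : MvPolynomial (Fin n) K) :
    lf c * Wn a Γ (tau a Γ (mon K G * p)) =
      ∑ u ∈ univ.filter (fun u => u ∉ G ∧ insert u G ∈ Γ),
        MvPolynomial.C (∑ i, c i * a i u) * Wn a Γ (tau a Γ (mon K (insert u G) * p)) := by
  classical
  have h1 : lf c * Wn a Γ (tau a Γ (mon K G * p)) =
      ∑ u, MvPolynomial.C (∑ i, c i * a i u) *
        Wn a Γ (tau a Γ (MvPolynomial.X u * (mon K G * p))) := by
    rw [← smul_eq_mul, ← map_smul, ← tau_thc hdet, thc_eq, Finset.sum_mul, map_sum, map_sum]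
    refine Finset.sum_congr rfl fun u _ => ?_
    rw [mul_assoc]
    have h2 : tau a Γ (MvPolynomial.C (∑ i, c i * a i u) *
        (MvPolynomial.X u * (mon K G * p))) =
        (MvPolynomial.C (∑ i, c i * a i u) : MvPolynomial (Fin d) K) •
          tau a Γ (MvPolynomial.X u * (mon K G * p)) := by
      funext F
      rw [Pi.smul_apply, deg_tau_apply, deg_tau_apply, map_mul, deg_bet_C, smul_eq_mul]
    rw [h2, map_smul, smul_eq_mul]
  rw [h1]
  symm
  refine Finset.sum_subset_zero_on_sdiff (Finset.subset_univ _) ?_ ?_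
  · intro u hu
    rw [mem_sdiff, mem_filter] at hu
    by_cases hG : u ∈ G
    · rw [hc u hG, map_zero, zero_mul]
    · have hins : insert u G ∉ Γ := fun h' => hu.2 ⟨mem_univ u, hG, h'⟩
      have h3 : tau a Γ (MvPolynomial.X u * (mon K G * p)) = 0 := by
        funext F
        rw [deg_tau_apply, Pi.zero_apply]
        have h4 : MvPolynomial.X u * (mon K G * p) = mon K (insert u G) * p := by
          unfold mon
          rw [Finset.prod_insert hG, mul_assoc]
        rw [h4, map_mul, deg_bet_mon_zero, zero_mul]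
        intro hsub
        exact hins (h.down F.1 F.2.1 _ hsub)
      rw [h3, map_zero, mul_zero]
  · intro u hu
    rw [mem_filter] at hu
    have h4 : MvPolynomial.X u * (mon K G * p) = mon K (insert u G) * p := by
      unfold mon
      rw [Finset.prod_insert hu.2.1, mul_assoc]
    rw [h4]

/-- An interior ridge. PROOF. `Wn_expand` for `c = cof a R` (`cof_sum_mem`), `cof_sum_notMem` and
`Wn_facet`: the right side is `Nn * (bet a F p + bet a F' p)`, `F` and `F'` the two facets containing
`R` (`ridge_interior`), and `bet a F p + bet a F' p = bet a F p - bet a F' p` is a multiple of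
`lf (cof a R)` (`bet_sub_mem`, `Jd_ridge`). Cancel `lf (cof a R) ≠ 0` (`lf_eq_zero`,
`cof_sum_notMem`, `pdet a F ≠ 0`). -/
theorem dvd_ridge [CharP K 2] (h : Ball Γ σ) (hdet : ∀ F ∈ Γ, #F = d → pdet a F ≠ 0)
    {R : Finset (Fin n)} (hR : R ∈ Γ) (hRd : #R + 1 = d) (hc : car σ R = univ)
    (p : MvPolynomial (Fin n) K) : Nn a Γ ∣ Wn a Γ (tau a Γ (mon K R * p)) := by
  classical
  have h1 := Wn_expand h hdet (cof a R) (G := R) (fun v hv => cof_sum_mem a hRd hv) p
  have hcard : #(univ.filter fun u => u ∉ R ∧ insert u R ∈ Γ) = 2 := by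
    rw [← ridge_interior h hR hRd hc]
    refine Finset.card_bij (fun u _ => insert u R) ?_ ?_ ?_
    · intro u hu
      rw [mem_filter] at hu ⊢
      exact ⟨hu.2.2, by rw [Finset.card_insert_of_notMem hu.2.1, hRd], Finset.subset_insert _ _⟩
    · intro u hu u' hu' huu
      rw [mem_filter] at hu hu'
      have h2 : u ∈ insert u' R := by
        rw [← huu]
        exact mem_insert_self _ _
      rw [mem_insert] at h2
      exact h2.resolve_right hu.2.1
    · intro F hF
      rw [mem_filter] at hF
      obtain ⟨hFΓ, hFd, hRF⟩ := hF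
      have h3 : ∃ u, u ∈ F ∧ u ∉ R := by
        by_contra hcon
        push Not at hcon
        have h4 := Finset.card_le_card (fun v hv => hcon v hv : F ⊆ R)
        omega
      obtain ⟨u, huF, huR⟩ := h3
      have h5 : insert u R = F := by
        refine Finset.eq_of_subset_of_card_le ?_ ?_
        · rw [Finset.insert_subset_iff]
          exact ⟨huF, hRF⟩
        · rw [Finset.card_insert_of_notMem huR, hRd, hFd]
      refine ⟨u, ?_, h5⟩
      rw [mem_filter]
      exact ⟨mem_univ _, huR, by rw [h5]; exact hFΓ⟩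
  obtain ⟨u, u', huu, hset⟩ := Finset.card_eq_two.1 hcard
  have hu : u ∉ R ∧ insert u R ∈ Γ := by
    have : u ∈ univ.filter fun u => u ∉ R ∧ insert u R ∈ Γ := by
      rw [hset]
      exact mem_insert_self _ _
    exact (mem_filter.1 this).2
  have hu' : u' ∉ R ∧ insert u' R ∈ Γ := by
    have : u' ∈ univ.filter fun u => u ∉ R ∧ insert u R ∈ Γ := by
      rw [hset]
      exact mem_insert_of_mem (mem_singleton_self _)
    exact (mem_filter.1 this).2
  have hterm : ∀ w, w ∉ R → insert w R ∈ Γ →
      MvPolynomial.C (∑ i, cof a R i * a i w) * Wn a Γ (tau a Γ (mon K (insert w R) * p)) =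
        Nn a Γ * bet a (insert w R) p := by
    intro w hw hwΓ
    have hd' : #(insert w R) = d := by rw [Finset.card_insert_of_notMem hw, hRd]
    have h2 := Wn_facet (a := a) (⟨insert w R, hwΓ, hd'⟩ : Fac Γ d) p
    have hne := hdet _ hwΓ hd'
    rw [h2, cof_sum_notMem a hRd hw]
    have h3 : (MvPolynomial.C (pdet a (insert w R)) : MvPolynomial (Fin d) K) *
        MvPolynomial.C (pdet a (insert w R))⁻¹ = 1 := by
      rw [← map_mul, mul_inv_cancel₀ hne, map_one]
    calc _ = Nn a Γ * (MvPolynomial.C (pdet a (insert w R)) *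
          MvPolynomial.C (pdet a (insert w R))⁻¹ * bet a (insert w R) p) := by ring
      _ = _ := by rw [h3, one_mul]
  rw [hset, Finset.sum_pair huu, hterm u hu.1 hu.2, hterm u' hu'.1 hu'.2, ← mul_add] at h1
  have hd1 : #(insert u R) = d := by rw [Finset.card_insert_of_notMem hu.1, hRd]
  have hd2 : #(insert u' R) = d := by rw [Finset.card_insert_of_notMem hu'.1, hRd]
  have h6 := bet_sub_mem hd1 (hdet _ hu.2 hd1) hd2 (hdet _ hu'.2 hd2)
    (Finset.subset_insert u R) (Finset.subset_insert u' R) p
  rw [Jd_ridge hd1 (hdet _ hu.2 hd1) (Finset.subset_insert u R) hRd,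
    Ideal.mem_span_singleton] at h6
  obtain ⟨q, hq⟩ := h6
  rw [← CharTwo.sub_eq_add, hq] at h1
  have hne : lf (cof a R) ≠ 0 := by
    intro h0
    rw [lf_eq_zero] at h0
    apply hdet _ hu.2 hd1
    rw [← cof_sum_notMem a hRd hu.1]
    refine Finset.sum_eq_zero fun i _ => ?_
    rw [h0, Pi.zero_apply, zero_mul]
  refine ⟨q, mul_left_cancel₀ hne ?_⟩
  rw [h1]
  ring

/-- An interior face. PROOF. Induction on `d - #G`. `#G = d`: `Wn_facet`. `#G + 1 = d`: `dvd_ridge`.
`#G + 2 ≤ d`: let `F ⊇ G` be a facet and `v ≠ w` in `F \ G`; `c = cof a (F.erase v)` and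
`c' = cof a (F.erase w)` vanish on the columns in `G`, and `c' ≠ r • c`, `c ≠ 0`, `c' ≠ 0` (evaluate at
the columns `v` and `w`). By `Wn_expand` and the induction hypothesis (the carrier of `insert u G` is
also `univ`) `Nn` divides `lf c * W` and `lf c' * W`, `W` the value in question: `lf c * W = Nn * q`,
`lf c' * W = Nn * q'`, so `lf c' * q = lf c * q'` and `lf c ∣ q` (`lf_prime`, `lf_not_dvd`). So
`W = Nn * q''`. -/
theorem dvd_mon [CharP K 2] (h : Ball Γ σ) (hdet : ∀ F ∈ Γ, #F = d → pdet a F ≠ 0)
    {G : Finset (Fin n)} (hG : G ∈ Γ) (hc : car σ G = univ) (p : MvPolynomial (Fin n) K) :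
    Nn a Γ ∣ Wn a Γ (tau a Γ (mon K G * p)) := by
  classical
  have key : ∀ k : ℕ, ∀ G ∈ Γ, car σ G = univ → #G + k = d →
      Nn a Γ ∣ Wn a Γ (tau a Γ (mon K G * p)) := by
    intro k
    induction k with
    | zero =>
      intro G hG _ hd
      rw [Nat.add_zero] at hd
      rw [Wn_facet (⟨G, hG, hd⟩ : Fac Γ d) p]
      exact dvd_mul_right _ _
    | succ k ih =>
      intro G hG hc hd
      rcases Nat.eq_zero_or_pos k with hk | hk
      · subst hk
        exact dvd_ridge h hdet hG hd hc p
      · obtain ⟨F, hF, hFd, hGF⟩ := exists_facet h hG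
        have hcard : 1 < #(F \ G) := by
          rw [Finset.card_sdiff_of_subset hGF]
          omega
        obtain ⟨v, hv, w, hw, hvw⟩ := Finset.one_lt_card.1 hcard
        rw [mem_sdiff] at hv hw
        have hFv : #(F.erase v) + 1 = d := by rw [Finset.card_erase_add_one hv.1, hFd]
        have hFw : #(F.erase w) + 1 = d := by rw [Finset.card_erase_add_one hw.1, hFd]
        have hdF := hdet F hF hFd
        have e1 : ∑ i, cof a (F.erase v) i * a i v = pdet a F := by
          rw [cof_sum_notMem a hFv (Finset.notMem_erase v F), Finset.insert_erase hv.1]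
        have e2 : ∑ i, cof a (F.erase w) i * a i v = 0 :=
          cof_sum_mem a hFw (Finset.mem_erase.2 ⟨hvw, hv.1⟩)
        have e3 : ∑ i, cof a (F.erase w) i * a i w = pdet a F := by
          rw [cof_sum_notMem a hFw (Finset.notMem_erase w F), Finset.insert_erase hw.1]
        have hc'0 : cof a (F.erase w) ≠ 0 := by
          intro h0
          apply hdF
          rw [← e3]
          refine Finset.sum_eq_zero fun i _ => ?_
          rw [h0, Pi.zero_apply, zero_mul]
        have hc0 : cof a (F.erase v) ≠ 0 := by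
          intro h0
          apply hdF
          rw [← e1]
          refine Finset.sum_eq_zero fun i _ => ?_
          rw [h0, Pi.zero_apply, zero_mul]
        have hrc : ∀ r : K, cof a (F.erase w) ≠ r • cof a (F.erase v) := by
          intro r h0
          have h5 : r * pdet a F = 0 := by
            rw [← e1, Finset.mul_sum, ← e2]
            refine Finset.sum_congr rfl fun i _ => ?_
            rw [h0, Pi.smul_apply, smul_eq_mul, mul_assoc]
          have h6 : r = 0 := (mul_eq_zero.1 h5).resolve_right hdF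
          rw [h6, zero_smul] at h0
          exact hc'0 h0
        have hdvd : ∀ c : Fin d → K, (∀ u ∈ G, ∑ i, c i * a i u = 0) →
            Nn a Γ ∣ lf c * Wn a Γ (tau a Γ (mon K G * p)) := by
          intro c hcG
          rw [Wn_expand h hdet c hcG p]
          refine Finset.dvd_sum fun u hu => ?_
          rw [mem_filter] at hu
          refine dvd_mul_of_dvd_right (ih _ hu.2.2 ?_ ?_) _
          · rw [eq_univ_iff_forall]
            intro i
            have h7 : i ∈ car σ G := by
              rw [hc]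
              exact mem_univ i
            rw [car, mem_biUnion] at h7 ⊢
            obtain ⟨x, hx, hi⟩ := h7
            exact ⟨x, mem_insert_of_mem hx, hi⟩
          · rw [Finset.card_insert_of_notMem hu.2.1]
            omega
        obtain ⟨q, hq⟩ := hdvd (cof a (F.erase v)) (fun u hu =>
          cof_sum_mem a hFv (Finset.mem_erase.2 ⟨fun h8 => hv.2 (h8 ▸ hu), hGF hu⟩))
        obtain ⟨q', hq'⟩ := hdvd (cof a (F.erase w)) (fun u hu =>
          cof_sum_mem a hFw (Finset.mem_erase.2 ⟨fun h8 => hw.2 (h8 ▸ hu), hGF hu⟩))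
        have hN := Nn_ne_zero (a := a) hdet
        have h9 : lf (cof a (F.erase w)) * q = lf (cof a (F.erase v)) * q' := by
          apply mul_left_cancel₀ hN
          calc Nn a Γ * (lf (cof a (F.erase w)) * q)
              = lf (cof a (F.erase w)) * (Nn a Γ * q) := by ring
            _ = lf (cof a (F.erase v)) * (Nn a Γ * q') := by
                rw [← hq, ← hq']
                ring
            _ = Nn a Γ * (lf (cof a (F.erase v)) * q') := by ring
        have hpr := lf_prime hc0
        have h10 : lf (cof a (F.erase v)) ∣ q := by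
          have h11 : lf (cof a (F.erase v)) ∣ lf (cof a (F.erase w)) * q := ⟨q', h9⟩
          exact (hpr.dvd_or_dvd h11).resolve_left (lf_not_dvd hc'0 hrc)
        obtain ⟨q'', hq''⟩ := h10
        refine ⟨q'', mul_left_cancel₀ hpr.ne_zero ?_⟩
        rw [hq, hq'']
        ring
  obtain ⟨k, hk⟩ := Nat.exists_eq_add_of_le (card_le h hG)
  exact key k G hG hc hk.symm

/-- PROOF. `exists_of_mem_Z0`, `dvd_mon` and `Submodule.span_induction`; the quotient is linear as
`Nn ≠ 0`. -/
theorem exists_deg [CharP K 2] (h : Ball Γ σ) (hdet : ∀ F ∈ Γ, #F = d → pdet a F ≠ 0) :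
    ∃ D : Z0 a Γ →ₗ[MvPolynomial (Fin d) K] MvPolynomial (Fin d) K,
      ∀ z : Z0 a Γ, Nn a Γ * D z = Wn a Γ z.1 := by
  have hN := Nn_ne_zero (a := a) hdet
  have h1 : ∀ z : Z0 a Γ, Nn a Γ ∣ Wn a Γ z.1 := by
    rintro ⟨z, hz⟩
    obtain ⟨p, hp, rfl⟩ := exists_of_mem_Z0 h hdet hz
    have h2 : ∀ q : MvPolynomial (Fin n) K, Nn a Γ ∣ Wn a Γ (tau a Γ (p * q)) := by
      refine Submodule.span_induction (p := fun x _ => ∀ q : MvPolynomial (Fin n) K,
        Nn a Γ ∣ Wn a Γ (tau a Γ (x * q))) ?_ ?_ ?_ ?_ hp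
      · rintro x ⟨G, hG, hc, rfl⟩ q
        exact dvd_mon h hdet hG hc q
      · intro q
        rw [zero_mul, map_zero, map_zero]
        exact dvd_zero _
      · intro x y _ _ hx hy q
        rw [add_mul, map_add, map_add]
        exact dvd_add (hx q) (hy q)
      · intro r x _ hx q
        have h5 : r • x * q = x * (r * q) := by
          rw [smul_eq_mul]
          ring
        rw [h5]
        exact hx _
    have h3 := h2 1
    rw [mul_one] at h3
    exact h3
  choose D hD using h1
  refine ⟨{ toFun := D, map_add' := ?_, map_smul' := ?_ }, fun z => (hD z).symm⟩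
  · intro z w
    apply mul_left_cancel₀ hN
    rw [← hD, mul_add, ← hD, ← hD]
    exact map_add (Wn a Γ) z.1 w.1
  · intro r z
    apply mul_left_cancel₀ hN
    rw [← hD, RingHom.id_apply, smul_eq_mul]
    have h4 : Wn a Γ (r • z.1) = r * Wn a Γ z.1 := by rw [map_smul, smul_eq_mul]
    change Wn a Γ (r • z.1) = _
    rw [h4, hD z]
    ring

/-- The constant term of the degree is zero in the wrong degrees. PROOF. Let `e` be the degree of the
homogeneous polynomial `Nn`, `e = (number of facets) * d`. `Wn a Γ (tau a Γ p)` is homogeneous of degree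
`e - d + m` (`e ≥ d` if there is a facet; `bet a F p` is homogeneous of degree `m`, as `bet a F` maps the
variables to linear forms or to `0`). Write `D = C (constantCoeff D) + D'` with `D'` without constant
term; the homogeneous component of degree `e` of `Nn * D` is `Nn * C (constantCoeff D)`, and it is zero if
`m ≠ d`. -/
theorem deg_hom [CharP K 2] (h : Ball Γ σ) (hdet : ∀ F ∈ Γ, #F = d → pdet a F ≠ 0)
    {p : MvPolynomial (Fin n) K} {m : ℕ} (hp : p.IsHomogeneous m) (hm : m ≠ d)
    {D : MvPolynomial (Fin d) K} (hD : Nn a Γ * D = Wn a Γ (tau a Γ p)) :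
    MvPolynomial.constantCoeff D = 0 := by
  classical
  obtain ⟨F₀, hF₀, hF₀d, -⟩ := exists_facet h h.empty_mem
  have hcard : 0 < Fintype.card (Fac Γ d) :=
    Fintype.card_pos_iff.2 ⟨⟨F₀, hF₀, hF₀d⟩⟩
  have hfac : ∀ F : Fac Γ d, (bet a F.1 (mon K F.1)).IsHomogeneous d := by
    intro F
    have h1 := deg_bet_hom (a := a) (F := F.1) (deg_mon_hom (K := K) F.1)
    rw [F.2.2] at h1
    exact h1
  have hNh : (Nn a Γ).IsHomogeneous (Fintype.card (Fac Γ d) * d) := by
    have h1 := MvPolynomial.IsHomogeneous.prod univ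
      (fun F : Fac Γ d => bet a F.1 (mon K F.1)) (fun _ => d) (fun F _ => hfac F)
    rw [Finset.sum_const, card_univ, smul_eq_mul] at h1
    exact h1
  have hWh : (Wn a Γ (tau a Γ p)).IsHomogeneous ((Fintype.card (Fac Γ d) - 1) * d + m) := by
    rw [deg_Wn_apply]
    refine MvPolynomial.IsHomogeneous.sum _ _ _ fun F _ => ?_
    refine MvPolynomial.IsHomogeneous.mul ?_ ?_
    · refine MvPolynomial.IsHomogeneous.C_mul ?_ _
      have h1 := MvPolynomial.IsHomogeneous.prod (univ.erase F)
        (fun F : Fac Γ d => bet a F.1 (mon K F.1)) (fun _ => d) (fun F _ => hfac F)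
      rw [Finset.sum_const, Finset.card_erase_of_mem (mem_univ F), card_univ, smul_eq_mul] at h1
      exact h1
    · rw [deg_tau_apply]
      exact deg_bet_hom hp
  obtain ⟨M, hM⟩ := MvPolynomial.ne_zero_iff.1 (Nn_ne_zero (a := a) hdet)
  have hMd : M.degree = Fintype.card (Fac Γ d) * d := by
    by_contra hne
    exact hM (hNh.coeff_eq_zero hne)
  have h2 : MvPolynomial.coeff M (Wn a Γ (tau a Γ p)) = 0 := by
    refine hWh.coeff_eq_zero ?_
    rw [hMd]
    intro h3
    apply hm
    obtain ⟨k, hk⟩ : ∃ k, Fintype.card (Fac Γ d) = k + 1 := ⟨_, (Nat.succ_pred_eq_of_pos hcard).symm⟩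
    rw [hk, Nat.add_sub_cancel, add_mul, one_mul] at h3
    omega
  have h4 : MvPolynomial.coeff M (Nn a Γ * D) =
      MvPolynomial.coeff M (Nn a Γ) * MvPolynomial.constantCoeff D := by
    rw [MvPolynomial.coeff_mul, Finset.sum_eq_single (M, 0)]
    · rfl
    · rintro ⟨M₁, M₂⟩ hmem hne
      rw [HasAntidiagonal.mem_antidiagonal] at hmem
      dsimp only at hmem ⊢
      by_cases h5 : MvPolynomial.coeff M₁ (Nn a Γ) = 0
      · rw [h5, zero_mul]
      · exfalso
        have h6 : M₁.degree = Fintype.card (Fac Γ d) * d := by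
          by_contra hne'
          exact h5 (hNh.coeff_eq_zero hne')
        have h7 : M₁.degree + M₂.degree = M.degree := by
          rw [← hmem, map_add]
        have h8 : M₂.degree = 0 := by omega
        have h9 : M₂ = 0 := by
          rwa [Finsupp.degree_eq_zero_iff] at h8
        rw [h9, add_zero] at hmem
        exact hne (by rw [hmem, h9])
    · intro h5
      exact absurd (HasAntidiagonal.mem_antidiagonal.2 (add_zero M)) h5
  rw [← hD, h4] at h2
  exact (mul_eq_zero.1 h2).resolve_left hM

end Pool.Agent.Lib.MP_fd6ff4_co.Two
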