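import Mathlib
import Pool.Agent.Lib.MP_fd6ff4_co.Two.Exact
import Pool.Agent.Lib.MP_fd6ff4_co.Two.PdQuot

/-!
# The interior ideal is a projective module over the polynomial ring in the `θ_i`
-/

set_option autoImplicit false

open Finset

namespace Pool.Agent.Lib.MP_fd6ff4_co.Two

universe u

variable {d n : ℕ} {K : Type u} [Field K] {a : Fin d → Fin n → K}
  {Γ : Finset (Finset (Fin n))} {σ : Fin n → Finset (Fin d)}

/-- PROOF. Induction on `j`. `j = 0`: `0 → ker (bdy 0) → Ch 1 → Ch 0 → 0` is exact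
(`bdy_surjective`), `PdLT.left` with `pd_chain`. Step: `0 → ker (bdy (j + 1)) → Ch (j + 2) →
ker (bdy j) → 0` is exact (`bdy_bdy`, `exact_succ`), where the second map is `bdy (j + 1)` with
restricted range; `PdLT.left`. -/
theorem pd_ker [CharP K 2] (h : Ball Γ σ) (hdet : ∀ F ∈ Γ, #F = d → pdet a F ≠ 0) (j : ℕ)
    (hj : j < d) :
    PdLT (MvPolynomial (Fin d) K) (LinearMap.ker (bdy a Γ j)) (d - j) := by
  induction j with
  | zero =>
    refine PdLT.left (f := (LinearMap.ker (bdy a Γ 0)).subtype) (g := bdy a Γ 0)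
      (Submodule.injective_subtype _) (bdy_surjective h hdet hj)
      (LinearMap.exact_subtype_ker_map _) ?_ ?_
    · exact (pd_chain h hdet (0 + 1)).mono (by omega)
    · exact (pd_chain h hdet 0).mono (by omega)
  | succ j ih =>
    have ih' := ih (by omega)
    have hmem : ∀ c : Ch a Γ (j + 2), bdy a Γ (j + 1) c ∈ LinearMap.ker (bdy a Γ j) := by
      intro c
      rw [LinearMap.mem_ker]
      exact bdy_bdy h c
    refine PdLT.left (C := LinearMap.ker (bdy a Γ j))
      (f := (LinearMap.ker (bdy a Γ (j + 1))).subtype)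
      (g := (bdy a Γ (j + 1)).codRestrict (LinearMap.ker (bdy a Γ j)) hmem)
      (Submodule.injective_subtype _) ?_ ?_ ?_ ?_
    · intro c
      obtain ⟨b, hb⟩ := exact_succ h hdet hj c.1 (LinearMap.mem_ker.1 c.2)
      exact ⟨b, Subtype.ext hb⟩
    · intro c
      constructor
      · intro hc
        have hc' : bdy a Γ (j + 1) c = 0 := congrArg Subtype.val hc
        exact ⟨⟨c, LinearMap.mem_ker.2 hc'⟩, rfl⟩
      · rintro ⟨y, rfl⟩
        exact Subtype.ext (LinearMap.mem_ker.1 y.2)
    · exact (pd_chain h hdet (j + 2)).mono (by omega)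
    · exact ih'.mono (by omega)

/-- PROOF. For `d = j + 1` the module `Z0 a Γ` is isomorphic to `ker (bdy j)`: a function
`z : Fac Γ d → S` is mapped to the function `F ↦ Ideal.Quotient.mk _ (z F)`, bijective as
`Jd a F = ⊥` for facets (`Jd_facet`, `Submodule.quotEquivOfEqBot`), and `bdy_mk` translates the
condition. Then `pd_ker` and `pdLT_one`. -/
theorem Z0_projective [CharP K 2] (h : Ball Γ σ) (hdet : ∀ F ∈ Γ, #F = d → pdet a F ≠ 0)
    (hd : 0 < d) : Module.Projective (MvPolynomial (Fin d) K) (Z0 a Γ) := by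
  obtain ⟨j, rfl⟩ : ∃ j, d = j + 1 := ⟨d - 1, by omega⟩
  have hbot : ∀ F : Fac Γ (j + 1), Jd a F.1 = ⊥ := fun F => Jd_facet F.2.2 (hdet F.1 F.2.1 F.2.2)
  have key : ∀ z : Fac Γ (j + 1) → MvPolynomial (Fin (j + 1)) K,
      z ∈ Z0 a Γ ↔ bdy a Γ j (fun G => Ideal.Quotient.mk _ (z G)) = 0 := by
    intro z
    constructor
    · intro hz
      funext R
      rw [bdy_mk]
      exact Ideal.Quotient.eq_zero_iff_mem.2 (hz R.1 R.2.1 (by rw [R.2.2]))
    · intro hz R hR hRd
      have h1 := congrFun hz ⟨R, hR, by omega⟩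
      rw [bdy_mk] at h1
      exact Ideal.Quotient.eq_zero_iff_mem.1 h1
  let f : Z0 a Γ →ₗ[MvPolynomial (Fin (j + 1)) K] LinearMap.ker (bdy a Γ j) :=
    { toFun := fun z => ⟨fun G => Ideal.Quotient.mk _ (z.1 G),
        LinearMap.mem_ker.2 ((key z.1).1 z.2)⟩
      map_add' := fun z w => Subtype.ext (funext fun G => rfl)
      map_smul' := fun c z => Subtype.ext (funext fun G => rfl) }
  have hf : Function.Bijective f := by
    constructor
    · intro z w hzw
      apply Subtype.ext
      funext G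
      have h1 : (Ideal.Quotient.mk (Jd a G.1) (z.1 G)) = Ideal.Quotient.mk (Jd a G.1) (w.1 G) :=
        congrFun (congrArg Subtype.val hzw) G
      rw [Ideal.Quotient.eq, hbot G, Ideal.mem_bot, sub_eq_zero] at h1
      exact h1
    · intro c
      have h1 : ∀ G : Fac Γ (j + 1), ∃ s, Ideal.Quotient.mk (Jd a G.1) s = c.1 G :=
        fun G => Ideal.Quotient.mk_surjective (c.1 G)
      choose s hs using h1
      have h2 : (fun G => Ideal.Quotient.mk (Jd a G.1) (s G)) = c.1 := funext hs
      refine ⟨⟨s, (key s).2 ?_⟩, Subtype.ext h2⟩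
      rw [h2]
      exact LinearMap.mem_ker.1 c.2
  have h3 := (pd_ker h hdet j (Nat.lt_succ_self j)).congr (LinearEquiv.ofBijective f hf).symm
  exact pdLT_one.1 (h3.mono (by omega))

end Pool.Agent.Lib.MP_fd6ff4_co.Two
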