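import Mathlib
import Pool.Agent.Lib.MP_fd6ff4_co.Two.Deg
import Pool.Agent.Lib.MP_fd6ff4_co.Two.Proj

/-!
# Linear maps on the interior ideal
-/

set_option autoImplicit false

open Finset

namespace Pool.Agent.Lib.MP_fd6ff4_co.Two

universe u

variable {d n : ℕ} {K : Type u} [Field K]
variable {a : Fin d → Fin n → K} {Γ : Finset (Finset (Fin n))} {σ : Fin n → Finset (Fin d)}

private theorem bet_X_notMem {H : Finset (Fin n)} {v : Fin n} (hv : v ∉ H) :
    bet a H (MvPolynomial.X v) = 0 := by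
  unfold bet
  rw [MvPolynomial.aeval_X, if_neg hv]

private theorem bet_mon_zero {G H : Finset (Fin n)} (h : ¬ G ⊆ H) :
    bet a H (mon K G) = 0 := by
  obtain ⟨v, hv, hv'⟩ := Finset.not_subset.mp h
  unfold mon
  rw [map_prod]
  exact Finset.prod_eq_zero hv (bet_X_notMem hv')

private theorem bet_mon_insert {R : Finset (Fin n)} {w : Fin n} (hw : w ∉ R)
    (hdet : pdet a (insert w R) ≠ 0) :
    MvPolynomial.C (pdet a (insert w R)) * bet a (insert w R) (mon K (insert w R)) =
      lf (cof a R) * bet a (insert w R) (mon K R) := by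
  have e1 : mon K (insert w R) = MvPolynomial.X w * mon K R := by
    unfold mon
    rw [Finset.prod_insert hw]
  have e2 : MvPolynomial.C (pdet a (insert w R)) *
      bet a (insert w R) (MvPolynomial.X w) = lf (cof a R) := by
    unfold bet
    rw [MvPolynomial.aeval_X, if_pos (Finset.mem_insert_self w R), Finset.erase_insert hw]
    unfold lf
    rw [Finset.mul_sum]
    refine Finset.sum_congr rfl fun i _ => ?_
    rw [← mul_assoc, ← MvPolynomial.C_mul, mul_div_cancel₀ _ hdet]
  rw [e1, map_mul, ← mul_assoc, e2]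

private theorem lf_cof_mem [CharP K 2] {R : Finset (Fin n)} (hR : #R + 1 = d) :
    lf (cof a R) ∈ Jd a R := by
  apply Ideal.subset_span
  exact ⟨cof a R, fun v hv => cof_sum_mem a hR hv, rfl⟩

private theorem mon_mem_int [CharP K 2] (h : Ball Γ σ) {R : Finset (Fin n)}
    (hR : R ∈ Γ) (hc : car σ R = univ) : mon K R ∈ interiorIdeal K σ Γ :=
  Ideal.subset_span ⟨R, hR, hc, rfl⟩

private theorem exists_insert {R F : Finset (Fin n)} (hR : R ⊆ F) (hRd : #R + 1 = d)
    (hF : #F = d) : ∃ w, w ∉ R ∧ F = insert w R := by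
  have h1 : #(F \ R) = 1 := by
    rw [Finset.card_sdiff_of_subset hR]
    omega
  obtain ⟨w, hw⟩ := Finset.card_eq_one.mp h1
  have hw' : w ∈ F \ R := by rw [hw]; exact Finset.mem_singleton_self w
  refine ⟨w, (Finset.mem_sdiff.mp hw').2, ?_⟩
  rw [Finset.insert_eq, ← hw, Finset.sdiff_union_of_subset hR]

private theorem two_facets (h : Ball Γ σ) {R : Finset (Fin n)} (hR : R ∈ Γ)
    (hRd : #R + 1 = d) (hc : car σ R = univ) {F F' : Fac Γ d} (hF : R ⊆ F.1) (hF' : R ⊆ F'.1)
    (hne : F.1 ≠ F'.1) (H : Fac Γ d) (hH : R ⊆ H.1) : H.1 = F.1 ∨ H.1 = F'.1 := by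
  by_contra hcon
  push Not at hcon
  have h2 := ridge_interior h hR hRd hc
  have h3 : ({F.1, F'.1, H.1} : Finset (Finset (Fin n))) ⊆ {F ∈ Γ | #F = d ∧ R ⊆ F} := by
    intro G hG
    simp only [Finset.mem_insert, Finset.mem_singleton] at hG
    rw [Finset.mem_filter]
    rcases hG with rfl | rfl | rfl
    · exact ⟨F.2.1, F.2.2, hF⟩
    · exact ⟨F'.2.1, F'.2.2, hF'⟩
    · exact ⟨H.2.1, H.2.2, hH⟩
  have h4 := Finset.card_le_card h3
  rw [h2, Finset.card_eq_three.mpr ⟨F.1, F'.1, H.1, hne, hcon.1.symm, hcon.2.symm, rfl⟩] at h4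
  omega

private theorem ridge_identity [CharP K 2] (h : Ball Γ σ)
    (hdet : ∀ F ∈ Γ, #F = d → pdet a F ≠ 0) {R : Finset (Fin n)} (hR : R ∈ Γ)
    (hRd : #R + 1 = d) (hc : car σ R = univ) {F F' : Fac Γ d} (hF : R ⊆ F.1) (hF' : R ⊆ F'.1)
    (hne : F.1 ≠ F'.1) :
    lf (cof a R) • tau a Γ (mon K R) =
      (MvPolynomial.C (pdet a F.1) : MvPolynomial (Fin d) K) • tau a Γ (mon K F.1) +
      (MvPolynomial.C (pdet a F'.1) : MvPolynomial (Fin d) K) • tau a Γ (mon K F'.1) := by
  have not_sub : ∀ {A B : Fac Γ d}, A.1 ≠ B.1 → ¬ A.1 ⊆ B.1 := by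
    intro A B hAB hs
    exact hAB (Finset.eq_of_subset_of_card_le hs (by rw [A.2.2, B.2.2]))
  funext H
  have e : ∀ p : MvPolynomial (Fin n) K, tau a Γ p H = bet a H.1 p := fun p => rfl
  rw [Pi.add_apply, Pi.smul_apply, Pi.smul_apply, Pi.smul_apply, e, e, e, smul_eq_mul,
    smul_eq_mul, smul_eq_mul]
  have key : ∀ A : Fac Γ d, R ⊆ A.1 → MvPolynomial.C (pdet a A.1) * bet a A.1 (mon K A.1) =
      lf (cof a R) * bet a A.1 (mon K R) := by
    intro A hA
    obtain ⟨w, hw, hA2⟩ := exists_insert hA hRd A.2.2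
    have h1 := hdet A.1 A.2.1 A.2.2
    rw [hA2] at h1 ⊢
    exact bet_mon_insert hw h1
  by_cases hH : R ⊆ H.1
  · rcases two_facets h hR hRd hc hF hF' hne H hH with h1 | h1
    · have h2 : bet a H.1 (mon K F'.1) = 0 := by
        rw [h1]
        exact bet_mon_zero (not_sub (A := F') (B := F) hne.symm)
      rw [h2, mul_zero, add_zero, ← key H hH, h1]
    · have h2 : bet a H.1 (mon K F.1) = 0 := by
        rw [h1]
        exact bet_mon_zero (not_sub (A := F) (B := F') hne)
      rw [h2, mul_zero, zero_add, ← key H hH, h1]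
  · rw [bet_mon_zero hH, bet_mon_zero (fun hs => hH (hF.trans hs)),
      bet_mon_zero (fun hs => hH (hF'.trans hs))]
    simp

/-- An `S`-linear map on `Z0` comes from the face ring. PROOF. For a facet `F` let
`g F = C (pdet a F) * lam ⟨tau a Γ (mon K F), _⟩`. The hypothesis of `glue`: let `R` be an interior
ridge, `F` and `F'` the facets containing it (if the two facets are equal nothing is to be done).
`tau a Γ (mon K R) ∈ Z0` and `lf (cof a R) • tau a Γ (mon K R) = tau a Γ (thc a (cof a R) * mon K R)`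
is the sum of `pdet a F • tau a Γ (mon K F)` over the two facets (`thc_eq`, `cof_sum_mem`,
`cof_sum_notMem`, as in `Wn_expand`), so `g F + g F' = lf (cof a R) * lam ⟨tau a Γ (mon K R), _⟩`, in
`Jd a R` by `Jd_ridge`. -/
theorem exists_of_linear [CharP K 2] (h : Ball Γ σ) (hdet : ∀ F ∈ Γ, #F = d → pdet a F ≠ 0)
    (lam : Z0 a Γ →ₗ[MvPolynomial (Fin d) K] MvPolynomial (Fin d) K) :
    ∃ y : MvPolynomial (Fin n) K, ∀ F (hF : F ∈ Γ) (_ : #F = d) (hz : tau a Γ (mon K F) ∈ Z0 a Γ),
      bet a F y = MvPolynomial.C (pdet a F) * lam ⟨tau a Γ (mon K F), hz⟩ := by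
  have hz : ∀ G ∈ Γ, car σ G = univ → tau a Γ (mon K G) ∈ Z0 a Γ := fun G hG hc =>
    tau_mem h hdet (mon_mem_int h hG hc)
  have hzF : ∀ F : Fac Γ d, tau a Γ (mon K F.1) ∈ Z0 a Γ := fun F =>
    hz F.1 F.2.1 (car_facet h F.2.1 F.2.2)
  obtain ⟨y, hy⟩ := glue h hdet
    (fun F => MvPolynomial.C (pdet a F.1) * lam ⟨tau a Γ (mon K F.1), hzF F⟩) (by
      intro R hR hRd hc F F' hF hF'
      by_cases hne : F.1 = F'.1
      · have : F = F' := Subtype.ext hne
        rw [this, sub_self]
        exact Submodule.zero_mem _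
      · have e1 := ridge_identity h hdet hR hRd hc hF hF' hne
        have e2 : lf (cof a R) • (⟨tau a Γ (mon K R), hz R hR hc⟩ : Z0 a Γ) =
            (MvPolynomial.C (pdet a F.1) : MvPolynomial (Fin d) K) •
              (⟨tau a Γ (mon K F.1), hzF F⟩ : Z0 a Γ) +
            (MvPolynomial.C (pdet a F'.1) : MvPolynomial (Fin d) K) •
              (⟨tau a Γ (mon K F'.1), hzF F'⟩ : Z0 a Γ) :=
          Subtype.ext e1
        have e3 := congrArg lam e2
        rw [map_add, map_smul, map_smul, map_smul, smul_eq_mul, smul_eq_mul, smul_eq_mul] at e3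
        rw [CharTwo.sub_eq_add, ← e3, mul_comm]
        exact Ideal.mul_mem_left _ _ (lf_cof_mem hRd))
  refine ⟨y, fun F hF hd hz' => ?_⟩
  have := congrFun hy ⟨F, hF, hd⟩
  exact this

private theorem exists_of_const {s : MvPolynomial (Fin d) K}
    (hs : MvPolynomial.constantCoeff s = 0) :
    ∃ t : Fin d → MvPolynomial (Fin d) K, ∑ i, MvPolynomial.X i * t i = s := by
  have h1 : s ∈ Ideal.span (Set.range (MvPolynomial.X : Fin d → MvPolynomial (Fin d) K)) := by
    rw [← Set.image_univ, MvPolynomial.mem_ideal_span_X_image]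
    intro m hm
    by_contra hcon
    push Not at hcon
    have : m = 0 := by
      ext i
      exact hcon i (Set.mem_univ i)
    rw [this, MvPolynomial.mem_support_iff] at hm
    exact hm hs
  obtain ⟨c, hc⟩ := Ideal.mem_span_range_iff_exists_fun.mp h1
  exact ⟨c, by rw [← hc]; exact Finset.sum_congr rfl fun i _ => mul_comm _ _⟩

/-- The main step. PROOF. Let `lam z = D0 ⟨tau a Γ y * z, _⟩` (`tau_mul_mem`), an `S`-linear map on `Z0`,
`S = MvPolynomial (Fin d) K`. Its values are in the ideal spanned by the variables. As `Z0` is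
projective (`Z0_projective`) and the map `(s_i) ↦ ∑ X i * s_i` from `Fin d → S` to this ideal is
surjective, `lam = ∑ X i * lam_i` with `S`-linear `lam_i` (`Module.projective_lifting_property`).
`exists_of_linear` gives `y_i` for `lam_i`. For a facet `F` we have, with `z = tau a Γ (mon K F)`,
`C (pdet a F) * lam z = bet a F y` (`Wn_facet`), so `bet a F y = ∑ X i * bet a F y_i` and
`tau a Γ (y - ∑ theta a i * y_i) = 0` (`bet_theta`); `tau_eq_zero`. -/
theorem mem_rel_of_const [CharP K 2] (h : Ball Γ σ) (hdet : ∀ F ∈ Γ, #F = d → pdet a F ≠ 0)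
    (hd : 0 < d) (D0 : Z0 a Γ →ₗ[MvPolynomial (Fin d) K] MvPolynomial (Fin d) K)
    (hD0 : ∀ z : Z0 a Γ, Nn a Γ * D0 z = Wn a Γ z.1) (y : MvPolynomial (Fin n) K)
    (hy : ∀ z : Z0 a Γ, MvPolynomial.constantCoeff
      (D0 ⟨tau a Γ y * z.1, tau_mul_mem hdet y z.2⟩) = 0) : y ∈ relIdeal a Γ := by
  classical
  -- the linear map
  let lam : Z0 a Γ →ₗ[MvPolynomial (Fin d) K] MvPolynomial (Fin d) K :=
    { toFun := fun z => D0 ⟨tau a Γ y * z.1, tau_mul_mem hdet y z.2⟩
      map_add' := by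
        intro z w
        rw [← map_add]
        congr 1
        apply Subtype.ext
        exact mul_add _ _ _
      map_smul' := by
        intro s z
        rw [RingHom.id_apply, ← map_smul]
        congr 1
        apply Subtype.ext
        exact mul_smul_comm _ _ _ }
  let P : (Fin d → MvPolynomial (Fin d) K) →ₗ[MvPolynomial (Fin d) K] MvPolynomial (Fin d) K :=
    ∑ i, (MvPolynomial.X i : MvPolynomial (Fin d) K) • LinearMap.proj i
  have hP : ∀ t, P t = ∑ i, MvPolynomial.X i * t i := by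
    intro t
    simp only [P, LinearMap.sum_apply, LinearMap.smul_apply, LinearMap.proj_apply, smul_eq_mul]
  have hmem : ∀ z, lam z ∈ LinearMap.range P := by
    intro z
    obtain ⟨t, ht⟩ := exists_of_const (hy z)
    exact ⟨t, by rw [hP, ht]; rfl⟩
  have : Module.Projective (MvPolynomial (Fin d) K) (Z0 a Γ) := Z0_projective h hdet hd
  obtain ⟨hh, hhh⟩ := Module.projective_lifting_property P.rangeRestrict
    (lam.codRestrict (LinearMap.range P) hmem) P.surjective_rangeRestrict
  have hlam : ∀ z, lam z = ∑ i, MvPolynomial.X i * hh z i := by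
    intro z
    have h1 := congrArg Subtype.val (LinearMap.congr_fun hhh z)
    have h2 : P (hh z) = lam z := h1
    rw [← h2, hP]
  choose yy hyy using fun i : Fin d => exists_of_linear h hdet ((LinearMap.proj i).comp hh)
  -- the restriction to a facet
  have key : ∀ F : Fac Γ d, bet a F.1 y = ∑ i, MvPolynomial.X i * bet a F.1 (yy i) := by
    intro F
    have hdF := hdet F.1 F.2.1 F.2.2
    have hz : tau a Γ (mon K F.1) ∈ Z0 a Γ :=
      tau_mem h hdet (mon_mem_int h F.2.1 (car_facet h F.2.1 F.2.2))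
    have h1 : Nn a Γ * lam ⟨tau a Γ (mon K F.1), hz⟩ =
        Nn a Γ * (MvPolynomial.C (pdet a F.1)⁻¹ * bet a F.1 y) := by
      rw [← Wn_facet F y, map_mul, mul_comm (tau a Γ (mon K F.1))]
      exact hD0 _
    have h2 := mul_left_cancel₀ (Nn_ne_zero hdet) h1
    have h3 : MvPolynomial.C (pdet a F.1) * lam ⟨tau a Γ (mon K F.1), hz⟩ = bet a F.1 y := by
      rw [h2, ← mul_assoc, ← MvPolynomial.C_mul, mul_inv_cancel₀ hdF, MvPolynomial.C_1, one_mul]
    rw [← h3, hlam, Finset.mul_sum]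
    refine Finset.sum_congr rfl fun i _ => ?_
    have h4 := hyy i F.1 F.2.1 F.2.2 hz
    rw [h4, LinearMap.comp_apply, LinearMap.proj_apply]
    ring
  have h5 : tau a Γ (y - ∑ i, theta a i * yy i) = 0 := by
    funext F
    have e : ∀ p : MvPolynomial (Fin n) K, tau a Γ p F = bet a F.1 p := fun p => rfl
    rw [e, map_sub, map_sum, key F, Pi.zero_apply, sub_eq_zero]
    refine Finset.sum_congr rfl fun i _ => ?_
    rw [map_mul, bet_theta F.2.2 (hdet F.1 F.2.1 F.2.2)]
  have h6 := (tau_eq_zero h hdet _).mp h5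
  have h7 : y = (y - ∑ i, theta a i * yy i) + ∑ i, theta a i * yy i := by ring
  rw [h7]
  unfold relIdeal
  refine Ideal.add_mem _ (Ideal.mem_sup_left h6) (Ideal.mem_sup_right ?_)
  refine Ideal.sum_mem _ fun i _ => Ideal.mul_mem_right _ _ (Ideal.subset_span ⟨i, rfl⟩)

end Pool.Agent.Lib.MP_fd6ff4_co.Two
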