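import Mathlib
import Pool.Agent.Lib.MP_fd6ff4_co.Two.Lin

/-!
# Duality
-/

set_option autoImplicit false

open Finset

namespace Pool.Agent.Lib.MP_fd6ff4_co.Two

universe u

variable {d n : ℕ} {K : Type u} [Field K]

/-- The properties of the degree map `D` with values in `K`. -/
structure DegMap (a : Fin d → Fin n → K) (σ : Fin n → Finset (Fin d))
    (Γ : Finset (Finset (Fin n))) (D : MvPolynomial (Fin n) K →ₗ[K] K) : Prop where
  sr : ∀ p ∈ srIdeal K Γ, D p = 0
  theta : ∀ i, ∀ z ∈ interiorIdeal K σ Γ, D (theta a i * z) = 0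
  facet : ∀ F ∈ Γ, #F = d → D (mon K F) * pdet a F = 1
  dual : ∀ t s, t + s = d → ∀ y : MvPolynomial (Fin n) K, y.IsHomogeneous t →
    (∀ z ∈ interiorIdeal K σ Γ, z.IsHomogeneous s → D (y * z) = 0) → y ∈ relIdeal a Γ

variable {a : Fin d → Fin n → K} {Γ : Finset (Finset (Fin n))} {σ : Fin n → Finset (Fin d)}

/-- the functional on the interior ideal -/
private noncomputable def dualL [CharP K 2] (h : Ball Γ σ)
    (hdet : ∀ F ∈ Γ, #F = d → pdet a F ≠ 0)
    (D0 : Z0 a Γ →ₗ[MvPolynomial (Fin d) K] MvPolynomial (Fin d) K) :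
    (interiorIdeal K σ Γ).restrictScalars K →ₗ[K] K where
  toFun p := MvPolynomial.constantCoeff (D0 ⟨tau a Γ p.1, tau_mem h hdet p.2⟩)
  map_add' p q := by
    rw [← map_add, ← map_add]
    congr 2
    apply Subtype.ext
    simp
  map_smul' c p := by
    have h1 : (⟨tau a Γ (c • p.1), tau_mem h hdet (c • p).2⟩ : Z0 a Γ) =
        (MvPolynomial.C c : MvPolynomial (Fin d) K) • ⟨tau a Γ p.1, tau_mem h hdet p.2⟩ := by
      apply Subtype.ext
      funext F
      change bet a F.1 (c • p.1) = MvPolynomial.C c * bet a F.1 p.1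
      rw [map_smul, MvPolynomial.smul_eq_C_mul]
    change MvPolynomial.constantCoeff (D0 ⟨tau a Γ (c • p.1), tau_mem h hdet (c • p).2⟩) = _
    rw [h1, map_smul, smul_eq_mul, map_mul, MvPolynomial.constantCoeff_C]
    rfl

private theorem dualL_apply [CharP K 2] (h : Ball Γ σ)
    (hdet : ∀ F ∈ Γ, #F = d → pdet a F ≠ 0)
    (D0 : Z0 a Γ →ₗ[MvPolynomial (Fin d) K] MvPolynomial (Fin d) K)
    (p : MvPolynomial (Fin n) K) (hp : p ∈ interiorIdeal K σ Γ) :
    dualL h hdet D0 ⟨p, hp⟩ = MvPolynomial.constantCoeff (D0 ⟨tau a Γ p, tau_mem h hdet hp⟩) :=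
  rfl

private theorem dual_car_mono {F G : Finset (Fin n)} (h : F ⊆ G) (hF : car σ F = univ) :
    car σ G = univ := by
  rw [eq_univ_iff_forall] at hF ⊢
  intro i
  have h1 := hF i
  rw [car, mem_biUnion] at h1 ⊢
  obtain ⟨v, hv, hi⟩ := h1
  exact ⟨v, h hv, hi⟩

private theorem dual_mon_mem (M : Fin n →₀ ℕ) (hM : M.support ∈ Γ) (hc : car σ M.support = univ) :
    MvPolynomial.monomial M (1 : K) ∈ interiorIdeal K σ Γ := by
  classical
  rw [mem_interiorIdeal]
  intro M' hM'
  rw [MvPolynomial.coeff_monomial] at hM'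
  have : M = M' := by
    by_contra hne
    rw [if_neg hne] at hM'
    exact hM' rfl
  subst this
  exact ⟨M.support, hM, hc, Subset.refl _⟩

open Classical in
/-- the extension by zero -/
private noncomputable def dualD [CharP K 2] (h : Ball Γ σ)
    (hdet : ∀ F ∈ Γ, #F = d → pdet a F ≠ 0)
    (D0 : Z0 a Γ →ₗ[MvPolynomial (Fin d) K] MvPolynomial (Fin d) K) :
    MvPolynomial (Fin n) K →ₗ[K] K :=
  (MvPolynomial.basisMonomials (Fin n) K).constr K fun M =>
    if hM : M.support ∈ Γ ∧ car σ M.support = univ then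
      dualL h hdet D0 ⟨MvPolynomial.monomial M 1, dual_mon_mem M hM.1 hM.2⟩ else 0

open Classical in
private theorem dualD_apply [CharP K 2] (h : Ball Γ σ)
    (hdet : ∀ F ∈ Γ, #F = d → pdet a F ≠ 0)
    (D0 : Z0 a Γ →ₗ[MvPolynomial (Fin d) K] MvPolynomial (Fin d) K)
    (p : MvPolynomial (Fin n) K) : dualD h hdet D0 p = ∑ M ∈ p.support, p.coeff M *
      (if hM : M.support ∈ Γ ∧ car σ M.support = univ then
        dualL h hdet D0 ⟨MvPolynomial.monomial M 1, dual_mon_mem M hM.1 hM.2⟩ else 0) := by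
  conv_lhs => rw [p.as_sum]
  rw [map_sum]
  refine Finset.sum_congr rfl fun M _ => ?_
  have h1 : MvPolynomial.monomial M (p.coeff M) =
      p.coeff M • (MvPolynomial.basisMonomials (Fin n) K) M := by
    rw [MvPolynomial.coe_basisMonomials, MvPolynomial.smul_monomial, smul_eq_mul, mul_one]
  rw [h1, map_smul, dualD, Module.Basis.constr_basis, smul_eq_mul]

private theorem dualD_eq [CharP K 2] (h : Ball Γ σ)
    (hdet : ∀ F ∈ Γ, #F = d → pdet a F ≠ 0)
    (D0 : Z0 a Γ →ₗ[MvPolynomial (Fin d) K] MvPolynomial (Fin d) K)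
    (p : MvPolynomial (Fin n) K) (hp : p ∈ interiorIdeal K σ Γ) :
    dualD h hdet D0 p = dualL h hdet D0 ⟨p, hp⟩ := by
  classical
  have hmem : ∀ M : Fin n →₀ ℕ, M ∈ p.support → MvPolynomial.monomial M (p.coeff M) ∈
      interiorIdeal K σ Γ := by
    intro M hM
    rw [mem_interiorIdeal]
    intro M' hM'
    rw [MvPolynomial.coeff_monomial] at hM'
    have : M = M' := by
      by_contra hne
      rw [if_neg hne] at hM'
      exact hM' rfl
    subst this
    exact (mem_interiorIdeal p).1 hp M (MvPolynomial.mem_support_iff.1 hM)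
  have h1 : (⟨p, hp⟩ : (interiorIdeal K σ Γ).restrictScalars K) =
      ∑ M ∈ p.support.attach, ⟨MvPolynomial.monomial M.1 (p.coeff M.1), hmem M.1 M.2⟩ := by
    apply Subtype.ext
    rw [AddSubmonoidClass.coe_finsetSum]
    simp only
    rw [Finset.sum_attach p.support (fun M => MvPolynomial.monomial M (p.coeff M))]
    exact p.as_sum
  rw [h1, map_sum, dualD_apply, ← Finset.sum_attach]
  refine Finset.sum_congr rfl fun M _ => ?_
  obtain ⟨M, hM⟩ := M
  simp only
  split_ifs with hc
  · rw [← smul_eq_mul, ← map_smul]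
    congr 1
    apply Subtype.ext
    change p.coeff M • MvPolynomial.monomial M (1 : K) = _
    rw [MvPolynomial.smul_monomial, smul_eq_mul, mul_one]
  · rw [mul_zero, dualL_apply]
    have h2 : tau a Γ (MvPolynomial.monomial M (p.coeff M)) = 0 := by
      rw [tau_eq_zero h hdet, mem_srIdeal h.down]
      intro M' hM'
      rw [MvPolynomial.coeff_monomial]
      split_ifs with he
      · subst he
        exfalso
        obtain ⟨G, _, hGc, hGM⟩ := (mem_interiorIdeal p).1 hp M (MvPolynomial.mem_support_iff.1 hM)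
        exact hc ⟨hM', dual_car_mono hGM hGc⟩
      · rfl
    have h3 : (⟨tau a Γ (MvPolynomial.monomial M (p.coeff M)), tau_mem h hdet (hmem M hM)⟩ :
        Z0 a Γ) = 0 := Subtype.ext h2
    rw [h3, map_zero, map_zero]

private theorem dual_component (p : MvPolynomial (Fin n) K) (hp : p ∈ interiorIdeal K σ Γ)
    (m : ℕ) : MvPolynomial.homogeneousComponent m p ∈ interiorIdeal K σ Γ := by
  rw [mem_interiorIdeal] at hp ⊢
  intro M hM
  apply hp M
  rw [MvPolynomial.coeff_homogeneousComponent] at hM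
  intro h0
  rw [h0] at hM
  simp at hM

/-- PROOF. `D0` from `exists_deg`. On a monomial `M` with `M.support ∈ Γ` and `car σ M.support = univ`
the value of `D` is the constant coefficient of `D0 (tau M)`, on the other monomials it is `0`
(`MvPolynomial.basisMonomials`, `Basis.constr`). For `p` in the interior ideal `D p` is the constant
coefficient of `D0 (tau p)`: the monomials of `p` contain an interior face, those with support not in
`Γ` have `tau = 0`. `theta`: `tau (theta a i * z) = X i • tau z`. `facet`: `Wn_facet`. `dual`: by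
`mem_rel_of_const` it is enough that the constant coefficient of `D0 (tau (y * p))` is zero for all
`p` in the interior ideal (`exists_of_mem_Z0`); write `p` as the sum of its homogeneous components
(they are in the interior ideal, `mem_interiorIdeal`), the one of degree `s` by hypothesis, the other
ones by `deg_hom`. -/
theorem exists_degMap [CharP K 2] (h : Ball Γ σ) (hdet : ∀ F ∈ Γ, #F = d → pdet a F ≠ 0)
    (hd : 0 < d) : ∃ D : MvPolynomial (Fin n) K →ₗ[K] K, DegMap a σ Γ D := by
  classical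
  obtain ⟨D0, hD0⟩ := exists_deg (σ := σ) h hdet
  refine ⟨dualD h hdet D0, ?_, ?_, ?_, ?_⟩
  · intro p hp
    rw [mem_srIdeal h.down] at hp
    rw [dualD_apply]
    refine Finset.sum_eq_zero fun M _ => ?_
    split_ifs with hc
    · rw [hp M hc.1, zero_mul]
    · rw [mul_zero]
  · intro i z hz
    have hz' : theta a i * z ∈ interiorIdeal K σ Γ := Ideal.mul_mem_left _ _ hz
    rw [dualD_eq h hdet D0 _ hz', dualL_apply]
    have h1 : (⟨tau a Γ (theta a i * z), tau_mem h hdet hz'⟩ : Z0 a Γ) =
        (MvPolynomial.X i : MvPolynomial (Fin d) K) • ⟨tau a Γ z, tau_mem h hdet hz⟩ := by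
      apply Subtype.ext
      funext F
      change bet a F.1 (theta a i * z) = MvPolynomial.X i * bet a F.1 z
      rw [map_mul, bet_theta F.2.2 (hdet F.1 F.2.1 F.2.2)]
    rw [h1, map_smul, smul_eq_mul, map_mul, MvPolynomial.constantCoeff_X, zero_mul]
  · intro F hF hFd
    have hm : mon K F ∈ interiorIdeal K σ Γ :=
      Ideal.subset_span ⟨F, hF, car_facet h hF hFd, rfl⟩
    rw [dualD_eq h hdet D0 _ hm, dualL_apply]
    have h1 := hD0 ⟨tau a Γ (mon K F), tau_mem h hdet hm⟩
    have h2 := Wn_facet (a := a) (Γ := Γ) ⟨F, hF, hFd⟩ 1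
    rw [mul_one, map_one, mul_one] at h2
    rw [h2] at h1
    have h3 := mul_left_cancel₀ (Nn_ne_zero hdet) h1
    rw [h3, MvPolynomial.constantCoeff_C]
    exact inv_mul_cancel₀ (hdet F hF hFd)
  · intro t s hts y hy hyz
    refine mem_rel_of_const h hdet hd D0 hD0 y ?_
    rintro ⟨z, hz⟩
    obtain ⟨p, hp, rfl⟩ := exists_of_mem_Z0 h hdet hz
    have hyp : y * p ∈ interiorIdeal K σ Γ := Ideal.mul_mem_left _ _ hp
    have h1 : MvPolynomial.constantCoeff (D0 ⟨tau a Γ y * tau a Γ p, tau_mul_mem hdet y hz⟩) =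
        dualL h hdet D0 ⟨y * p, hyp⟩ := by
      rw [dualL_apply]
      congr 2
      apply Subtype.ext
      simp only
      rw [map_mul]
    rw [h1, ← dualD_eq]
    have h2 : p = ∑ m ∈ range (p.totalDegree + 1), MvPolynomial.homogeneousComponent m p :=
      (MvPolynomial.sum_homogeneousComponent p).symm
    rw [h2, Finset.mul_sum, map_sum]
    refine Finset.sum_eq_zero fun m _ => ?_
    have hpm := dual_component (σ := σ) (Γ := Γ) p hp m
    by_cases hm : m = s
    · subst hm
      exact hyz _ hpm (MvPolynomial.homogeneousComponent_isHomogeneous _ _)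
    · have hyp' : y * MvPolynomial.homogeneousComponent m p ∈ interiorIdeal K σ Γ :=
        Ideal.mul_mem_left _ _ hpm
      rw [dualD_eq h hdet D0 _ hyp', dualL_apply]
      refine deg_hom h hdet (m := t + m)
        (hy.mul (MvPolynomial.homogeneousComponent_isHomogeneous m p)) (by omega) (hD0 _)

end Pool.Agent.Lib.MP_fd6ff4_co.Two
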