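import Mathlib
import Pool.Agent.Lib.MP_fd6ff4_co.Two.Dual

/-!
# The functional of Papadakis and Petrotou in characteristic 2
-/

set_option autoImplicit false

open Finset

namespace Pool.Agent.Lib.MP_fd6ff4_co.Two

universe u

variable {d n : ℕ} {K : Type u} [Field K]

/-- all the exponents are even -/
def Evn (M : Fin n →₀ ℕ) : Prop := ∀ v, Even (M v)

/-- half of the exponents -/
noncomputable def half (M : Fin n →₀ ℕ) : Fin n →₀ ℕ := M.mapRange (fun m => m / 2) rfl

/-- the exponent of the product of the `x_(I i)` -/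
noncomputable def ind (I : Fin d → Fin n) : Fin n →₀ ℕ := ∑ i, Finsupp.single (I i) 1

open Classical in
/-- The functional `c x^(2 N) ↦ c D(x^N)^2`, `0` on the monomials which are not squares. -/
noncomputable def Psi (D : MvPolynomial (Fin n) K →ₗ[K] K) : MvPolynomial (Fin n) K →ₗ[K] K :=
  (MvPolynomial.basisMonomials (Fin n) K).constr K fun M =>
    if Evn M then D (MvPolynomial.monomial (half M) 1) ^ 2 else 0

variable {a : Fin d → Fin n → K} {Γ : Finset (Finset (Fin n))} {σ : Fin n → Finset (Fin d)}
  {D : MvPolynomial (Fin n) K →ₗ[K] K}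

private theorem psi_monomial (D : MvPolynomial (Fin n) K →ₗ[K] K) (M : Fin n →₀ ℕ) (c : K) :
    Psi D (MvPolynomial.monomial M c) =
      c * @ite K (Evn M) (Classical.propDecidable _)
        (D (MvPolynomial.monomial (half M) 1) ^ 2) 0 := by
  classical
  have h1 : MvPolynomial.monomial M c = c • (MvPolynomial.basisMonomials (Fin n) K) M := by
    rw [MvPolynomial.coe_basisMonomials, MvPolynomial.smul_monomial, smul_eq_mul, mul_one]
  rw [h1, map_smul, Psi, Module.Basis.constr_basis, smul_eq_mul]

private theorem psi_even_add (N M : Fin n →₀ ℕ) : Evn (2 • N + M) ↔ Evn M := by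
  unfold Evn
  refine forall_congr' fun v => ?_
  rw [Finsupp.add_apply, Finsupp.smul_apply, smul_eq_mul, Nat.even_add]
  simp

private theorem psi_half_add (N M : Fin n →₀ ℕ) : half (2 • N + M) = N + half M := by
  ext v
  simp only [half, Finsupp.mapRange_apply, Finsupp.add_apply, Finsupp.smul_apply, smul_eq_mul]
  omega

private theorem psi_half_support {M : Fin n →₀ ℕ} (hM : Evn M) :
    (half M).support = M.support := by
  ext v
  rw [Finsupp.mem_support_iff, Finsupp.mem_support_iff, half, Finsupp.mapRange_apply]
  obtain ⟨k, hk⟩ := hM v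
  omega

private theorem psi_sum (D : MvPolynomial (Fin n) K →ₗ[K] K) (z : MvPolynomial (Fin n) K) :
    Psi D z = ∑ M ∈ z.support, z.coeff M * @ite K (Evn M) (Classical.propDecidable _)
        (D (MvPolynomial.monomial (half M) 1) ^ 2) 0 := by
  conv_lhs => rw [z.as_sum]
  rw [map_sum]
  exact Finset.sum_congr rfl fun M _ => psi_monomial D M _

open Classical in
/-- PROOF. In characteristic 2 `(∑ r N x^N)^2 = ∑ r N ^ 2 x^(2 N)`, and
`∑ r N ^ 2 * D (x^(N + half M)) ^ 2 = (∑ r N * D (x^(N + half M))) ^ 2`. -/
theorem Psi_sq [CharP K 2] (D : MvPolynomial (Fin n) K →ₗ[K] K) (p : MvPolynomial (Fin n) K)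
    (M : Fin n →₀ ℕ) : Psi D (p ^ 2 * MvPolynomial.monomial M 1) =
      if Evn M then D (p * MvPolynomial.monomial (half M) 1) ^ 2 else 0 := by
  induction p using MvPolynomial.induction_on' with
  | monomial N c =>
    rw [MvPolynomial.monomial_pow, MvPolynomial.monomial_mul, mul_one, psi_monomial,
      MvPolynomial.monomial_mul, mul_one]
    have h1 : MvPolynomial.monomial (N + half M) c =
        c • MvPolynomial.monomial (N + half M) (1 : K) := by
      rw [MvPolynomial.smul_monomial, smul_eq_mul, mul_one]
    rw [h1, map_smul, smul_eq_mul, psi_half_add]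
    by_cases hM : Evn M
    · rw [if_pos ((psi_even_add N M).2 hM), if_pos hM, mul_pow]
    · rw [if_neg (fun h => hM ((psi_even_add N M).1 h)), if_neg hM, mul_zero]
  | add p q hp hq =>
    have h1 : (p + q) ^ 2 = p ^ 2 + q ^ 2 := CharTwo.add_sq p q
    rw [h1, add_mul, map_add, hp, hq, add_mul, map_add]
    by_cases hM : Evn M
    · rw [if_pos hM, if_pos hM, if_pos hM]
      exact (CharTwo.add_sq _ _).symm
    · rw [if_neg hM, if_neg hM, if_neg hM, add_zero]

/-- PROOF. For a monomial `M` of an element of the interior ideal, `M` even, `half M` has the same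
support, so `monomial (half M) 1` is in the interior ideal; `Psi_sq` and `hD.theta`. -/
theorem Psi_theta_sq [CharP K 2] (hD : DegMap a σ Γ D) (i : Fin d) {z : MvPolynomial (Fin n) K}
    (hz : z ∈ interiorIdeal K σ Γ) : Psi D (theta a i ^ 2 * z) = 0 := by
  classical
  rw [mem_interiorIdeal] at hz
  have h1 : theta a i ^ 2 * z = ∑ M ∈ z.support,
      z.coeff M • (theta a i ^ 2 * MvPolynomial.monomial M 1) := by
    conv_lhs => rw [z.as_sum, Finset.mul_sum]
    refine Finset.sum_congr rfl fun M _ => ?_
    rw [← mul_smul_comm, MvPolynomial.smul_monomial, smul_eq_mul, mul_one]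
  rw [h1, map_sum]
  refine Finset.sum_eq_zero fun M hM => ?_
  rw [map_smul, Psi_sq]
  split_ifs with hE
  · have h2 : MvPolynomial.monomial (half M) (1 : K) ∈ interiorIdeal K σ Γ := by
      rw [mem_interiorIdeal]
      intro M' hM'
      have h3 : half M = M' := by
        by_contra hne
        rw [MvPolynomial.coeff_monomial, if_neg hne] at hM'
        exact hM' rfl
      rw [← h3, psi_half_support hE]
      exact hz M (MvPolynomial.mem_support_iff.1 hM)
    rw [hD.theta i _ h2]
    simp
  · simp

/-- PROOF. `mem_srIdeal`, same support. -/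
theorem Psi_sr (h : Ball Γ σ) (hD : DegMap a σ Γ D) {z : MvPolynomial (Fin n) K}
    (hz : z ∈ srIdeal K Γ) : Psi D z = 0 := by
  classical
  rw [mem_srIdeal h.down] at hz
  rw [psi_sum]
  refine Finset.sum_eq_zero fun M hM => ?_
  split_ifs with hE
  · have h2 : MvPolynomial.monomial (half M) (1 : K) ∈ srIdeal K Γ := by
      rw [mem_srIdeal h.down]
      intro M' hM'
      rw [MvPolynomial.coeff_monomial]
      split_ifs with he
      · exfalso
        rw [← he, psi_half_support hE] at hM'
        exact MvPolynomial.mem_support_iff.1 hM (hz M hM')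
      · rfl
    rw [hD.sr _ h2]
    simp
  · simp

/-- PROOF. The product of the `theta a i` is the sum over `I : Fin d → Fin n` of
`C (∏ i, a i (I i)) * monomial (ind I) 1` (`Finset.prod_univ_sum`). -/
theorem prod_theta (a : Fin d → Fin n → K) : ∏ i, theta a i =
    ∑ I : Fin d → Fin n, MvPolynomial.C (∏ i, a i (I i)) * MvPolynomial.monomial (ind I) 1 := by
  classical
  unfold theta
  rw [Finset.prod_univ_sum, Fintype.piFinset_univ]
  refine Finset.sum_congr rfl fun I _ => ?_
  rw [Finset.prod_mul_distrib, ← map_prod, ind, MvPolynomial.monomial_sum_one]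
  rfl

/-- PROOF. `prod_theta`; the monomial `ind I + ∑ v ∈ F, single v 1` is even iff the image of `I` is `F`
(`#F = d`: every `v ∈ F` is `I i` for an odd number of `i`, so for exactly one), and then half of it is
the exponent of `mon K F`. So the value is `pdet a F * D (mon K F) ^ 2`. -/
theorem Psi_facet [CharP K 2] (hD : DegMap a σ Γ D) {F : Finset (Fin n)} (hF : F ∈ Γ)
    (hFd : #F = d) : Psi D ((∏ i, theta a i) * mon K F) = D (mon K F) := by
  classical
  have hmon : mon K F = MvPolynomial.monomial (∑ v ∈ F, Finsupp.single v 1) (1 : K) := by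
    rw [mon, MvPolynomial.monomial_sum_one]
    rfl
  have hval : ∀ v, (∑ w ∈ F, Finsupp.single w 1 : Fin n →₀ ℕ) v = if v ∈ F then 1 else 0 := by
    intro v
    rw [Finsupp.finsetSum_apply]
    simp only [Finsupp.single_apply]
    rw [Finset.sum_ite_eq']
  have hind : ∀ (I : Fin d → Fin n) (v : Fin n), ind I v = #{i | I i = v} := by
    intro I v
    rw [ind, Finsupp.finsetSum_apply, Finset.card_filter]
    exact Finset.sum_congr rfl fun i _ => Finsupp.single_apply
  have himg : ∀ I : Fin d → Fin n, univ.image I = F → ind I = ∑ v ∈ F, Finsupp.single v 1 := by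
    intro I hI
    have hinj : Function.Injective I := by
      rw [← Set.injOn_univ, ← Finset.coe_univ, ← Finset.card_image_iff, hI, hFd]
      simp
    rw [← hI, Finset.sum_image (fun x _ y _ h => hinj h)]
    rfl
  have hev : ∀ I : Fin d → Fin n, Evn (ind I + ∑ v ∈ F, Finsupp.single v 1) ↔
      univ.image I = F := by
    intro I
    constructor
    · intro hE
      symm
      refine Finset.eq_of_subset_of_card_le ?_ ?_
      · intro v hv
        have h1 := hE v
        rw [Finsupp.add_apply, hval, if_pos hv, hind] at h1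
        have h2 : 0 < #{i | I i = v} := by
          by_contra h0
          have h3 : #{i | I i = v} = 0 := by omega
          rw [h3] at h1
          exact absurd h1 (by decide)
        obtain ⟨i, hi⟩ := Finset.card_pos.1 h2
        rw [Finset.mem_filter] at hi
        exact Finset.mem_image.2 ⟨i, Finset.mem_univ i, hi.2⟩
      · rw [hFd]
        refine Finset.card_image_le.trans ?_
        simp
    · intro hI v
      rw [himg I hI, Finsupp.add_apply]
      exact ⟨_, rfl⟩
  rw [prod_theta, Finset.sum_mul, map_sum]
  have hterm : ∀ I : Fin d → Fin n, Psi D (MvPolynomial.C (∏ i, a i (I i)) *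
      MvPolynomial.monomial (ind I) 1 * mon K F) =
      if univ.image I = F then (∏ i, a i (I i)) * D (mon K F) ^ 2 else 0 := by
    intro I
    rw [hmon, mul_assoc, MvPolynomial.monomial_mul, mul_one, ← MvPolynomial.smul_eq_C_mul,
      map_smul, smul_eq_mul, psi_monomial, one_mul]
    by_cases hI : univ.image I = F
    · rw [if_pos ((hev I).2 hI), if_pos hI]
      have hh : half (ind I + ∑ v ∈ F, Finsupp.single v 1) = ∑ v ∈ F, Finsupp.single v 1 := by
        rw [himg I hI]
        ext v
        rw [half, Finsupp.mapRange_apply, Finsupp.add_apply]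
        omega
      rw [hh]
    · rw [if_neg (fun h => hI ((hev I).1 h)), if_neg hI, mul_zero]
  rw [Finset.sum_congr rfl fun I _ => hterm I, ← Finset.sum_filter, ← Finset.sum_mul]
  have h5 : ∑ I ∈ univ.filter (fun I : Fin d → Fin n => univ.image I = F), ∏ i, a i (I i) =
      pdet a F := by
    unfold pdet
    congr
  rw [h5]
  have h6 := hD.facet F hF hFd
  rw [pow_two, ← mul_assoc, mul_comm (pdet a F), h6, one_mul]

end Pool.Agent.Lib.MP_fd6ff4_co.Two
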