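import Mathlib
import Pool.Agent.Lib.MP_fd6ff4_co.Two.Psi

/-!
# The identity of Papadakis and Petrotou in characteristic 2
-/

set_option autoImplicit false

open Finset

namespace Pool.Agent.Lib.MP_fd6ff4_co.Two

universe u

variable {d n : ℕ} {K : Type u} [Field K]
  {a : Fin d → Fin n → K} {Γ : Finset (Finset (Fin n))} {σ : Fin n → Finset (Fin d)}
  {D : MvPolynomial (Fin n) K →ₗ[K] K}

private theorem pp_sr_monomial (h : Ball Γ σ) (M : Fin n →₀ ℕ) (hM : M.support ∉ Γ) :
    MvPolynomial.monomial M (1 : K) ∈ srIdeal K Γ := by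
  classical
  rw [mem_srIdeal h.down]
  intro M' hM'
  rw [MvPolynomial.coeff_monomial, if_neg]
  rintro rfl
  exact hM hM'

private theorem pp_int_monomial (M : Fin n →₀ ℕ) (hM : M.support ∈ Γ)
    (hc : car σ M.support = univ) :
    MvPolynomial.monomial M (1 : K) ∈ interiorIdeal K σ Γ := by
  classical
  rw [mem_interiorIdeal]
  intro M' hM'
  rw [MvPolynomial.coeff_monomial] at hM'
  have h1 : M = M' := by
    by_contra hne
    rw [if_neg hne] at hM'
    exact hM' rfl
  subst h1
  exact ⟨M.support, hM, hc, subset_rfl⟩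

private theorem pp_car_mono {F G : Finset (Fin n)} (hFG : F ⊆ G) (hF : car σ F = univ) :
    car σ G = univ := by
  rw [← univ_subset_iff, ← hF]
  exact biUnion_subset_biUnion_of_subset_left _ hFG

/-- A monomial of degree `#F` with support `F` is `mon K F`. -/
private theorem pp_mon (M : Fin n →₀ ℕ) (hM : M.degree = #M.support) :
    MvPolynomial.monomial M (1 : K) = mon K M.support := by
  classical
  have h1 : ∀ v ∈ M.support, M v = 1 := by
    have h2 : ∑ v ∈ M.support, M v = ∑ v ∈ M.support, 1 := by
      rw [sum_const, smul_eq_mul, mul_one, ← hM]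
      rfl
    have h3 : ∀ v ∈ M.support, 1 ≤ M v := fun v hv =>
      Nat.one_le_iff_ne_zero.2 (Finsupp.mem_support_iff.1 hv)
    have h4 := (sum_eq_sum_iff_of_le h3).1 h2.symm
    exact fun v hv => (h4 v hv).symm
  rw [MvPolynomial.monomial_eq, MvPolynomial.C_1, one_mul]
  unfold mon
  exact prod_congr rfl fun v hv => by
    show (MvPolynomial.X v : MvPolynomial (Fin n) K) ^ (M v) = _
    rw [h1 v hv, pow_one]

/-- The monomials with interior support. -/
private theorem pp_monomial [CharP K 2] (h : Ball Γ σ) (hdet : ∀ F ∈ Γ, #F = d → pdet a F ≠ 0)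
    (E : MvPolynomial (Fin n) K →ₗ[K] K) (hsr : ∀ p ∈ srIdeal K Γ, E p = 0)
    (hth : ∀ i, ∀ z ∈ interiorIdeal K σ Γ, E (theta a i * z) = 0)
    (hfa : ∀ F ∈ Γ, #F = d → E (mon K F) = 0) (k : ℕ) : ∀ M : Fin n →₀ ℕ, M.degree = d →
      M.support ∈ Γ → car σ M.support = univ → d = #M.support + k →
        E (MvPolynomial.monomial M 1) = 0 := by
  classical
  induction k with
  | zero =>
    intro M hMd hM _ hk
    rw [pp_mon M (by rw [hMd, hk, add_zero])]
    exact hfa _ hM (by rw [hk, add_zero])
  | succ k ih =>
    intro M hMd hM hc hk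
    obtain ⟨v, hv, hv2⟩ : ∃ v ∈ M.support, 2 ≤ M v := by
      by_contra hcon
      push Not at hcon
      have h2 : ∑ v ∈ M.support, M v ≤ ∑ v ∈ M.support, 1 :=
        sum_le_sum fun v hv => Nat.le_of_lt_succ (hcon v hv)
      have h3 : M.degree = ∑ v ∈ M.support, M v := rfl
      rw [← h3, hMd, sum_const, smul_eq_mul, mul_one] at h2
      omega
    obtain ⟨F, hF, hFd, hGF⟩ := exists_facet h hM
    set c : Fin d → K := fun i => cof a (F.erase v) i / pdet a F with hcdef
    have hdual : ∀ w ∈ F, ∑ i, c i * a i w = if v = w then 1 else 0 := fun w hw =>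
      dual_basis hFd (hdet F hF hFd) (hGF hv) hw
    set M' : Fin n →₀ ℕ := M - Finsupp.single v 1 with hM'
    have hadd : M' + Finsupp.single v 1 = M := by
      ext w
      simp only [hM', Finsupp.add_apply, Finsupp.tsub_apply]
      by_cases hw : w = v
      · subst hw
        rw [Finsupp.single_eq_same]
        omega
      · rw [Finsupp.single_eq_of_ne hw]
        omega
    have hM'v : ∀ w, w ≠ v → M' w = M w := by
      intro w hw
      simp only [hM', Finsupp.tsub_apply]
      rw [Finsupp.single_eq_of_ne hw]
      omega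
    have hM'v' : M' v = M v - 1 := by
      simp only [hM', Finsupp.tsub_apply]
      rw [Finsupp.single_eq_same]
    have hsupp : M'.support = M.support := by
      ext w
      rw [Finsupp.mem_support_iff, Finsupp.mem_support_iff]
      by_cases hw : w = v
      · subst hw
        rw [hM'v']
        constructor <;> intro <;> omega
      · rw [hM'v w hw]
    have hint : MvPolynomial.monomial M' (1 : K) ∈ interiorIdeal K σ Γ :=
      pp_int_monomial M' (hsupp ▸ hM) (hsupp ▸ hc)
    have h0 : E (thc a c * MvPolynomial.monomial M' 1) = 0 := by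
      unfold thc
      rw [sum_mul, map_sum]
      refine sum_eq_zero fun i _ => ?_
      have e1 : MvPolynomial.C (c i) * theta a i * MvPolynomial.monomial M' 1 =
          c i • (theta a i * MvPolynomial.monomial M' (1 : K)) := by
        rw [MvPolynomial.smul_eq_C_mul]
        ring
      rw [e1, map_smul, hth i _ hint, smul_zero]
    rw [thc_eq, sum_mul, map_sum] at h0
    have hterm : ∀ u, E (MvPolynomial.C (∑ i, c i * a i u) * MvPolynomial.X u *
        MvPolynomial.monomial M' 1) =
        (∑ i, c i * a i u) * E (MvPolynomial.monomial (M' + Finsupp.single u 1) 1) := by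
      intro u
      have e1 : MvPolynomial.C (∑ i, c i * a i u) * MvPolynomial.X u *
          MvPolynomial.monomial M' (1 : K) =
          (∑ i, c i * a i u) • MvPolynomial.monomial (M' + Finsupp.single u 1) (1 : K) := by
        rw [MvPolynomial.smul_eq_C_mul, mul_assoc]
        congr 1
        rw [MvPolynomial.X, MvPolynomial.monomial_mul, one_mul, add_comm]
      rw [e1, map_smul, smul_eq_mul]
    rw [sum_congr rfl fun u _ => hterm u] at h0
    rw [sum_eq_single v] at h0
    · rw [hdual v (hGF hv), if_pos rfl, one_mul, hadd] at h0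
      exact h0
    · intro u _ huv
      by_cases huF : u ∈ F
      · rw [hdual u huF, if_neg (Ne.symm huv), zero_mul]
      · have huG : u ∉ M.support := fun hu => huF (hGF hu)
        have hs : (M' + Finsupp.single u 1).support = insert u M.support := by
          ext w
          rw [Finsupp.mem_support_iff, mem_insert, Finsupp.mem_support_iff, Finsupp.add_apply]
          by_cases hw : w = u
          · subst hw
            rw [Finsupp.single_eq_same]
            constructor
            · intro _
              exact Or.inl rfl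
            · intro _
              omega
          · rw [Finsupp.single_eq_of_ne hw, add_zero]
            have h5 : M' w ≠ 0 ↔ M w ≠ 0 := by
              rw [← Finsupp.mem_support_iff, hsupp, Finsupp.mem_support_iff]
            rw [h5]
            constructor
            · exact fun h6 => Or.inr h6
            · exact fun h6 => h6.resolve_left hw
        have hE : E (MvPolynomial.monomial (M' + Finsupp.single u 1) 1) = 0 := by
          by_cases hins : insert u M.support ∈ Γ
          · refine ih _ ?_ (hs ▸ hins) ?_ ?_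
            · have h6 : (M' + Finsupp.single u 1).degree = M'.degree + 1 := by
                rw [map_add, Finsupp.degree_single]
              have h7 : M.degree = M'.degree + 1 := by
                rw [← hadd, map_add, Finsupp.degree_single]
              rw [h6, ← h7, hMd]
            · rw [hs]
              exact pp_car_mono (subset_insert _ _) hc
            · rw [hs, card_insert_of_notMem huG]
              omega
          · exact hsr _ (pp_sr_monomial h _ (hs ▸ hins))
        rw [hE, mul_zero]
    · intro hcon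
      exact absurd (mem_univ v) hcon

/-- A functional which vanishes on the relations and on the facets is zero on the interior ideal in
degree `d`. PROOF. It is enough to consider monomials `M` of degree `d` whose support `G` contains
an interior face; if `G ∉ Γ` use `hsr`; so `G ∈ Γ`, `car σ G = univ`. Induction on `d - #G`. If `#G = d`
then `M` is the exponent of `mon K G`. If `#G < d` there is `v ∈ G` with `M v ≥ 2`. Let `F ⊇ G` be a
facet and `c` the dual basis vector of `v` (`dual_basis`); `thc a c * monomial (M - single v 1) 1` is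
`monomial M 1` plus a combination of the `monomial (M - single v 1 + single u 1) 1`, `u ∉ G`, with
support `insert u G` (`thc_eq`), and `M - single v 1` has support `G`. -/
theorem span_facets [CharP K 2] (h : Ball Γ σ) (hdet : ∀ F ∈ Γ, #F = d → pdet a F ≠ 0)
    (E : MvPolynomial (Fin n) K →ₗ[K] K) (hsr : ∀ p ∈ srIdeal K Γ, E p = 0)
    (hth : ∀ i, ∀ z ∈ interiorIdeal K σ Γ, E (theta a i * z) = 0)
    (hfa : ∀ F ∈ Γ, #F = d → E (mon K F) = 0) {z : MvPolynomial (Fin n) K}
    (hz : z ∈ interiorIdeal K σ Γ) (hzd : z.IsHomogeneous d) : E z = 0 := by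
  classical
  rw [MvPolynomial.as_sum z, map_sum]
  refine sum_eq_zero fun M hM => ?_
  have hM0 : MvPolynomial.coeff M z ≠ 0 := MvPolynomial.mem_support_iff.1 hM
  have e1 : MvPolynomial.monomial M (MvPolynomial.coeff M z) =
      MvPolynomial.coeff M z • MvPolynomial.monomial M (1 : K) := by
    rw [MvPolynomial.smul_monomial, smul_eq_mul, mul_one]
  rw [e1, map_smul]
  have hMd : M.degree = d := by
    have h1 := hzd hM0
    rw [Finsupp.degree_eq_weight_one]
    exact h1
  obtain ⟨G, hG, hGc, hGM⟩ := (mem_interiorIdeal z).1 hz M hM0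
  by_cases hMΓ : M.support ∈ Γ
  · obtain ⟨k, hk⟩ := Nat.exists_eq_add_of_le (card_le h hMΓ)
    rw [pp_monomial h hdet E hsr hth hfa k M hMd hMΓ (pp_car_mono hGM hGc) hk, smul_zero]
  · rw [hsr _ (pp_sr_monomial h M hMΓ), smul_zero]

/-- The identity. PROOF. `span_facets` for `E z = D z - Psi D ((∏ i, theta a i) * z)`:
`Psi_theta_sq`, `Psi_sr`, `Psi_facet`. -/
theorem pp [CharP K 2] (h : Ball Γ σ) (hdet : ∀ F ∈ Γ, #F = d → pdet a F ≠ 0)
    (hD : DegMap a σ Γ D) {z : MvPolynomial (Fin n) K} (hz : z ∈ interiorIdeal K σ Γ)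
    (hzd : z.IsHomogeneous d) : D z = Psi D ((∏ i, theta a i) * z) := by
  classical
  set E : MvPolynomial (Fin n) K →ₗ[K] K :=
    D - (Psi D).comp (LinearMap.mulLeft K (∏ i, theta a i)) with hE
  have hEv : ∀ p, E p = D p - Psi D ((∏ i, theta a i) * p) := fun p => rfl
  have h0 : E z = 0 := by
    refine span_facets h hdet E ?_ ?_ ?_ hz hzd
    · intro p hp
      rw [hEv, hD.sr p hp, Psi_sr h hD (Ideal.mul_mem_left _ _ hp), sub_zero]
    · intro i p hp
      have e1 : (∏ j, theta a j) * (theta a i * p) =
          theta a i ^ 2 * ((∏ j ∈ univ.erase i, theta a j) * p) := by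
        rw [← mul_prod_erase univ (theta a) (mem_univ i)]
        ring
      rw [hEv, hD.theta i p hp, e1, Psi_theta_sq hD i (Ideal.mul_mem_left _ _ hp), sub_zero]
    · intro F hF hFd
      rw [hEv, Psi_facet hD hF hFd, sub_self]
  rw [hEv] at h0
  exact sub_eq_zero.1 h0

open Classical in
/-- The identity for a square times a monomial. PROOF. `pp`, `prod_theta`, `Psi_sq`. -/
theorem pp_sq [CharP K 2] (h : Ball Γ σ) (hdet : ∀ F ∈ Γ, #F = d → pdet a F ≠ 0)
    (hD : DegMap a σ Γ D) {g : MvPolynomial (Fin n) K} (hg : g ∈ interiorIdeal K σ Γ) {s : ℕ}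
    (hgs : g.IsHomogeneous s) {κ : Fin n →₀ ℕ} (hκ : 2 * s + κ.degree = d) :
    D (g ^ 2 * MvPolynomial.monomial κ 1) = ∑ I : Fin d → Fin n, (∏ i, a i (I i)) *
      (if Evn (ind I + κ) then D (g * MvPolynomial.monomial (half (ind I + κ)) 1) else 0) ^ 2 := by
  have hz : g ^ 2 * MvPolynomial.monomial κ (1 : K) ∈ interiorIdeal K σ Γ := by
    rw [sq, mul_assoc]
    exact Ideal.mul_mem_right _ _ hg
  have hzd : (g ^ 2 * MvPolynomial.monomial κ (1 : K)).IsHomogeneous d := by
    have h1 := (hgs.pow 2).mul (MvPolynomial.isHomogeneous_monomial (1 : K) (rfl : κ.degree = _))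
    have h2 : s * 2 + κ.degree = d := by rw [mul_comm, hκ]
    rwa [h2] at h1
  rw [pp h hdet hD hz hzd, prod_theta, sum_mul, map_sum]
  refine sum_congr rfl fun I _ => ?_
  have e1 : MvPolynomial.C (∏ i, a i (I i)) * MvPolynomial.monomial (ind I) 1 *
      (g ^ 2 * MvPolynomial.monomial κ 1) =
      (∏ i, a i (I i)) • (g ^ 2 * MvPolynomial.monomial (ind I + κ) (1 : K)) := by
    rw [MvPolynomial.smul_eq_C_mul]
    have e2 : MvPolynomial.monomial (ind I + κ) (1 : K) =
        MvPolynomial.monomial (ind I) 1 * MvPolynomial.monomial κ 1 := by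
      rw [MvPolynomial.monomial_mul, one_mul]
    rw [e2]
    ring
  rw [e1, map_smul, smul_eq_mul, Psi_sq]
  congr 1
  split_ifs with h3
  · rfl
  · rw [zero_pow two_ne_zero]

end Pool.Agent.Lib.MP_fd6ff4_co.Two
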