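import Mathlib
import Pool.Agent.Lib.MP_fd6ff4_co.Two.Dual

/-!
# Functionals are given by elements of the interior ideal
-/

set_option autoImplicit false

open Finset

namespace Pool.Agent.Lib.MP_fd6ff4_co.Two

universe u

variable {d n : ℕ} {K : Type u} [Field K] {a : Fin d → Fin n → K}
  {Γ : Finset (Finset (Fin n))} {σ : Fin n → Finset (Fin d)}
  {D : MvPolynomial (Fin n) K →ₗ[K] K}

private theorem socle_rel (hD : DegMap a σ Γ D) {r w : MvPolynomial (Fin n) K}
    (hr : r ∈ relIdeal a Γ) (hw : w ∈ interiorIdeal K σ Γ) : D (r * w) = 0 := by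
  unfold relIdeal at hr
  have key : ∀ q ∈ Ideal.span (Set.range (theta a)), ∀ w ∈ interiorIdeal K σ Γ,
      D (q * w) = 0 := by
    intro q hq
    induction hq using Submodule.span_induction with
    | mem x hx =>
      obtain ⟨i, rfl⟩ := hx
      exact fun w hw => hD.theta i w hw
    | zero => intro w _; simp
    | add x y _ _ hx hy =>
      intro w hw
      rw [add_mul, map_add, hx w hw, hy w hw, add_zero]
    | smul c x _ hx =>
      intro w hw
      rw [smul_eq_mul, show c * x * w = x * (c * w) by ring]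
      exact hx _ (Ideal.mul_mem_left _ _ hw)
  obtain ⟨p, hp, q, hq, rfl⟩ := Submodule.mem_sup.1 hr
  rw [add_mul, map_add, hD.sr _ (Ideal.mul_mem_right _ _ hp), zero_add]
  exact key q hq w hw

/-- PROOF. Linear algebra. Let `A` be the space of the homogeneous polynomials of degree `t`
(`MvPolynomial.homogeneousSubmodule`, finite-dimensional), `A' ≤ A` the part in `relIdeal`, `B` the
space of the homogeneous elements of degree `s` of the interior ideal. The functional `φ` on the
homogeneous part of degree `t` of the interior ideal vanishes on the elements which are in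
`relIdeal`, so there is a functional `ψ` on `A` which vanishes on `A'` and agrees with `φ` on the
interior ideal. The functionals `y ↦ D (g * y)`, `g ∈ B`, on `A` vanish on `A'` (an element
of `relIdeal` is `r + ∑ theta a i * h i` with `r ∈ srIdeal`; `hD.sr`, `hD.theta`), and by `hD.dual` an
element `y` of `A` on which all of them vanish is in `A'`. So they are all the functionals which vanish
on `A'` (finite dimension), in particular `ψ`. -/
theorem exists_elem (hD : DegMap a σ Γ D) {t s : ℕ} (hts : t + s = d)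
    (φ : MvPolynomial (Fin n) K →ₗ[K] K)
    (hφ : ∀ z ∈ interiorIdeal K σ Γ, z ∈ relIdeal a Γ → z.IsHomogeneous t → φ z = 0) :
    ∃ g ∈ interiorIdeal K σ Γ, g.IsHomogeneous s ∧
      ∀ z ∈ interiorIdeal K σ Γ, z.IsHomogeneous t → φ z = D (g * z) := by
  classical
  -- the homogeneous parts of the interior ideal
  let I : ℕ → Submodule K (MvPolynomial (Fin n) K) := fun m =>
    ((interiorIdeal K σ Γ).restrictScalars K) ⊓ MvPolynomial.homogeneousSubmodule (Fin n) K m
  have hfin : Module.Finite K (I s) := by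
    have h1 : Module.Finite K (MvPolynomial.homogeneousSubmodule (Fin n) K s) :=
      Module.Finite.iff_fg.2 (MvPolynomial.homogeneousSubmodule_fg (Fin n) K s)
    exact Submodule.finiteDimensional_of_le
      (inf_le_right : I s ≤ MvPolynomial.homogeneousSubmodule (Fin n) K s)
  -- the pairing
  let P : I t →ₗ[K] Module.Dual K (I s) :=
    LinearMap.mk₂ K (fun (z : I t) (g : I s) => D (g.1 * z.1))
      (fun z z' g => by simp [mul_add]) (fun c z g => by simp)
      (fun z g g' => by simp [add_mul]) (fun c z g => by simp)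
  have hP : ∀ (z : I t) (g : I s), P z g = D (g.1 * z.1) := fun _ _ => rfl
  let f : Module.Dual K (I t) := φ.comp (I t).subtype
  have hf : f ∈ (LinearMap.ker P).dualAnnihilator := by
    rw [Submodule.mem_dualAnnihilator]
    intro z hz
    rw [LinearMap.mem_ker] at hz
    have hzi : z.1 ∈ interiorIdeal K σ Γ := z.2.1
    have hzh : z.1.IsHomogeneous t := z.2.2
    refine hφ z.1 hzi ?_ hzh
    refine hD.dual t s hts z.1 hzh ?_
    intro w hw hws
    have h1 := LinearMap.congr_fun hz (⟨w, hw, hws⟩ : I s)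
    rw [hP, LinearMap.zero_apply] at h1
    rw [mul_comm]
    exact h1
  rw [← LinearMap.range_dualMap_eq_dualAnnihilator_ker] at hf
  obtain ⟨Ψ, hΨ⟩ := hf
  let g : I s := (Module.evalEquiv K (I s)).symm Ψ
  refine ⟨g.1, g.2.1, g.2.2, ?_⟩
  intro z hz hzt
  have h1 : Ψ (P ⟨z, hz, hzt⟩) = φ z := by
    have := LinearMap.congr_fun hΨ (⟨z, hz, hzt⟩ : I t)
    exact this
  rw [← h1, ← Module.apply_evalEquiv_symm_apply]
  exact hP _ _

/-- PROOF. `hD.dual` for `y = X k * g`, homogeneous of degree `s + 1`, paired with the homogeneous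
elements `z` of degree `t` of the interior ideal: `D (X k * g * z) = φ (X k * z) = 0`. -/
theorem elem_socle (hD : DegMap a σ Γ D) {t s : ℕ} (hts : t + 1 + s = d)
    (φ : MvPolynomial (Fin n) K →ₗ[K] K) {g : MvPolynomial (Fin n) K} (hgs : g.IsHomogeneous s)
    (hg : ∀ z ∈ interiorIdeal K σ Γ, z.IsHomogeneous (t + 1) → φ z = D (g * z))
    (hφ : ∀ k, ∀ z ∈ interiorIdeal K σ Γ, z.IsHomogeneous t → φ (MvPolynomial.X k * z) = 0)
    (k : Fin n) : MvPolynomial.X k * g ∈ relIdeal a Γ := by
  have hX : (MvPolynomial.X k : MvPolynomial (Fin n) K).IsHomogeneous 1 :=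
    MvPolynomial.isHomogeneous_X K k
  refine hD.dual (1 + s) t (by omega) _ (hX.mul hgs) ?_
  intro z hz hzt
  have h1 : MvPolynomial.X k * z ∈ interiorIdeal K σ Γ := Ideal.mul_mem_left _ _ hz
  have h2 : (MvPolynomial.X k * z).IsHomogeneous (t + 1) := by
    rw [add_comm]
    exact hX.mul hzt
  rw [show MvPolynomial.X k * g * z = g * (MvPolynomial.X k * z) by ring, ← hg _ h1 h2]
  exact hφ k z hz hzt

/-- PROOF. `κ ≠ 0`: `monomial κ 1 = X k * monomial κ' 1`, and `X k * g = r + ∑ theta a i * h i`; multiply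
by `g * monomial κ' 1`. -/
theorem sq_eq_zero (hD : DegMap a σ Γ D) {g : MvPolynomial (Fin n) K}
    (hg : g ∈ interiorIdeal K σ Γ) (hgk : ∀ k, MvPolynomial.X k * g ∈ relIdeal a Γ)
    {κ : Fin n →₀ ℕ} (hκ : κ ≠ 0) : D (g ^ 2 * MvPolynomial.monomial κ 1) = 0 := by
  obtain ⟨k, hk⟩ := Finsupp.ne_iff.1 hκ
  have hle : Finsupp.single k 1 ≤ κ := by
    rw [Finsupp.single_le_iff]
    simp only [Finsupp.coe_zero, Pi.zero_apply] at hk
    omega
  have e : MvPolynomial.monomial κ (1 : K) =
      MvPolynomial.X k * MvPolynomial.monomial (κ - Finsupp.single k 1) 1 := by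
    rw [MvPolynomial.X, MvPolynomial.monomial_mul, one_mul, add_tsub_cancel_of_le hle]
  rw [e, show g ^ 2 * (MvPolynomial.X k * MvPolynomial.monomial (κ - Finsupp.single k 1) 1) =
    MvPolynomial.X k * g * (g * MvPolynomial.monomial (κ - Finsupp.single k 1) 1) by ring]
  exact socle_rel hD (hgk k) (Ideal.mul_mem_right _ _ hg)

end Pool.Agent.Lib.MP_fd6ff4_co.Two
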