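import Mathlib
import Pool.Agent.Lib.MP_fd6ff4_co.Two.PP
import Pool.Agent.Lib.MP_fd6ff4_co.Two.Socle

/-!
# A functional which kills the products vanishes on the matchable faces
-/

set_option autoImplicit false

open Finset

namespace Pool.Agent.Lib.MP_fd6ff4_co.Two

universe u

variable {d n : ℕ} {K : Type u} [Field K] {a : Fin d → Fin n → K}
  {Γ : Finset (Finset (Fin n))} {σ : Fin n → Finset (Fin d)}

/-- PROOF. Hall's theorem for the sets `{(k, e) : k ∈ N, i ∈ σ k}`, `e` a Boolean
(`Finset.all_card_le_biUnion_card_iff_exists_injective`); for a set `S` of indices the union has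
`2 * #{k ∈ N | (σ k ∩ S).Nonempty}` elements. -/
theorem exists_match {N : Finset (Fin n)}
    (hN : ∀ S : Finset (Fin d), #S ≤ 2 * #{k ∈ N | (σ k ∩ S).Nonempty}) :
    ∃ I : Fin d → Fin n, (∀ i, i ∈ σ (I i) ∧ I i ∈ N) ∧ ∀ v, #{i | I i = v} ≤ 2 := by
  classical
  have hall := (Finset.all_card_le_biUnion_card_iff_exists_injective
    (fun i : Fin d => (N.filter fun k => i ∈ σ k) ×ˢ (Finset.univ : Finset Bool))).1 (by
      intro S
      have h1 : (S.biUnion fun i : Fin d =>
          (N.filter fun k => i ∈ σ k) ×ˢ (Finset.univ : Finset Bool)) =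
          (N.filter fun k => (σ k ∩ S).Nonempty) ×ˢ (Finset.univ : Finset Bool) := by
        ext ⟨k, e⟩
        simp only [Finset.mem_biUnion, Finset.mem_product, Finset.mem_filter, Finset.mem_univ,
          and_true]
        constructor
        · rintro ⟨i, hi, hk, hik⟩
          exact ⟨hk, ⟨i, Finset.mem_inter.2 ⟨hik, hi⟩⟩⟩
        · rintro ⟨hk, i, hi⟩
          rw [Finset.mem_inter] at hi
          exact ⟨i, hi.2, hk, hi.1⟩
      rw [h1, Finset.card_product, Finset.card_univ, Fintype.card_bool, mul_comm]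
      exact hN S)
  obtain ⟨f, hf, hf2⟩ := hall
  refine ⟨fun i => (f i).1, ?_, ?_⟩
  · intro i
    have h1 := hf2 i
    rw [Finset.mem_product, Finset.mem_filter] at h1
    exact ⟨h1.1.2, h1.1.1⟩
  · intro v
    have h1 : #{i | (f i).1 = v} ≤ #(Finset.univ : Finset Bool) := by
      refine Finset.card_le_card_of_injOn (fun i => (f i).2) (fun _ _ => Finset.mem_univ _) ?_
      intro i hi j hj hij
      simp only [Finset.coe_filter, Finset.mem_univ, true_and, Set.mem_ofPred_eq] at hi hj
      exact hf (Prod.ext (hi.trans hj.symm) hij)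
    rwa [Finset.card_univ, Fintype.card_bool] at h1

private theorem mon_eq (N : Finset (Fin n)) :
    mon K N = MvPolynomial.monomial (∑ v ∈ N, Finsupp.single v 1) (1 : K) := by
  classical
  unfold mon
  induction N using Finset.induction_on with
  | empty => simp
  | insert v N hv ih =>
    rw [Finset.prod_insert hv, Finset.sum_insert hv, ih, MvPolynomial.X,
      MvPolynomial.monomial_mul, one_mul]

private theorem chi_apply (N : Finset (Fin n)) (v : Fin n) :
    (∑ w ∈ N, Finsupp.single w 1 : Fin n →₀ ℕ) v = if v ∈ N then 1 else 0 := by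
  classical
  rw [Finsupp.finsetSum_apply]
  simp [Finsupp.single_apply]

private theorem ind_apply (I : Fin d → Fin n) (v : Fin n) :
    ind I v = #{i | I i = v} := by
  classical
  unfold ind
  rw [Finsupp.finsetSum_apply]
  simp [Finsupp.single_apply]

private theorem ind_le {N : Finset (Fin n)} {I : Fin d → Fin n} (hI : ∀ i, I i ∈ N)
    (hI2 : ∀ v, #{i | I i = v} ≤ 2) :
    ind I ≤ 2 • (∑ v ∈ N, Finsupp.single v 1 : Fin n →₀ ℕ) := by
  classical
  intro v
  rw [ind_apply, Finsupp.smul_apply, chi_apply]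
  by_cases hv : v ∈ N
  · simpa [hv] using hI2 v
  · have h1 : (Finset.univ.filter fun i => I i = v) = ∅ := by
      rw [Finset.filter_eq_empty_iff]
      intro i _ hi
      exact hv (hi ▸ hI i)
    rw [h1]
    simp

/-- PROOF. `t ≥ 1`, say `t = t' + 1`. Let `g` be as in `exists_elem`; by `elem_socle` all the `X k * g`
are in `relIdeal`. Let `χ = ∑ v ∈ N, single v 1` and `κ = 2 • χ - ind I`; as `ind I ≤ 2 • χ` the
degree of `κ` is `2 * t - d > 0` and `ind I + κ = 2 • χ`, `half (2 • χ) = χ`. By `sq_eq_zero` and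
`pp_sq` (`2 * s + (2 * t - d) = d`) the sum in `pp_sq` is zero, so by `hsq` the term for `I` is zero:
`D (g * mon K N) = 0`, and this is `φ (mon K N)` (`mon K N = monomial χ 1`). -/
theorem vanish_of_match [CharP K 2] (h : Ball Γ σ) (hdet : ∀ F ∈ Γ, #F = d → pdet a F ≠ 0)
    (hsq : ∀ c : (Fin d → Fin n) → K, ∑ I : Fin d → Fin n, (∏ i, a i (I i)) * c I ^ 2 = 0 →
      ∀ I : Fin d → Fin n, (∀ i, i ∈ σ (I i)) → c I = 0)
    {t s : ℕ} (hts : t + s = d) (hst : s < t) (φ : MvPolynomial (Fin n) K →ₗ[K] K)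
    (h1 : ∀ z ∈ interiorIdeal K σ Γ, z ∈ relIdeal a Γ → z.IsHomogeneous t → φ z = 0)
    (h2 : ∀ k, ∀ z ∈ interiorIdeal K σ Γ, z.IsHomogeneous (t - 1) → φ (MvPolynomial.X k * z) = 0)
    {N : Finset (Fin n)} (hN : N ∈ Γ) (hc : car σ N = univ) (hNt : #N = t) {I : Fin d → Fin n}
    (hI : ∀ i, i ∈ σ (I i) ∧ I i ∈ N) (hI2 : ∀ v, #{i | I i = v} ≤ 2) : φ (mon K N) = 0 := by
  classical
  obtain ⟨t', rfl⟩ : ∃ t', t = t' + 1 := ⟨t - 1, by omega⟩
  obtain ⟨D, hD⟩ := exists_degMap h hdet (by omega)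
  obtain ⟨g, hg, hgs, hgφ⟩ := exists_elem hD hts φ h1
  have hso := elem_socle hD hts φ hgs hgφ (fun k z hz hzt => h2 k z hz (by simpa using hzt))
  set χ : Fin n →₀ ℕ := ∑ v ∈ N, Finsupp.single v 1 with hχ
  have hle : ind I ≤ 2 • χ := ind_le (fun i => (hI i).2) hI2
  have hadd : ind I + (2 • χ - ind I) = 2 • χ := add_tsub_cancel_of_le hle
  have hdegχ : χ.degree = t' + 1 := by
    rw [hχ, map_sum]
    simp [hNt]
  have hdegI : (ind I).degree = d := by
    unfold ind
    rw [map_sum]
    simp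
  have hdeg : (2 • χ - ind I).degree + d = 2 * (t' + 1) := by
    have h3 := congrArg Finsupp.degree hadd
    rw [map_add, map_nsmul, hdegI, hdegχ] at h3
    simpa [add_comm] using h3
  have hκ0 : (2 • χ - ind I) ≠ 0 := by
    intro h0
    rw [h0, map_zero] at hdeg
    omega
  have h3 := sq_eq_zero hD hg hso hκ0
  have hκd : 2 * s + (2 • χ - ind I).degree = d := by omega
  rw [pp_sq h hdet hD hg hgs hκd] at h3
  have h4 := hsq _ h3 I (fun i => (hI i).1)
  have hev : Evn (ind I + (2 • χ - ind I)) := by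
    intro v
    rw [hadd, Finsupp.smul_apply, smul_eq_mul]
    exact even_two_mul _
  have hhalf : half (ind I + (2 • χ - ind I)) = χ := by
    unfold half
    ext v
    rw [Finsupp.mapRange_apply, hadd, Finsupp.smul_apply, smul_eq_mul]
    omega
  simp only [hev, if_true, hhalf] at h4
  have hmem : mon K N ∈ interiorIdeal K σ Γ := Ideal.subset_span ⟨N, hN, hc, rfl⟩
  have hhom : (mon K N).IsHomogeneous (t' + 1) := by
    rw [mon_eq]
    exact MvPolynomial.isHomogeneous_monomial 1 hdegχ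
  rw [hgφ _ hmem hhom, mon_eq]
  exact h4

end Pool.Agent.Lib.MP_fd6ff4_co.Two
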