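import Mathlib
import Pool.Agent.Lib.MP_fd6ff4_co.Final
import Pool.Agent.Lib.MP_fd6ff4_co.Two.Match
import Pool.Agent.Lib.MP_fd6ff4_co.Two.Indep
import Pool.Agent.Lib.MP_fd6ff4_co.Two.CombTwo

/-!
# Characteristic 2: the local face module is generated in degrees at most `max (d / 2) (d - 3)`
-/

set_option autoImplicit false

open Finset

namespace Pool.Agent.Lib.MP_fd6ff4_co.Two

universe u

variable {d n : ℕ} {K : Type u} [Field K] {a : Fin d → Fin n → K}
  {Γ : Finset (Finset (Fin n))} {σ : Fin n → Finset (Fin d)}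

private theorem final_mon_eq (G : Finset (Fin n)) : mon K G =
    MvPolynomial.monomial (∑ j ∈ G, Finsupp.single j 1) 1 := by
  rw [mon, MvPolynomial.monomial_sum_one]
  rfl

private theorem final_chi_le {G : Finset (Fin n)} {M : Fin n →₀ ℕ} (hGM : G ⊆ M.support) :
    (∑ j ∈ G, Finsupp.single j 1 : Fin n →₀ ℕ) ≤ M := by
  classical
  intro j
  rw [Finsupp.finsetSum_apply]
  by_cases hj : j ∈ G
  · rw [Finset.sum_eq_single j]
    · rw [Finsupp.single_eq_same]
      exact Nat.one_le_iff_ne_zero.2 (Finsupp.mem_support_iff.1 (hGM hj))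
    · intro i _ hij
      exact Finsupp.single_eq_of_ne (Ne.symm hij)
    · intro h
      exact absurd hj h
  · rw [Finset.sum_eq_zero]
    · exact Nat.zero_le _
    · intro i hi
      exact Finsupp.single_eq_of_ne (fun h => hj (h ▸ hi))

private theorem final_card_le (M : Fin n →₀ ℕ) : #M.support ≤ M.degree := by
  rw [Finsupp.degree_apply, Finset.card_eq_sum_ones]
  exact Finset.sum_le_sum fun i hi =>
    Nat.one_le_iff_ne_zero.2 (Finsupp.mem_support_iff.1 hi)

/-- PROOF. A homogeneous element of degree `m` of the interior ideal is a combination of monomials `M`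
of degree `m` containing an interior face `G` (`mem_interiorIdeal`), `#G ≤ m`. -/
theorem mem_lowIdeal_of_hom {m : ℕ} {z : MvPolynomial (Fin n) K}
    (hz : z ∈ interiorIdeal K σ Γ) (hzm : z.IsHomogeneous m) : z ∈ lowIdeal a σ Γ m := by
  classical
  rw [MvPolynomial.as_sum z]
  refine Ideal.sum_mem _ fun M hM => ?_
  have hM0 : MvPolynomial.coeff M z ≠ 0 := MvPolynomial.mem_support_iff.1 hM
  have hMd : M.degree = m := by
    have h1 := hzm hM0
    rw [Finsupp.degree_eq_weight_one]
    exact h1
  obtain ⟨G, hG, hGc, hGM⟩ := (mem_interiorIdeal z).1 hz M hM0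
  have e1 : MvPolynomial.monomial M (MvPolynomial.coeff M z) =
      MvPolynomial.monomial (M - ∑ j ∈ G, Finsupp.single j 1) (MvPolynomial.coeff M z) *
        mon K G := by
    rw [final_mon_eq, MvPolynomial.monomial_mul, tsub_add_cancel_of_le (final_chi_le hGM), mul_one]
  rw [e1]
  refine Ideal.mul_mem_left _ _ (mon_mem_of_subset hG hGc ?_ (Finset.Subset.refl _))
  exact (Finset.card_le_card hGM).trans ((final_card_le M).trans hMd.le)

/-- One step. PROOF. Suppose that `mon K N` is not in `lowIdeal (t - 1)`. There is a functional `φ`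
which vanishes on this ideal (as a `K`-space, `Submodule.exists_le_ker_of_notMem` or similar) but not
on `mon K N`. It vanishes on `relIdeal` and on the `X k * z`, `z` homogeneous of degree `t - 1` in the
interior ideal (`mem_lowIdeal_of_hom`). Let `f N = φ (mon K N)`. `r1`: `mon_mem_of_subset`. `r2`: `row_mem`.
`r3`: `exists_match` and `vanish_of_match`. So `comb_two` gives `φ (mon K N) = 0`. -/
theorem step_two [CharP K 2] (h : Ball Γ σ) (hg : Generic a σ)
    (hdet : ∀ F ∈ Γ, #F = d → pdet a F ≠ 0)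
    (hsq : ∀ c : (Fin d → Fin n) → K, ∑ I : Fin d → Fin n, (∏ i, a i (I i)) * c I ^ 2 = 0 →
      ∀ I : Fin d → Fin n, (∀ i, i ∈ σ (I i)) → c I = 0)
    {t s : ℕ} (hts : t + s = d) (hst : s < t) (hs : s ≤ 2) {N : Finset (Fin n)} (hN : N ∈ Γ)
    (hc : car σ N = univ) (hNt : #N = t) : mon K N ∈ lowIdeal a σ Γ (t - 1) := by
  classical
  by_contra hcon
  have hcon' : mon K N ∉ Submodule.restrictScalars K (lowIdeal a σ Γ (t - 1)) := hcon
  obtain ⟨φ, hφN, hφ⟩ := Submodule.exists_le_ker_of_notMem hcon'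
  have hker : ∀ z ∈ lowIdeal a σ Γ (t - 1), φ z = 0 := fun z hz => hφ hz
  refine hφN (comb_two h hg.ne hts hst hs (fun M => φ (mon K M)) ?_ ?_ ?_ N hN hNt hc)
  · intro M hM hMt k hk hcar
    refine hker _ (mon_mem_of_subset (h.down M hM _ (Finset.erase_subset k M)) hcar ?_
      (Finset.erase_subset k M))
    rw [Finset.card_erase_of_mem hk, hMt]
  · intro M _ _ i hcar
    have hi : i ∉ car σ M := by
      rw [hcar]
      exact Finset.notMem_erase i univ
    have h1 := hker _ (relIdeal_le_lowIdeal (σ := σ) (t - 1) (row_mem (Γ := Γ) hg hi))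
    rw [map_sum] at h1
    rw [← h1]
    refine Finset.sum_congr rfl fun x _ => ?_
    rw [← MvPolynomial.smul_eq_C_mul, map_smul, smul_eq_mul]
  · intro M hM hMt hcar hmatch
    obtain ⟨I, hI, hI2⟩ := exists_match hmatch
    refine vanish_of_match h hdet hsq hts hst φ ?_ ?_ hM hcar hMt hI hI2
    · intro z _ hz _
      exact hker z (relIdeal_le_lowIdeal (t - 1) hz)
    · intro k z hz hzt
      exact hker _ (Ideal.mul_mem_left _ _ (mem_lowIdeal_of_hom hz hzt))

/-- PROOF. `generated_of`, `exists_small` (`h.tri`), and `step_two` for `t = d, d - 1, d - 2` as long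
as `t > max (d / 2) (d - 3)`, as in `generated` in `Final`. `generic_of`, `pdet_ne_zero`,
`indep_squares`. -/
theorem generated_two [CharP K 2] {k : Type*} [Field k] [Algebra k K]
    (hind : AlgebraicIndependent k fun p : Idx σ => a p.1.1 p.1.2)
    (htop : IntermediateField.adjoin k (Set.range fun p : Idx σ => a p.1.1 p.1.2) = ⊤)
    (hzero : ∀ i j, i ∉ σ j → a i j = 0) (h : Ball Γ σ) (hd : 1 ≤ d) :
    GeneratedLE a σ Γ (max (d / 2) (d - 3)) := by
  have hg : Generic a σ := generic_of hind hzero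
  have hdet : ∀ F ∈ Γ, #F = d → pdet a F ≠ 0 := fun F hF hFd =>
    pdet_ne_zero hind hzero h hF hFd
  have hsq : ∀ c : (Fin d → Fin n) → K, ∑ I : Fin d → Fin n, (∏ i, a i (I i)) * c I ^ 2 = 0 →
      ∀ I : Fin d → Fin n, (∀ i, i ∈ σ (I i)) → c I = 0 := fun c hc I hI =>
    indep_squares hind htop hzero c hc I hI
  have main : ∀ t : ℕ, t ≤ d → ∀ G ∈ Γ, car σ G = univ → #G ≤ t →
      mon K G ∈ lowIdeal a σ Γ (max (d / 2) (d - 3)) := by
    intro t
    induction t with
    | zero =>
      intro _ G hG hc hGt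
      exact mon_mem_of_subset hG hc (hGt.trans (Nat.zero_le _)) (Finset.Subset.refl _)
    | succ t ih =>
      intro htd G hG hc hGt
      rcases Nat.lt_or_ge (max (d / 2) (d - 3)) (#G) with hlt | hge
      · have h1 : d / 2 ≤ max (d / 2) (d - 3) := le_max_left _ _
        have h2 : d - 3 ≤ max (d / 2) (d - 3) := le_max_right _ _
        have h3 : mon K G ∈ lowIdeal a σ Γ (#G - 1) :=
          step_two h hg hdet hsq (t := #G) (s := d - #G) (by omega) (by omega) (by omega) hG hc rfl
        refine (lowIdeal_le ?_) h3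
        intro G' hG' hc' hcard
        exact ih (by omega) G' hG' hc' (by omega)
      · exact mon_mem_of_subset hG hc hge (Finset.Subset.refl _)
  apply generated_of
  intro G hG hc
  obtain ⟨H, hHG, hHΓ, hHc, hHd⟩ := exists_small h.tri hG hc
  have h1 := main d le_rfl H hHΓ hHc hHd
  have h2 : mon K G = mon K (G \ H) * mon K H := by
    unfold mon
    rw [Finset.prod_sdiff hHG]
  rw [h2]
  exact Ideal.mul_mem_left _ _ h1

end Pool.Agent.Lib.MP_fd6ff4_co.Two
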